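import Pool.Agent.H71.PM.Defs

/-!
# Definitions for the statement: free ultrafilters on `ω` and flatness inside a model of set theory

`(M, E)` is a structure for the language of set theory. `IsZFC`, `App` (`⟨x, y⟩ ∈ f`), `IsOPair` are
from `Pool.Agent.H26.BV.Defs`, `IsFin` (Kuratowski finite) from `Pool.Agent.H26.BV.Stmt`, `IsOmega` from
`Pool.Agent.H92.PK.Defs`, `IsReal` (subset of `ω = w`), `Unbdd` (contains arbitrarily large natural
numbers) from `Pool.Agent.H71.HM.Defs`, `IsSeq` (sequence indexed by `ω`), `IsFn` (function from `ω` to `ω`)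
from `Pool.Agent.H71.PM.Defs`.
-/

set_option autoImplicit false

universe v

namespace SV

open BV HM PM

variable {M : Type v}

/-- `u` is a free ultrafilter on `ω = w` -/
structure IsFreeUlt (E : M → M → Prop) (w u : M) : Prop where
  real : ∀ X, E X u → IsReal E w X
  unbdd : ∀ X, E X u → Unbdd E w X
  up : ∀ X Y, E X u → IsReal E w Y → (∀ n, E n X → E n Y) → E Y u
  inter : ∀ X Y Z, E X u → E Y u → (∀ n, E n Z ↔ E n X ∧ E n Y) → E Z u
  ultra : ∀ X Y, IsReal E w X → IsReal E w Y → (∀ n, E n w → E n X ∨ E n Y) → E X u ∨ E Y u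

/-- `|A ∩ [i, j)| * k ≤ |A|`, for a set `A` of natural numbers and natural numbers `i`, `j`, `k`: some
injective function maps all pairs `⟨x, l⟩` with `x ∈ A`, `i ≤ x < j` and `l < k` to elements of `A` -/
def Few (E : M → M → Prop) (A i j k : M) : Prop :=
  ∃ g, (∀ x l p, E x A → (E i x ∨ i = x) → E x j → E l k → IsOPair E p x l →
      ∃ y, E y A ∧ App E g p y) ∧
    (∀ p y y', App E g p y → App E g p y' → y = y') ∧
    (∀ p p' y, App E g p y → App E g p' y → p = p')

/-- the ultrafilter `u` on `ω = w` is flat: there is a sequence `a` of nonempty finite sets of natural numbers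
such that for every function `f` from `ω` to `ω` and every natural number `k`, for all `n` in some set in `u`,
every interval `[i, f(i))` contains at most `|A| / k` elements of `A = a(n)` -/
def Flat (E : M → M → Prop) (w u : M) : Prop :=
  ∃ a, IsSeq E w a ∧
    (∀ n A, E n w → App E a n A → IsReal E w A ∧ IsFin E A ∧ ∃ x, E x A) ∧
    ∀ f, IsFn E w f → ∀ k, E k w → ∃ Z, E Z u ∧
      ∀ n, E n Z → ∀ A, App E a n A → ∀ i j, E i w → App E f i j → Few E A i j k

/-- every free ultrafilter on `ω` is flat -/
def AllFlat (E : M → M → Prop) : Prop :=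
  ∃ w, PK.IsOmega E w ∧ ∀ u, IsFreeUlt E w u → Flat E w u

/-! ## The same in Lean -/

/-- weak form of flatness of the ultrafilter `U`: there are nonempty finite sets `A n` of natural numbers such
that for all `f` and `k`, for `U`-almost all `n` every interval `[i, f i)` contains at most `|A n| / k` elements of `A n` -/
def Weak (U : Ultrafilter ℕ) : Prop :=
  ∃ A : ℕ → Finset ℕ, (∀ n, (A n).Nonempty) ∧ ∀ (f : ℕ → ℕ) (k : ℕ), ∀ᶠ n in (U : Filter ℕ), ∀ i,
    ((A n).filter fun x => i ≤ x ∧ x < f i).card * k ≤ (A n).card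

end SV
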