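import Pool.Agent.H79.SV.Bv
import Pool.Agent.H79.SV.Defs
import Pool.Agent.H71.PM.Ad

/-!
# ISUB: the forcing relation of a name of a free ultrafilter

`FUof e u p₀ p φ`: `p ≤ p₀`, `φ` is a name below `p` and `e p ≤ ⟦rnm (n ↦ ⟦φ n⟧) ∈ u⟧`.

`isU_of`. `le`, `nm`, `mono` are clear (`he.mono`), `dense` is `le_of_dense`. For the others work in the quotients `MU W` with `e p ∈ W` (`UF.le_of_forall`;
`MU.E_mk`: `bmem x y ∈ W ↔ MU.E W (MU.mk W x) (MU.mk W y)`), where `MU.mk W u` is a free ultrafilter. To compare the reals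
`rnm X` use `E_rnm : MU.E W (nn W n) (MU.mk W (rnm X)) ↔ X n ∈ W` for the standard natural numbers, and `ball_w` / `ball_mk` (for the
name `rnm X`) for all elements, in the quotients `V` with `e p ∈ V`; the `HV` facts are `HV.mem`, `HV.imp`, `HV.and`, `HV.or`, …, and `isReal_rnm` says that `rnm X` is a
real. `dec`: `IsFreeUlt.ultra` for `X = rnm ⟦φ⟧`, `Y = rnm ⟦¬ φ⟧` (`bv_or`), then `he.exists_le_or`. `up`: `IsFreeUlt.up`, `bv_imp`. `inter`: `IsFreeUlt.inter`, `bv_and`.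
`free`: `IsFreeUlt.unbdd` gives in `MU W` an element `n > k` of `rnm ⟦φ⟧`, so (`bex_w`) `e p ≤ ⨆ n ≥ k, ⟦φ n⟧`; `he.exists_le_of_le_iSup` gives
`q ≤ p` and `n ≥ k` with `e q ≤ ⟦φ n⟧`; `le_bv` for `q` and `pts_nonempty`.
-/

set_option autoImplicit false

namespace SV

open Cond BV PK HM PM

variable {K : Type} {B : Type} [CompleteBooleanAlgebra B] {e : Cond K → B}

/-- the forcing relation of the name `u` of a free ultrafilter, below `p₀` -/
def FUof (e : Cond K → B) (u : BSet B) (p₀ p : Cond K) (φ : Gen K → ℕ → Prop) : Prop :=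
  p ≤ p₀ ∧ Nm p φ ∧ e p ≤ bmem (rnm fun n => bv e fun g => φ g n) u

theorem isU_of (he : DenseEmb (Cond K) B e) {u : BSet B} {p₀ : Cond K}
    (h : ∀ W : UF B, e p₀ ∈ W → IsFreeUlt (MU.E W) (om W) (MU.mk W u)) :
    IsU p₀ (FUof e u p₀) := by
  have hval : ∀ (X : BSet B) (x : BSet B),
      HV fun V : UF B => MU.E V (MU.mk V x) (MU.mk V X) := fun X x => HV.mem x X
  have hE : ∀ (p : Cond K) (φ : Gen K → ℕ → Prop), FUof e u p₀ p φ → ∀ W : UF B, e p ∈ W →
      MU.E W (MU.mk W (rnm fun n => bv e fun g => φ g n)) (MU.mk W u) :=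
    fun p φ hφ W hW => W.mem_of_le hW hφ.2.2
  refine ⟨fun p φ hp => hp.1, fun p φ hp => hp.2.1, ?_, ?_, ?_, ?_, ?_, ?_⟩
  · intro p q φ hq hp
    exact ⟨hq.trans hp.1, hp.2.1.mono hq, (he.mono q p hq).trans hp.2.2⟩
  · intro p φ hp hn hd
    refine ⟨hp, hn, le_of_dense he fun q hq => ?_⟩
    obtain ⟨r, hr, h1⟩ := hd q hq
    exact ⟨r, hr, h1.2.2⟩
  · intro p φ hp hn
    have hn' : Nm p fun g m => ¬ φ g m := fun m => (hn m).comp Not
    have h1 : e p ≤ bmem (rnm fun n => bv e fun g => φ g n) u ⊔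
        bmem (rnm fun n => bv e fun g => ¬ φ g n) u := by
      refine UF.le_of_forall fun W hW => ?_
      rw [UF.sup_mem_iff]
      refine (h W (W.mem_of_le hW (he.mono p p₀ hp))).ultra _ _ (isReal_rnm W _) (isReal_rnm W _)
        fun n hn0 => ?_
      refine ball_w (Q := fun V n => MU.E V n (MU.mk V (rnm fun n => bv e fun g => φ g n)) ∨
        MU.E V n (MU.mk V (rnm fun n => bv e fun g => ¬ φ g n)))
        (fun x => (hval _ x).or (hval _ x)) (e p) ?_ W hW n hn0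
      intro V hV k
      rw [E_rnm, E_rnm]
      exact V.sup_mem_iff.1 (V.mem_of_le hV (bv_or he (hn k)))
    obtain ⟨q, hq, h2 | h2⟩ := he.exists_le_or h1
    · exact ⟨q, hq, Or.inl ⟨hq.trans hp, hn.mono hq, h2⟩⟩
    · exact ⟨q, hq, Or.inr ⟨hq.trans hp, hn'.mono hq, h2⟩⟩
  · intro p φ ψ hφ hψ hi
    refine ⟨hφ.1, hψ, UF.le_of_forall fun W hW => ?_⟩
    refine (h W (W.mem_of_le hW (he.mono p p₀ hφ.1))).up _ _ (hE p φ hφ W hW)
      (isReal_rnm W _) fun n hn0 => ?_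
    refine ball_w (Q := fun V n => MU.E V n (MU.mk V (rnm fun n => bv e fun g => φ g n)) →
      MU.E V n (MU.mk V (rnm fun n => bv e fun g => ψ g n)))
      (fun x => (hval _ x).imp (hval _ x)) (e p) ?_ W hW n (isReal_rnm W _ n hn0) hn0
    intro V hV k
    rw [E_rnm, E_rnm]
    exact bv_imp he (hψ k) (fun g hg => hi g hg k) V hV
  · intro p φ ψ hφ hψ
    have hn : Nm p fun g m => φ g m ∧ ψ g m := fun m => (hφ.2.1 m).comp₂ (hψ.2.1 m) And
    refine ⟨hφ.1, hn, UF.le_of_forall fun W hW => ?_⟩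
    show MU.E W (MU.mk W (rnm fun n => bv e fun g => φ g n ∧ ψ g n)) (MU.mk W u)
    refine (h W (W.mem_of_le hW (he.mono p p₀ hφ.1))).inter _ _ _ (hE p φ hφ W hW)
      (hE p ψ hψ W hW) fun n => ?_
    have key : MU.E W n (om W) →
        (MU.E W n (MU.mk W (rnm fun n => bv e fun g => φ g n ∧ ψ g n)) ↔
          MU.E W n (MU.mk W (rnm fun n => bv e fun g => φ g n)) ∧
            MU.E W n (MU.mk W (rnm fun n => bv e fun g => ψ g n))) := by
      refine ball_w (Q := fun V n =>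
        (MU.E V n (MU.mk V (rnm fun n => bv e fun g => φ g n ∧ ψ g n)) ↔
          MU.E V n (MU.mk V (rnm fun n => bv e fun g => φ g n)) ∧
            MU.E V n (MU.mk V (rnm fun n => bv e fun g => ψ g n))))
        (fun x => (hval _ x).iff ((hval _ x).and (hval _ x))) ⊤ ?_ W W.top_mem n
      intro V _ k
      rw [E_rnm, E_rnm, E_rnm]
      exact bv_and he _ _ V
    exact ⟨fun h1 => (key (isReal_rnm W _ n h1)).1 h1,
      fun h1 => (key (isReal_rnm W _ n h1.1)).2 h1⟩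
  · intro p φ k hφ
    have h1 : e p ≤ ⨆ n, (if k < n then bv e fun g => φ g n else ⊥) := by
      refine UF.le_of_forall fun W hW => ?_
      obtain ⟨n, hn1, hn2, hn3⟩ := (h W (W.mem_of_le hW (he.mono p p₀ hφ.1))).unbdd _
        (hE p φ hφ W hW) (nn W k) (E_nn_om W k)
      refine bex_w (Q := fun V n => MU.E V (nn V k) n ∧
        MU.E V n (MU.mk V (rnm fun n => bv e fun g => φ g n)))
        (fun x => (HV.mem (chk B (k : Ordinal.{0})) x).and (hval _ x)) ⊤ _ ?_ W W.top_mem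
        ⟨n, hn1, hn2, hn3⟩
      intro V _ m hm
      have h2 : k < m := (E_nn V k m).1 hm.1
      rw [if_pos h2]
      exact (E_rnm V _ m).1 hm.2
    obtain ⟨q, hq, n, hn⟩ := he.exists_le_of_le_iSup h1
    by_cases hk : k < n
    · rw [if_pos hk] at hn
      obtain ⟨r, hr, h2⟩ := exists_of_le_bv he hn
      obtain ⟨g, hg⟩ := r.pts_nonempty
      exact ⟨g, pts_mono (hr.trans hq) hg, n, hk.le, h2 g hg⟩
    · rw [if_neg hk] at hn
      exact absurd (le_bot_iff.1 hn) (he.ne_bot q)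

end SV
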