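import Pool.Agent.H79.SV.Fus

/-!
# FE: deciding names with finitely many free places; continuous reading of names

`finext`: go through the finitely many patterns `s ⊆ F` (`s : Finset (K × ℕ)`, the function
`g_s a n = decide ((a, n) ∈ s)`; `F.powerset` as a list, or induction on a finset of patterns). Given the condition `q`
with `Ext F q p` reached so far, take `r ≤ q.add F g_s` and `v` with `D r v` and replace `q` by `r.unset F`
(`unset_ext`): `Ext F (r.unset F) q` and `(r.unset F).add F g_s ≤ r`, so `D ((r.unset F).add F g_s) v`; the earlier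
patterns stay decided by `add_le_add_fr` and `hD`. In the end `t g` is the value chosen for the pattern
`F.filter fun z => g z.1 z.2 = true`; use `add_congr`.

`reading`: `fusion` with `T = Gen K → α`, `Q _ _ = True`, `R n F p t t'` = (`t'` depends only on the places in `F`) and
`∀ g, W n (p.add F g) (t' g)`; the step is `finext`. Then `x g n = t (n + 1) g`.
-/

set_option autoImplicit false

namespace SV

open Cond

variable {K : Type}

open Classical in
/-- the total function which is true exactly at the places in `T` -/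
noncomputable def patt (T : Finset (K × ℕ)) : Gen K := fun a n => decide ((a, n) ∈ T)

open Classical in
/-- the places of `F` at which `g` is true -/
noncomputable def pat (F : Finset (K × ℕ)) (g : Gen K) : Finset (K × ℕ) :=
  F.filter fun z => g z.1 z.2 = true

theorem patt_eq_true {T : Finset (K × ℕ)} {a : K} {n : ℕ} : patt T a n = true ↔ (a, n) ∈ T := by
  unfold patt
  simp

theorem mem_pat {F : Finset (K × ℕ)} {g : Gen K} {z : K × ℕ} :
    z ∈ pat F g ↔ z ∈ F ∧ g z.1 z.2 = true := by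
  unfold pat
  exact Finset.mem_filter

theorem patt_pat {F : Finset (K × ℕ)} {g : Gen K} {z : K × ℕ} (hz : z ∈ F) :
    patt (pat F g) z.1 z.2 = g z.1 z.2 := by
  rw [Bool.eq_iff_iff, patt_eq_true, mem_pat]
  exact ⟨fun h => h.2, fun h => ⟨hz, h⟩⟩

theorem pat_mem_powerset (F : Finset (K × ℕ)) (g : Gen K) : pat F g ∈ F.powerset :=
  Finset.mem_powerset.2 (Finset.filter_subset _ _)

theorem pat_congr {F : Finset (K × ℕ)} {g g' : Gen K} (h : ∀ z ∈ F, g' z.1 z.2 = g z.1 z.2) :
    pat F g' = pat F g := by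
  unfold pat
  refine Finset.filter_congr fun z hz => ?_
  rw [h z hz]

theorem add_patt (p : Cond K) (F : Finset (K × ℕ)) (g : Gen K) :
    p.add F (patt (pat F g)) = p.add F g := add_congr fun _ hz => patt_pat hz

theorem finext {α : Type*} (D : Cond K → α → Prop) (hD : ∀ p q v, q ≤ p → D p v → D q v)
    {p : Cond K} {F : Finset (K × ℕ)} (hF : p.fr F)
    (hd : ∀ q, q ≤ p → ∃ r, r ≤ q ∧ ∃ v, D r v) :
    ∃ q, Ext F q p ∧ ∃ t : Gen K → α,
      (∀ g g', (∀ z ∈ F, g' z.1 z.2 = g z.1 z.2) → t g' = t g) ∧ ∀ g, D (q.add F g) (t g) := by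
  classical
  have key : ∀ 𝒮 : Finset (Finset (K × ℕ)), ∃ q, Ext F q p ∧
      ∀ T ∈ 𝒮, ∃ v, D (q.add F (patt T)) v := by
    intro 𝒮
    induction 𝒮 using Finset.induction_on with
    | empty => exact ⟨p, Ext.rfl' hF, by simp⟩
    | insert T 𝒮 _ ih =>
      obtain ⟨q, hq, hT⟩ := ih
      obtain ⟨r, hr, v, hv⟩ := hd (q.add F (patt T)) ((add_le _ _ _).trans hq.1)
      obtain ⟨h1, h2⟩ := unset_ext hq.2 hr
      refine ⟨r.unset F, h1.trans hq (Finset.Subset.refl F), fun T' hT' => ?_⟩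
      rcases Finset.mem_insert.1 hT' with h | h
      · rw [h]
        exact ⟨v, hD _ _ _ h2 hv⟩
      · obtain ⟨v', hv'⟩ := hT T' h
        exact ⟨v', hD _ _ _ (add_le_add_fr _ h1.1 h1.2) hv'⟩
  obtain ⟨q, hq, hT⟩ := key F.powerset
  have : Nonempty α := by
    obtain ⟨r, -, v, -⟩ := hd p le_rfl
    exact ⟨v⟩
  choose! t ht using hT
  refine ⟨q, hq, fun g => t (pat F g), fun g g' hg => ?_, fun g => ?_⟩
  · show t (pat F g') = t (pat F g)
    rw [pat_congr hg]
  · rw [← add_patt]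
    exact ht _ (pat_mem_powerset F g)

theorem reading {α : Type*} (W : ℕ → Cond K → α → Prop)
    (hW : ∀ n p q v, q ≤ p → W n p v → W n q v) {p : Cond K} {F₀ : Finset (K × ℕ)}
    (hF : p.fr F₀) (hd : ∀ n q, q ≤ p → ∃ r, r ≤ q ∧ ∃ v, W n r v) :
    ∃ q, Ext F₀ q p ∧ ∃ x : Gen K → ℕ → α, Nm q x ∧ ∀ n, ∃ F : Finset (K × ℕ),
      (∀ g g', (∀ z ∈ F, g' z.1 z.2 = g z.1 z.2) → x g' n = x g n) ∧
      ∀ g, W n (q.add F g) (x g n) := by
  obtain ⟨-, -, v₀, -⟩ := hd 0 p le_rfl
  obtain ⟨q, t, F, hq, -, -, -, hfr, -, hR⟩ := fusion (T := Gen K → α) (fun q _ => q ≤ p)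
    (fun n F q _ t' => (∀ g g' : Gen K, (∀ z ∈ F, g' z.1 z.2 = g z.1 z.2) → t' g' = t' g) ∧
      ∀ g : Gen K, W n (q.add F g) (t' g))
    (fun _ _ _ h h' => h.trans h')
    (fun n F p q t t' hq h => ⟨h.1, fun g => hW _ _ _ _ (add_le_add_fr g hq.1 hq.2) (h.2 g)⟩)
    (by
      intro n F q _ hF hq
      obtain ⟨r, hr, t', h1, h2⟩ := finext (W n) (hW n) hF fun s hs => hd n s (hs.trans hq)
      exact ⟨r, t', hr, hr.1.trans hq, h1, h2⟩)
    F₀ p (fun _ => v₀) hF le_rfl
  refine ⟨q, hq, fun g n => t (n + 1) g, fun n => ?_, fun n => ⟨F n, (hR n).1, (hR n).2⟩⟩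
  exact Ctn.of_fin (F n) (hR n).1

end SV
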