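import Pool.Agent.H79.SV.Basic

/-!
# UNIF: compactness of `p.pts`; names have countable support

`Ctn.unif`: `X (p.fill g)` is a locally constant function on the compact space `K → ℕ → Bool` (product
topology): for every `g` there is a finite set `F g` such that `X (p.fill g') = X (p.fill g)` for all `g'` which agree with `g` on `F g`
(note that `p.fill g'` and `p.fill g` agree on `F` if `g'` and `g` do, and `fill_mem`). The sets
`{g' | g' agrees with g on F g}` are open; take a finite subcover `g_1, …, g_r` (`isCompact_univ.elim_nhds_subcover`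
or similar) and the union of the `F g_i`. For `g ∈ p.pts` use `fill_of_mem`.

`exists_dep`: let `F m` be from `Ctn.unif` for `fun g => x g m`, `A` = (support of `p`) ∪ (the first coordinates of
all `F m`), `y g = x (p.fill (g on A, false outside of A))`.
-/

set_option autoImplicit false

namespace SV

open Cond

variable {K : Type}

/-- locally constant functions on `K → ℕ → Bool` depend on finitely many places -/
theorem unif_univ {α : Sort*} (X : Gen K → α)
    (h : ∀ g, ∃ F : Finset (K × ℕ), ∀ g' : Gen K, (∀ z ∈ F, g' z.1 z.2 = g z.1 z.2) → X g' = X g) :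
    ∃ F : Finset (K × ℕ), ∀ g g' : Gen K, (∀ z ∈ F, g' z.1 z.2 = g z.1 z.2) → X g' = X g := by
  classical
  choose F hF using h
  set V : Gen K → Set (Gen K) := fun g => {g' | ∀ z ∈ F g, g' z.1 z.2 = g z.1 z.2} with hV
  have hopen : ∀ g, IsOpen (V g) := by
    intro g
    have : V g = ⋂ z ∈ F g, {g' : Gen K | g' z.1 z.2 = g z.1 z.2} := by
      ext g'
      simp [hV]
    rw [this]
    refine isOpen_biInter_finset fun z _ => ?_
    have hc : Continuous fun g' : Gen K => g' z.1 z.2 :=
      (continuous_apply z.2).comp (continuous_apply z.1)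
    exact (isOpen_discrete {b : Bool | b = g z.1 z.2}).preimage hc
  obtain ⟨t, -, ht⟩ := isCompact_univ.elim_nhds_subcover V
    fun g _ => (hopen g).mem_nhds (fun z _ => rfl)
  refine ⟨t.biUnion F, fun g g' hg => ?_⟩
  have h1 : g ∈ ⋃ x ∈ t, V x := ht (Set.mem_univ g)
  simp only [Set.mem_iUnion] at h1
  obtain ⟨x, hx, hgx⟩ := h1
  have h2 : X g = X x := hF x g hgx
  have h3 : X g' = X x := by
    refine hF x g' fun z hz => ?_
    rw [hg z (Finset.mem_biUnion.2 ⟨x, hx, hz⟩)]
    exact hgx z hz
  rw [h2, h3]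

theorem Ctn.unif {α : Sort*} {p : Cond K} {X : Gen K → α} (h : Ctn p X) :
    ∃ F : Finset (K × ℕ), ∀ g ∈ p.pts, ∀ g' ∈ p.pts, (∀ z ∈ F, g' z.1 z.2 = g z.1 z.2) →
      X g' = X g := by
  have hfill : ∀ (F : Finset (K × ℕ)) (g g' : Gen K), (∀ z ∈ F, g' z.1 z.2 = g z.1 z.2) →
      ∀ z ∈ F, p.fill g' z.1 z.2 = p.fill g z.1 z.2 := by
    intro F g g' hg z hz
    unfold fill
    rw [hg z hz]
  obtain ⟨F, hF⟩ := unif_univ (fun g => X (p.fill g)) fun g => by
    obtain ⟨F, hF⟩ := h (p.fill g) (p.fill_mem g)
    exact ⟨F, fun g' hg' => hF _ (p.fill_mem g') (hfill F g g' hg')⟩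
  refine ⟨F, fun g hg g' hg' hgg => ?_⟩
  have := hF g g' hgg
  simp only [fill_of_mem hg, fill_of_mem hg'] at this
  exact this

theorem exists_dep {α : Type*} {p : Cond K} {x : Gen K → ℕ → α} (h : Nm p x) :
    ∃ (A : Set K) (y : Gen K → ℕ → α), A.Countable ∧ Dep A y ∧ ∀ g ∈ p.pts, y g = x g := by
  classical
  choose F hF using fun m => (h m).unif
  set A : Set K := ⋃ m, ((F m).image Prod.fst : Finset K) with hA
  refine ⟨A, fun g => x (p.fill fun a => if a ∈ A then g a else fun _ => false), ?_, ?_, ?_⟩
  · exact Set.countable_iUnion fun m => Finset.countable_toSet _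
  · intro g g' hg
    have : (fun a => if a ∈ A then g a else fun _ => false) =
        fun a => if a ∈ A then g' a else fun _ => false := by
      funext a
      by_cases ha : a ∈ A
      · rw [if_pos ha, if_pos ha, hg a ha]
      · rw [if_neg ha, if_neg ha]
    simp only [this]
  · intro g hg
    funext m
    refine hF m g hg _ (p.fill_mem _) fun z hz => ?_
    have hzA : z.1 ∈ A := Set.mem_iUnion.2 ⟨m, by
      simp only [Finset.coe_image, Set.mem_image, Finset.mem_coe]
      exact ⟨z, hz, rfl⟩⟩
    cases hv : p.val z.1 z.2 with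
    | none => rw [fill_of_none hv, if_pos hzA]
    | some v => rw [fill_mem p _ _ _ v hv, hg _ _ v hv]

end SV
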