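import Pool.Agent.H79.SV.Bv
import Pool.Agent.H79.SV.Fe
import Pool.Agent.H79.SV.Unif
import Pool.Agent.H74.PSI.Alg

/-!
# WITA: names of functions from `ω` to `ω` are bounded by functions of the ground model

`reading` with `W n q v = (e q ≤ z n v)` (density: `(hz n).top`, `he.exists_le_of_le_iSup`) gives `q`, `x`; `x g n ≤ f n` for all `g`, because `x g n`
depends only on the values of `g` in a finite set (the function `f n` = the maximum of `x g_T n` over the patterns `T ⊆ F`,
`g_T a n = decide ((a, n) ∈ T)`); `e q ≤ ⨆ v ≤ f n, z n v` by `le_of_dense`: for `r ≤ q` and `g ∈ r.pts` the condition `r.add F g` (`≤ q.add F g`,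
`add_le_add_pts`) satisfies `e (r.add F g) ≤ z n (x g n)`.
-/

set_option autoImplicit false

namespace SV

open Cond BV PSI

variable {K : Type} {B : Type} [CompleteBooleanAlgebra B] {e : Cond K → B}

theorem bound (he : DenseEmb (Cond K) B e) {p : Cond K} {z : ℕ → ℕ → B}
    (hz : ∀ n, Part (z n)) : ∃ q, q ≤ p ∧ ∃ f : ℕ → ℕ, ∀ n,
      e q ≤ ⨆ v ∈ Finset.range (f n + 1), z n v := by
  classical
  obtain ⟨q, hq, x, -, hx⟩ := reading (fun n q v => e q ≤ z n v)
    (fun n p q v h h' => (he.mono q p h).trans h') (fr_empty p) (fun n q _ => by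
      have h1 : e q ≤ ⨆ v, z n v := by rw [(hz n).top]; exact le_top
      obtain ⟨r, hr, v, hv⟩ := he.exists_le_of_le_iSup h1
      exact ⟨r, hr, v, hv⟩)
  choose F hF hF' using hx
  refine ⟨q, hq.1, fun n => (F n).powerset.sup fun T => x (patt T) n, fun n => ?_⟩
  refine le_of_dense he fun r hr => ?_
  obtain ⟨g, hg⟩ := r.pts_nonempty
  refine ⟨r.add (F n) g, add_le _ _ _, ?_⟩
  have h1 : x g n = x (patt (pat (F n) g)) n := hF n _ _ fun z hz => (patt_pat hz).symm
  have h2 : x g n ≤ (F n).powerset.sup fun T => x (patt T) n := by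
    rw [h1]
    exact Finset.le_sup (f := fun T => x (patt T) n) (pat_mem_powerset (F n) g)
  refine ((he.mono _ _ (add_le_add_pts hr hg)).trans (hF' n g)).trans ?_
  exact le_iSup₂ (f := fun (v : ℕ) (_ : v ∈ Finset.range _) => z n v) (x g n)
    (Finset.mem_range.2 (Nat.lt_succ_of_le h2))

end SV
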