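import Pool.Agent.H79.SV.Defs
import Pool.Agent.H71.PM.Smu

/-!
# WITF: `Few` for finite sets of standard natural numbers in the quotients

As in `HM/Mul.lean` (`MulLe`): there is an injection `ι` of `(s.filter …) ×ˢ range k` into `s`; the finite set
`g = {⟨⟨x, l⟩, ι (x, l)⟩}` exists in `MU W`: write it as a name `BSet.mk` over the finite type of the pairs, with values `⊤` and names
`opr (opr x l) y`, and use `ball_app`, `app_mk` (`PM/Nms.lean`). Elements of `fnm s` are standard (`mem_fnm`, `E_fnm`), elements of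
`nn W j` are standard (`mem_nn`, `E_nn`), `nn_inj`, `isOPair_opr`, `isOPair_inj`.
-/

set_option autoImplicit false

namespace SV

open BV PK HM PM PSI

variable {B : Type} [CompleteBooleanAlgebra B]

/-- an injection between finite sets -/
theorem witf_inj {S : Finset (ℕ × ℕ)} {s : Finset ℕ} (h : S.card ≤ s.card) :
    ∃ ι : ℕ × ℕ → ℕ, (∀ z ∈ S, ι z ∈ s) ∧ ∀ z ∈ S, ∀ z' ∈ S, ι z = ι z' → z = z' := by
  classical
  have h1 : Fintype.card S ≤ Fintype.card s := by simpa using h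
  obtain ⟨e⟩ := Function.Embedding.nonempty_of_card_le h1
  refine ⟨fun z => if hz : z ∈ S then (e ⟨z, hz⟩ : ℕ) else 0, ?_, ?_⟩
  · intro z hz
    simp only [dif_pos hz]
    exact (e ⟨z, hz⟩).2
  · intro z hz z' hz' he
    simp only [dif_pos hz, dif_pos hz'] at he
    exact congrArg Subtype.val (e.injective (Subtype.ext he))

theorem few_fnm (W : UF B) (s : Finset ℕ) (i j k : ℕ)
    (h : (s.filter fun x => i ≤ x ∧ x < j).card * k ≤ s.card) :
    Few (MU.E W) (MU.mk W (fnm s)) (nn W i) (nn W j) (nn W k) := by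
  classical
  choose op hop using fun x y => mul_pair_exists W x y
  set S : Finset (ℕ × ℕ) := (s.filter fun x => i ≤ x ∧ x < j) ×ˢ Finset.range k with hS
  obtain ⟨ι, hι1, hι2⟩ := witf_inj (S := S) (s := s) (by
    rw [hS, Finset.card_product, Finset.card_range]
    exact h)
  let el : ℕ × ℕ → MU W := fun z => op (op (nn W z.1) (nn W z.2)) (nn W (ι z))
  obtain ⟨g, hg⟩ := mul_list W (S.toList.map el)
  have hg' : ∀ z, MU.E W z g ↔ ∃ x ∈ S, z = el x := by
    intro z
    rw [hg, List.mem_map]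
    constructor
    · rintro ⟨x, hx, rfl⟩
      exact ⟨x, Finset.mem_toList.1 hx, rfl⟩
    · rintro ⟨x, hx, rfl⟩
      exact ⟨x, Finset.mem_toList.2 hx, rfl⟩
  have happ : ∀ p y, App (MU.E W) g p y ↔ ∃ x ∈ S, p = op (nn W x.1) (nn W x.2) ∧
      y = nn W (ι x) := by
    intro p y
    constructor
    · rintro ⟨q, hq, hqg⟩
      obtain ⟨x, hx, rfl⟩ := (hg' q).1 hqg
      obtain ⟨h1, h2⟩ := isOPair_inj hq (hop _ _)
      exact ⟨x, hx, h1, h2⟩
    · rintro ⟨x, hx, rfl, rfl⟩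
      exact ⟨el x, hop _ _, (hg' _).2 ⟨x, hx, rfl⟩⟩
  have hopinj : ∀ {i j i' j' : ℕ}, op (nn W i) (nn W j) = op (nn W i') (nn W j') →
      i = i' ∧ j = j' := by
    intro i j i' j' he
    have h1 := hop (nn W i) (nn W j)
    rw [he] at h1
    obtain ⟨h2, h3⟩ := isOPair_inj h1 (hop (nn W i') (nn W j'))
    exact ⟨nn_inj W h2, nn_inj W h3⟩
  refine ⟨g, ?_, ?_, ?_⟩
  · intro x l p hx hi hj hl hp
    obtain ⟨x', hx', rfl⟩ := mem_fnm W s x hx
    obtain ⟨l', hl', rfl⟩ := mem_nn W k l hl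
    have hi' : i ≤ x' := by
      rcases hi with hi | hi
      · exact ((E_nn W i x').1 hi).le
      · exact (nn_inj W hi).le
    have hj' : x' < j := (E_nn W x' j).1 hj
    have hz : (x', l') ∈ S := by
      rw [hS, Finset.mem_product, Finset.mem_filter, Finset.mem_range]
      exact ⟨⟨hx', hi', hj'⟩, hl'⟩
    refine ⟨nn W (ι (x', l')), (E_fnm W s _).2 (hι1 _ hz), (happ _ _).2 ⟨(x', l'), hz, ?_, rfl⟩⟩
    exact isOPair_unique (MU.ext_E W) hp (hop _ _)
  · intro p y y' h1 h2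
    obtain ⟨x, hx, rfl, rfl⟩ := (happ _ _).1 h1
    obtain ⟨x', hx', h3, rfl⟩ := (happ _ _).1 h2
    obtain ⟨h4, h5⟩ := hopinj h3
    have h6 : x = x' := Prod.ext h4 h5
    rw [h6]
  · intro p p' y h1 h2
    obtain ⟨x, hx, rfl, rfl⟩ := (happ _ _).1 h1
    obtain ⟨x', hx', rfl, h3⟩ := (happ _ _).1 h2
    have h6 : x = x' := hι2 x hx x' hx' (nn_inj W h3)
    rw [h6]

end SV
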