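import Pool.Agent.H79.SV.Wit
import Pool.Agent.H79.SV.WitA
import Pool.Agent.H79.SV.WitF
import Pool.Agent.H79.SV.IsUB

/-!
# WITC: a flat witness gives flatness in the quotients

Let `S` be the witness, `S' g n = S g n` if this is nonempty and `{0}` otherwise, `X n = rnm (l ↦ bv e (l ∈ S' g n))`, `a = sqn X` (`isSeq_sqn`,
`app_sqn`). Below `e q`: for standard `n` one of `bv e (S' g n = s)` is in `V` (`bv_ex`, use `HV.sup`), and then `X n = fnm s` in `MU V` (extensionality
`MU.ext_E`, `ball_w`/`ball_mk`): a finite (`isFin_of_list`) nonempty real. Let `f`, `k` be given in `MU W`; by `ball_w` we may assume that `k` is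
standard; `f = mk f'`, `exists_fnn` gives the table `z`. Let `b` be the Boolean value of
`IsFn f → ∃ Z ∈ u, …` (for this `k`); we show `e q ≤ b` by `le_of_dense`: for `p ≤ q` let `p' ≤ p` and `f*` be from `bound`. Put
`φ g n = (max k 1 ≤ (S g n).card ∧ Fast f* (S g n))`, forced by `p'` (`h.mono`), and `Z = rnm (n ↦ bv e (φ g n))`, so `Z ∈ u` in all `MU V` with `e p' ∈ V`.
For standard `n ∈ Z` and `s` with `bv e (S' g n = s) ∈ V`: the statement `φ` holds for `s` (`bv_and`, `bv_disj`: the intersection is not `⊥`), so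
for `i`, `j = v ≤ f* i` standard (`j` is standard because `z i v ∈ V` for some `v ≤ f* i`: `V.exists_of_biSup_mem`) at most one
element of `s` is in `[i, v)` and `k ≤ card s`: `few_fnm`.
-/

set_option autoImplicit false

namespace SV

open Cond BV PK HM PM HD

variable {K : Type} {B : Type} [CompleteBooleanAlgebra B] {e : Cond K → B}

private theorem witc_val (he : DenseEmb (Cond K) B e) {q : Cond K} {S : Gen K → Finset ℕ}
    (hS : Ctn q S) (s : Finset ℕ) (V : UF B) (hV : e q ∈ V) (hs : bv e (fun g => S g = s) ∈ V)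
    (l : ℕ) : bv e (fun g => l ∈ S g) ∈ V ↔ l ∈ s := by
  constructor
  · intro h
    by_contra hl
    have h1 := V.inf_mem hs h
    rw [bv_disj he (φ := fun g => S g = s) (ψ := fun g => l ∈ S g)
      (fun g h2 h3 => hl (h2 ▸ h3))] at h1
    exact V.bot_notMem h1
  · intro hl
    refine bv_imp he (φ := fun g => S g = s) (hS.comp fun t => l ∈ t) ?_ V hV hs
    intro g _ h
    show l ∈ S g
    rw [h]
    exact hl

/-- finite sets: `X = fnm s` -/
theorem rnm_eq_fnm (he : DenseEmb (Cond K) B e) {q : Cond K} {S : Gen K → Finset ℕ}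
    (hS : Ctn q S) (s : Finset ℕ) (V : UF B) (hV : e q ∈ V) (hs : bv e (fun g => S g = s) ∈ V) :
    MU.mk V (rnm fun l => bv e fun g => l ∈ S g) = MU.mk V (fnm s) := by
  refine MU.ext_E V _ _ fun z => ?_
  constructor
  · intro hz
    refine ball_w (Q := fun V z => MU.E V z (MU.mk V (rnm fun l => bv e fun g => l ∈ S g)) →
      MU.E V z (MU.mk V (fnm s))) (fun z => (HV.mem z _).imp (HV.mem z _))
      (e q ⊓ bv e fun g => S g = s) ?_ V (V.inf_mem hV hs) z (isReal_rnm V _ z hz) hz
    intro V hV n hn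
    rw [UF.inf_mem_iff] at hV
    rw [E_fnm]
    rw [E_rnm] at hn
    exact (witc_val he hS s V hV.1 hV.2 n).1 hn
  · intro hz
    obtain ⟨k, hk, rfl⟩ := mem_fnm V s z hz
    rw [E_rnm]
    exact (witc_val he hS s V hV hs k).2 hk

private theorem witc_isFin (V : UF B) (s : Finset ℕ) : IsFin (MU.E V) (MU.mk V (fnm s)) := by
  refine isFin_of_list V _ (s.toList.map (nn V)) fun z => ?_
  rw [List.mem_map]
  constructor
  · intro hz
    obtain ⟨k, hk, rfl⟩ := mem_fnm V s z hz
    exact ⟨k, Finset.mem_toList.2 hk, rfl⟩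
  · rintro ⟨k, hk, rfl⟩
    rw [E_fnm]
    exact Finset.mem_toList.1 hk

/-- a monotone majorant -/
private theorem witc_major (f : ℕ → ℕ) : ∃ F : ℕ → ℕ, Monotone F ∧ ∀ n, f n ≤ F n := by
  refine ⟨fun n => ∑ m ∈ Finset.range (n + 1), f m, ?_, fun n => ?_⟩
  · intro a b hab
    exact Finset.sum_le_sum_of_subset (Finset.range_subset_range.2 (by omega))
  · exact Finset.single_le_sum (f := f) (fun _ _ => Nat.zero_le _) (Finset.mem_range.2 (by omega))

private theorem witc_card {F : ℕ → ℕ} (hF : Monotone F) {s : Finset ℕ} (hs : Fast F s) {i v k : ℕ}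
    (hv : v ≤ F i) (hk : k ≤ s.card) : (s.filter fun x => i ≤ x ∧ x < v).card * k ≤ s.card := by
  have h1 : (s.filter fun x => i ≤ x ∧ x < v).card ≤ 1 := by
    rw [Finset.card_le_one]
    intro a ha b hb
    rw [Finset.mem_filter] at ha hb
    by_contra hne
    rcases lt_or_gt_of_ne hne with h | h
    · have h2 := hs a ha.1 b hb.1 h
      have h3 := hF ha.2.1
      omega
    · have h2 := hs b hb.1 a ha.1 h
      have h3 := hF hb.2.1
      omega
  calc (s.filter fun x => i ≤ x ∧ x < v).card * k ≤ 1 * k := Nat.mul_le_mul_right k h1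
    _ ≤ s.card := by omega

theorem flat_of_wit (he : DenseEmb (Cond K) B e) {u : BSet B} {p₀ : Cond K}
    (h : IsU p₀ (FUof e u p₀)) {q : Cond K} (hq : FlatWit (FUof e u p₀) q) (W : UF B)
    (hW : e q ∈ W) : Flat (MU.E W) (om W) (MU.mk W u) := by
  classical
  obtain ⟨S, hS, hfk⟩ := hq
  set nz : Finset ℕ → Finset ℕ := fun s => if s.Nonempty then s else {0} with hnz
  have hnz1 : ∀ s, (nz s).Nonempty := by
    intro s
    simp only [hnz]
    split_ifs with h1
    · exact h1
    · exact Finset.singleton_nonempty 0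
  have hnz2 : ∀ s : Finset ℕ, s.Nonempty → nz s = s := fun s h1 => by simp only [hnz, if_pos h1]
  have hS' : Nm q fun g n => nz (S g n) := fun m => (hS m).comp nz
  set X : ℕ → BSet B := fun n => rnm fun l => bv e fun g => l ∈ nz (S g n) with hX
  have hXs : ∀ (n : ℕ) (s : Finset ℕ) (V : UF B), e q ∈ V → bv e (fun g => nz (S g n) = s) ∈ V →
      MU.mk V (X n) = MU.mk V (fnm s) := fun n s V hV hs => rnm_eq_fnm he (hS' n) s V hV hs
  refine ⟨MU.mk W (sqn X), isSeq_sqn X W, ?_, ?_⟩
  · intro n A hn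
    refine ball_w (Q := fun V n => ∀ A, App (MU.E V) (MU.mk V (sqn X)) n A →
      IsReal (MU.E V) (om V) A ∧ IsFin (MU.E V) A ∧ ∃ x, MU.E V x A) (fun n => HV.all fun A =>
        (hv_app _ n A).imp ((hv_isReal A).and ((hv_isFin A).and (HV.ex fun x => HV.mem x A))))
      (e q) ?_ W hW n hn A
    intro V hV n A hA
    rw [app_sqn] at hA
    subst hA
    refine ⟨isReal_rnm V _, ?_⟩
    have hval : HV fun V : UF B => IsFin (MU.E V) (MU.mk V (X n)) ∧ ∃ x, MU.E V x (MU.mk V (X n)) :=
      (hv_isFin (X n)).and (HV.ex fun x => HV.mem x (X n))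
    refine hval.sup (fun s : Finset ℕ => bv e fun g => nz (S g n) = s) (e q) ?_ V hV
      (V.mem_of_le hV (bv_ex he (hS' n)))
    intro s V hV hs
    rw [hXs n s V hV hs]
    refine ⟨witc_isFin V s, ?_⟩
    have hne : s.Nonempty := by
      by_contra hne
      have h1 := V.inf_mem hs hs
      rw [bv_disj he (φ := fun g => nz (S g n) = s) (ψ := fun g => nz (S g n) = s)
        (fun g h2 _ => hne (h2 ▸ hnz1 (S g n)))] at h1
      exact V.bot_notMem h1
    obtain ⟨x, hx⟩ := hne
    exact ⟨nn V x, (E_fnm V s x).2 hx⟩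
  · intro f hf k hk
    obtain ⟨f, rfl⟩ := MU.mk_surj W f
    have hQ : ∀ k : BSet B, HV fun V : UF B => IsFn (MU.E V) (om V) (MU.mk V f) →
        ∃ Z, MU.E V Z (MU.mk V u) ∧ ∀ n, MU.E V n Z → ∀ A, App (MU.E V) (MU.mk V (sqn X)) n A →
          ∀ i j, MU.E V i (om V) → App (MU.E V) (MU.mk V f) i j → Few (MU.E V) A i j (MU.mk V k) := by
      intro k
      exact (hv_isFn f).imp (HV.ex fun Z => (HV.mem Z u).and (HV.all fun n => (HV.mem n Z).imp
        (HV.all fun A => (hv_app _ n A).imp (HV.all fun i => HV.all fun j => (hv_om i).imp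
          ((hv_app f i j).imp (hv_few A i j k))))))
    refine ball_w (Q := fun V k => IsFn (MU.E V) (om V) (MU.mk V f) →
        ∃ Z, MU.E V Z (MU.mk V u) ∧ ∀ n, MU.E V n Z → ∀ A, App (MU.E V) (MU.mk V (sqn X)) n A →
          ∀ i j, MU.E V i (om V) → App (MU.E V) (MU.mk V f) i j → Few (MU.E V) A i j k)
      hQ (e q) ?_ W hW k hk hf
    clear hf hk k
    intro V₀ hV₀ k
    obtain ⟨c, hc⟩ := hQ (chk B (k : Ordinal.{0}))
    refine (hc V₀).1 (V₀.mem_of_le hV₀ (le_of_dense he fun p hp => ?_))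
    obtain ⟨z, hz, hzf⟩ := exists_fnn f
    obtain ⟨p', hp', fs, hfs⟩ := bound he (p := p) hz
    obtain ⟨F, hF, hfF⟩ := witc_major fs
    refine ⟨p', hp', UF.le_of_forall fun V hV => (hc V).2 fun hfn => ?_⟩
    have hq' : p' ≤ q := hp'.trans hp
    have hFU := h.mono _ _ _ hq' (hfk F (max k 1))
    refine ⟨MU.mk V (rnm fun n => bv e fun g => max k 1 ≤ (S g n).card ∧ Fast F (S g n)),
      V.mem_of_le hV hFU.2.2, fun n hn => ?_⟩
    obtain ⟨bF, hbF⟩ := hv_isFn f
    have hval : ∀ A i j : BSet B, HV fun V : UF B => Few (MU.E V) (MU.mk V A) (MU.mk V i) (MU.mk V j)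
        (nn V k) := fun A i j => hv_few A i j (chk B (k : Ordinal.{0}))
    refine ball_w (Q := fun V n => MU.E V n (MU.mk V (rnm fun n => bv e fun g =>
        max k 1 ≤ (S g n).card ∧ Fast F (S g n))) → ∀ A, App (MU.E V) (MU.mk V (sqn X)) n A →
          ∀ i j, MU.E V i (om V) → App (MU.E V) (MU.mk V f) i j → Few (MU.E V) A i j (nn V k))
      (fun n => (HV.mem n _).imp (HV.all fun A => (hv_app _ n A).imp (HV.all fun i => HV.all fun j =>
        (hv_om i).imp ((hv_app f i j).imp (hval A i j))))) (e p' ⊓ bF) ?_ V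
      (V.inf_mem hV ((hbF V).2 hfn)) n (isReal_rnm V _ n hn) hn
    clear hn n hfn hV V hFU
    intro V hV n hn A hA
    rw [app_sqn] at hA
    subst hA
    rw [E_rnm] at hn
    have hval2 : HV fun V : UF B => ∀ i j, MU.E V i (om V) → App (MU.E V) (MU.mk V f) i j →
        Few (MU.E V) (MU.mk V (X n)) i j (nn V k) := HV.all fun i => HV.all fun j =>
          (hv_om i).imp ((hv_app f i j).imp (hval (X n) i j))
    refine hval2.sup (fun s : Finset ℕ => bv e fun g => nz (S g n) = s)
      ((e p' ⊓ bF) ⊓ bv e fun g => max k 1 ≤ (S g n).card ∧ Fast F (S g n)) ?_ V (V.inf_mem hV hn)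
      (V.mem_of_le (V.mem_of_le (V.inf_mem_iff.1 hV).1 (he.mono _ _ hq')) (bv_ex he (hS' n)))
    clear hn hV V
    intro s V hV hs
    have hφ := (V.inf_mem_iff.1 hV).2
    -- the set `s`
    have hsF : max k 1 ≤ s.card ∧ Fast F s := by
      by_contra hcon
      have h1 := V.inf_mem hφ hs
      rw [bv_disj he (φ := fun g => max k 1 ≤ (S g n).card ∧ Fast F (S g n))
        (ψ := fun g => nz (S g n) = s) (fun g h2 h3 => by
          have h4 : (S g n).Nonempty := Finset.card_pos.1 (by omega)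
          rw [hnz2 _ h4] at h3
          rw [h3] at h2
          exact hcon h2)] at h1
      exact V.bot_notMem h1
    intro i j hi
    refine ball_w (Q := fun V i => ∀ j, App (MU.E V) (MU.mk V f) i j →
        Few (MU.E V) (MU.mk V (X n)) i j (nn V k)) (fun i => HV.all fun j => (hv_app f i j).imp
          (hval (X n) i j)) ((e p' ⊓ bF) ⊓ bv e fun g => nz (S g n) = s) ?_ V
      (V.inf_mem (V.inf_mem_iff.1 hV).1 hs) i hi j
    clear hi i j hφ hs hV V
    intro V hV i j hj
    rw [UF.inf_mem_iff, UF.inf_mem_iff] at hV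
    obtain ⟨⟨hV1, hV2⟩, hs⟩ := hV
    have hfn := (hbF V).1 hV2
    obtain ⟨v, hv, hvz⟩ := V.exists_of_biSup_mem _ (V.mem_of_le hV1 (hfs i))
    rw [Finset.mem_range] at hv
    obtain ⟨k0, -, -, huniq⟩ := hfn (nn V i) (E_nn_om V i)
    have hjv : j = nn V v := (huniq j hj).trans (huniq _ (hzf V hfn i v hvz)).symm
    rw [hjv, hXs n s V (V.mem_of_le hV1 (he.mono _ _ hq')) hs]
    refine few_fnm V s i v k (witc_card hF hsF.2 ?_ ?_)
    · have := hfF i
      omega
    · have := hsF.1
      omega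

end SV
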