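import Pool.Agent.H79.SV.Core
import Pool.Agent.H79.SV.WitC
import Pool.Agent.H26.BV.Zfc

/-!
# BMAIN: the model
-/

set_option autoImplicit false

namespace SV

open Cond BV PK HM PM Cardinal

theorem exists_model : ∃ (M : Type 1) (E : M → M → Prop), IsZFC E ∧ AllFlat E := by
  set K : Type := Set (Set (Set ℕ)) with hKdef
  have hK : 2 ^ continuum.{0} < #K := by
    rw [hKdef, mk_set, mk_set, mk_set, mk_nat, two_power_aleph0]
    exact cantor _
  obtain ⟨B, iB, e, he⟩ := exists_denseEmb (Cond K)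
  have hB : Nontrivial B := ⟨⟨e Cond.top, ⊥, he.ne_bot _⟩⟩
  obtain ⟨W, -⟩ := UF.exists_mem (B := B) (a := ⊤) top_ne_bot
  refine ⟨MU W, MU.E W, isZFC W, om W, isOmega_om W, fun u hu => ?_⟩
  obtain ⟨u, rfl⟩ := MU.mk_surj W u
  obtain ⟨b, hb⟩ := hv_isFreeUlt u
  obtain ⟨c, hc⟩ := hv_flat u
  have hbc : b ≤ c := by
    by_contra hcon
    have h1 : b ⊓ cᶜ ≠ ⊥ := fun h0 => hcon (by rwa [← sdiff_eq, sdiff_eq_bot_iff] at h0)
    obtain ⟨p₀, hp₀⟩ := he.dense _ h1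
    have hU : IsU p₀ (FUof e u p₀) := isU_of he fun V hV =>
      (hb V).1 (V.mem_of_le hV (hp₀.trans inf_le_left))
    obtain ⟨q, hq, hwit⟩ := core hK hU
    obtain ⟨V, hV⟩ := UF.exists_mem (he.ne_bot q)
    have h2 : c ∈ V := (hc V).2 (flat_of_wit he hU hwit V hV)
    have h3 : cᶜ ∈ V := V.mem_of_le hV (((he.mono q p₀ hq).trans hp₀).trans inf_le_right)
    exact V.compl_mem_iff.1 h3 h2
  exact (hc W).1 (W.mem_of_le ((hb W).2 hu) hbc)

end SV
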