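import Mathlib

/-!
# Countable support product of Silver forcings: conditions, total functions, names

`K` is the set of coordinates (columns), a place is a pair `(a, n) : K × ℕ`. `Gen K = K → ℕ → Bool` are the
total functions; `p.pts` is the set of the total functions extending the condition `p`.
A name is a function `X` on `Gen K`; `Ctn p X` says that it is continuous on `p.pts` (locally constant),
`Nm p x` (`x : Gen K → ℕ → α`) that all `x · m` are continuous on `p.pts`, `Dep A X` that `X g` depends
only on the columns of `g` in `A`.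
-/

set_option autoImplicit false

namespace SV

variable {K : Type}

/-- total functions -/
abbrev Gen (K : Type) := K → ℕ → Bool

/-- conditions: partial functions from the places to `Bool`, only countably many columns are nonempty, in all
columns infinitely many places are free -/
structure Cond (K : Type) where
  val : K → ℕ → Option Bool
  supp : {a | ∃ n, val a n ≠ none}.Countable
  inf : ∀ a, {n | val a n = none}.Infinite

namespace Cond

theorem ext' {p q : Cond K} (h : ∀ a n, p.val a n = q.val a n) : p = q := by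
  obtain ⟨v, h1, h2⟩ := p
  obtain ⟨w, h3, h4⟩ := q
  have : v = w := by
    funext a n
    exact h a n
  subst this
  rfl

instance : PartialOrder (Cond K) where
  le q p := ∀ a n v, p.val a n = some v → q.val a n = some v
  le_refl p a n v h := h
  le_trans r q p h1 h2 a n v h := h1 a n v (h2 a n v h)
  le_antisymm q p h1 h2 := by
    apply ext'
    intro a n
    cases hp : p.val a n with
    | some v => exact h1 a n v hp
    | none =>
      cases hq : q.val a n with
      | none => rfl
      | some v => rw [h2 a n v hq] at hp; exact absurd hp (by simp)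

theorem le_def {p q : Cond K} : q ≤ p ↔ ∀ a n v, p.val a n = some v → q.val a n = some v := Iff.rfl

/-- the empty condition -/
def top : Cond K where
  val _ _ := none
  supp := by simp
  inf a := by simpa using Set.infinite_univ

/-- total functions extending `p` -/
def pts (p : Cond K) : Set (Gen K) := {g | ∀ a n v, p.val a n = some v → g a n = v}

theorem pts_mono {p q : Cond K} (h : q ≤ p) : q.pts ⊆ p.pts :=
  fun _ hg a n v hv => hg a n v (h a n v hv)

/-- override `g` by `p` -/
def fill (p : Cond K) (g : Gen K) : Gen K := fun a n => (p.val a n).getD (g a n)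

theorem fill_mem (p : Cond K) (g : Gen K) : p.fill g ∈ p.pts := by
  intro a n v h
  simp [fill, h]

theorem fill_of_none {p : Cond K} {g : Gen K} {a : K} {n : ℕ} (h : p.val a n = none) :
    p.fill g a n = g a n := by simp [fill, h]

theorem fill_of_mem {p : Cond K} {g : Gen K} (h : g ∈ p.pts) : p.fill g = g := by
  funext a n
  cases hv : p.val a n with
  | none => exact fill_of_none hv
  | some v => rw [fill_mem p g a n v hv, h a n v hv]

theorem pts_nonempty (p : Cond K) : p.pts.Nonempty := ⟨_, p.fill_mem fun _ _ => false⟩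

/-- the places of `F` are free in `p` -/
def fr (p : Cond K) (F : Finset (K × ℕ)) : Prop := ∀ z ∈ F, p.val z.1 z.2 = none

theorem fr_empty (p : Cond K) : p.fr ∅ := by simp [fr]

theorem fr.mono {p : Cond K} {F F' : Finset (K × ℕ)} (h : p.fr F) (h' : F' ⊆ F) : p.fr F' :=
  fun z hz => h z (h' hz)

theorem fr.of_le {p q : Cond K} {F : Finset (K × ℕ)} (h : q ≤ p) (hq : q.fr F) : p.fr F := by
  intro z hz
  cases hv : p.val z.1 z.2 with
  | none => rfl
  | some v => rw [← hq z hz, h _ _ _ hv]

open Classical in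
/-- `p` extended by the values of `g` at the places of `F` -/
noncomputable def add (p : Cond K) (F : Finset (K × ℕ)) (g : Gen K) : Cond K where
  val a n := if p.val a n = none ∧ (a, n) ∈ F then some (g a n) else p.val a n
  supp := by
    refine (p.supp.union ((F.image Prod.fst).countable_toSet)).mono ?_
    rintro a ⟨n, hn⟩
    by_cases h : p.val a n = none ∧ (a, n) ∈ F
    · right
      simp only [Finset.coe_image, Set.mem_image, Finset.mem_coe]
      exact ⟨(a, n), h.2, rfl⟩
    · rw [if_neg h] at hn
      exact Or.inl ⟨n, hn⟩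
  inf a := by
    have h1 : ((F.image Prod.snd : Finset ℕ) : Set ℕ).Finite := Finset.finite_toSet _
    refine ((p.inf a).sdiff h1).mono ?_
    rintro n ⟨hn, hn'⟩
    have h2 : ¬ (p.val a n = none ∧ (a, n) ∈ F) := by
      rintro ⟨-, h⟩
      apply hn'
      simp only [Finset.coe_image, Set.mem_image, Finset.mem_coe]
      exact ⟨(a, n), h, rfl⟩
    show (if p.val a n = none ∧ (a, n) ∈ F then some (g a n) else p.val a n) = none
    rw [if_neg h2]
    exact hn

theorem add_val_of_not {p : Cond K} {F : Finset (K × ℕ)} {g : Gen K} {a : K} {n : ℕ}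
    (h : ¬ (p.val a n = none ∧ (a, n) ∈ F)) : (p.add F g).val a n = p.val a n := by
  unfold add
  exact if_neg h

theorem add_val_of {p : Cond K} {F : Finset (K × ℕ)} {g : Gen K} {a : K} {n : ℕ}
    (h : p.val a n = none) (h' : (a, n) ∈ F) : (p.add F g).val a n = some (g a n) := by
  unfold add
  exact if_pos ⟨h, h'⟩

theorem add_le (p : Cond K) (F : Finset (K × ℕ)) (g : Gen K) : p.add F g ≤ p := by
  intro a n v h
  rw [add_val_of_not]
  · exact h
  · rintro ⟨h1, -⟩
    rw [h1] at h
    exact absurd h (by simp)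

theorem mem_pts_add {p : Cond K} {F : Finset (K × ℕ)} {g g' : Gen K} : g' ∈ (p.add F g).pts ↔
    g' ∈ p.pts ∧ ∀ z ∈ F, p.val z.1 z.2 = none → g' z.1 z.2 = g z.1 z.2 := by
  constructor
  · intro h
    refine ⟨pts_mono (add_le p F g) h, fun z hz hn => ?_⟩
    exact h z.1 z.2 _ (add_val_of hn hz)
  · rintro ⟨h1, h2⟩ a n v hv
    by_cases h : p.val a n = none ∧ (a, n) ∈ F
    · rw [add_val_of h.1 h.2] at hv
      rw [h2 (a, n) h.2 h.1]
      exact Option.some.inj hv
    · rw [add_val_of_not h] at hv
      exact h1 a n v hv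

theorem self_mem_add {p : Cond K} {F : Finset (K × ℕ)} {g : Gen K} (h : g ∈ p.pts) :
    g ∈ (p.add F g).pts := mem_pts_add.2 ⟨h, fun _ _ _ => rfl⟩

/-- the general monotonicity of `add` -/
theorem add_le_add {p q : Cond K} {F : Finset (K × ℕ)} {g : Gen K} (h : q ≤ p)
    (hF : ∀ z ∈ F, p.val z.1 z.2 = none → q.val z.1 z.2 = none ∨ q.val z.1 z.2 = some (g z.1 z.2)) :
    q.add F g ≤ p.add F g := by
  intro a n v hv
  by_cases h1 : p.val a n = none ∧ (a, n) ∈ F
  · rw [add_val_of h1.1 h1.2] at hv
    rcases hF (a, n) h1.2 h1.1 with h2 | h2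
    · rw [add_val_of h2 h1.2, hv]
    · rw [add_val_of_not, h2, hv]
      rintro ⟨h3, -⟩
      rw [h3] at h2
      exact absurd h2 (by simp)
  · rw [add_val_of_not h1] at hv
    exact add_le q F g a n v (h a n v hv)

theorem add_le_add_fr {p q : Cond K} {F : Finset (K × ℕ)} (g : Gen K) (h : q ≤ p) (hF : q.fr F) :
    q.add F g ≤ p.add F g := add_le_add h fun z hz _ => Or.inl (hF z hz)

theorem add_le_add_pts {p q : Cond K} {F : Finset (K × ℕ)} {g : Gen K} (h : q ≤ p)
    (hg : g ∈ q.pts) : q.add F g ≤ p.add F g := by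
  refine add_le_add h fun z _ _ => ?_
  cases hv : q.val z.1 z.2 with
  | none => exact Or.inl rfl
  | some v => exact Or.inr (by rw [hg _ _ _ hv])

theorem add_congr {p : Cond K} {F : Finset (K × ℕ)} {g g' : Gen K}
    (h : ∀ z ∈ F, g z.1 z.2 = g' z.1 z.2) : p.add F g = p.add F g' := by
  apply ext'
  intro a n
  by_cases h1 : p.val a n = none ∧ (a, n) ∈ F
  · rw [add_val_of h1.1 h1.2, add_val_of h1.1 h1.2, h (a, n) h1.2]
  · rw [add_val_of_not h1, add_val_of_not h1]

theorem add_mono {p : Cond K} {F F' : Finset (K × ℕ)} (g : Gen K) (h : F ⊆ F') :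
    p.add F' g ≤ p.add F g := by
  intro a n v hv
  by_cases h1 : p.val a n = none ∧ (a, n) ∈ F
  · rw [add_val_of h1.1 h1.2] at hv
    rw [add_val_of h1.1 (h h1.2), hv]
  · rw [add_val_of_not h1] at hv
    exact add_le p F' g a n v hv

/-- if `q ≤ p` and `q` extends the values of `g` at the places of `F`, then `q ≤ p.add F g` -/
theorem le_add {p q : Cond K} {F : Finset (K × ℕ)} {g : Gen K} (h : q ≤ p)
    (hF : ∀ z ∈ F, p.val z.1 z.2 = none → q.val z.1 z.2 = some (g z.1 z.2)) : q ≤ p.add F g := by
  intro a n v hv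
  by_cases h1 : p.val a n = none ∧ (a, n) ∈ F
  · rw [add_val_of h1.1 h1.2] at hv
    rw [hF (a, n) h1.2 h1.1, hv]
  · rw [add_val_of_not h1] at hv
    exact h a n v hv

/-- `q` is an extension of `p` in which the places of `F` are free -/
def Ext (F : Finset (K × ℕ)) (q p : Cond K) : Prop := q ≤ p ∧ q.fr F

theorem Ext.trans {F F' : Finset (K × ℕ)} {r q p : Cond K} (h : Ext F' r q) (h' : Ext F q p)
    (hF : F ⊆ F') : Ext F r p := ⟨h.1.trans h'.1, h.2.mono hF⟩

theorem Ext.rfl' {F : Finset (K × ℕ)} {p : Cond K} (h : p.fr F) : Ext F p p := ⟨le_rfl, h⟩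

open Classical in
/-- free the places of `F` -/
noncomputable def unset (p : Cond K) (F : Finset (K × ℕ)) : Cond K where
  val a n := if (a, n) ∈ F then none else p.val a n
  supp := by
    refine p.supp.mono ?_
    rintro a ⟨n, hn⟩
    by_cases h : (a, n) ∈ F
    · rw [if_pos h] at hn
      exact absurd rfl hn
    · rw [if_neg h] at hn
      exact ⟨n, hn⟩
  inf a := by
    refine (p.inf a).mono ?_
    intro n hn
    show (if (a, n) ∈ F then none else p.val a n) = none
    split_ifs
    · rfl
    · exact hn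

theorem unset_val_of {p : Cond K} {F : Finset (K × ℕ)} {a : K} {n : ℕ} (h : (a, n) ∈ F) :
    (p.unset F).val a n = none := by
  unfold unset
  exact if_pos h

theorem unset_val_of_not {p : Cond K} {F : Finset (K × ℕ)} {a : K} {n : ℕ} (h : (a, n) ∉ F) :
    (p.unset F).val a n = p.val a n := by
  unfold unset
  exact if_neg h

theorem unset_fr (p : Cond K) (F : Finset (K × ℕ)) : (p.unset F).fr F :=
  fun _ hz => unset_val_of hz

theorem le_unset (p : Cond K) (F : Finset (K × ℕ)) : p ≤ p.unset F := by
  intro a n v hv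
  by_cases h : (a, n) ∈ F
  · rw [unset_val_of h] at hv
    exact absurd hv (by simp)
  · rw [unset_val_of_not h] at hv
    exact hv

/-- a condition `r ≤ p.add F g` is (below) an extension of `p` in which `F` is free, plus the values of `g` -/
theorem unset_ext {p r : Cond K} {F : Finset (K × ℕ)} {g : Gen K} (hp : p.fr F)
    (h : r ≤ p.add F g) : Ext F (r.unset F) p ∧ (r.unset F).add F g ≤ r := by
  refine ⟨⟨?_, unset_fr r F⟩, ?_⟩
  · intro a n v hv
    by_cases h1 : (a, n) ∈ F
    · rw [hp (a, n) h1] at hv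
      exact absurd hv (by simp)
    · rw [unset_val_of_not h1]
      exact h a n v (add_le p F g a n v hv)
  · intro a n v hv
    by_cases h1 : (a, n) ∈ F
    · rw [add_val_of (unset_val_of h1) h1]
      rw [h a n _ (add_val_of (hp (a, n) h1) h1)] at hv
      exact hv
    · exact add_le _ F g a n v (by rw [unset_val_of_not h1]; exact hv)

/-! ## Restriction -/

open Classical in
/-- restriction to the columns in `A` -/
noncomputable def res (p : Cond K) (A : Set K) : Cond K where
  val a n := if a ∈ A then p.val a n else none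
  supp := by
    refine p.supp.mono ?_
    rintro a ⟨n, hn⟩
    by_cases h : a ∈ A
    · rw [if_pos h] at hn
      exact ⟨n, hn⟩
    · rw [if_neg h] at hn
      exact absurd rfl hn
  inf a := by
    refine (p.inf a).mono ?_
    intro n hn
    show (if a ∈ A then p.val a n else none) = none
    split_ifs
    · exact hn
    · rfl

theorem res_val_of {p : Cond K} {A : Set K} {a : K} (n : ℕ) (h : a ∈ A) :
    (p.res A).val a n = p.val a n := by
  unfold res
  exact if_pos h

theorem res_val_of_not {p : Cond K} {A : Set K} {a : K} (n : ℕ) (h : a ∉ A) :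
    (p.res A).val a n = none := by
  unfold res
  exact if_neg h

theorem le_res (p : Cond K) (A : Set K) : p ≤ p.res A := by
  intro a n v hv
  by_cases h : a ∈ A
  · rwa [res_val_of n h] at hv
  · rw [res_val_of_not n h] at hv
    exact absurd hv (by simp)

theorem res_mono {p q : Cond K} (A : Set K) (h : q ≤ p) : q.res A ≤ p.res A := by
  intro a n v hv
  by_cases h1 : a ∈ A
  · rw [res_val_of n h1] at hv ⊢
    exact h a n v hv
  · rw [res_val_of_not n h1] at hv
    exact absurd hv (by simp)

theorem mem_pts_res {p : Cond K} {A : Set K} {g : Gen K} :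
    g ∈ (p.res A).pts ↔ ∀ a ∈ A, ∀ n v, p.val a n = some v → g a n = v := by
  constructor
  · intro h a ha n v hv
    exact h a n v (by rw [res_val_of n ha]; exact hv)
  · intro h a n v hv
    by_cases h1 : a ∈ A
    · rw [res_val_of n h1] at hv
      exact h a h1 n v hv
    · rw [res_val_of_not n h1] at hv
      exact absurd hv (by simp)

/-- the condition `p` is empty outside of the columns in `A` -/
def On (p : Cond K) (A : Set K) : Prop := ∀ a, a ∉ A → ∀ n, p.val a n = none

theorem res_on (p : Cond K) (A : Set K) : (p.res A).On A := fun _ h n => res_val_of_not n h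

theorem On.res_eq {p : Cond K} {A : Set K} (h : p.On A) : p.res A = p := by
  apply ext'
  intro a n
  by_cases h1 : a ∈ A
  · exact res_val_of n h1
  · rw [res_val_of_not n h1, h a h1 n]

theorem On.res_le {p q : Cond K} {A : Set K} (h : p.On A) (hq : q ≤ p) : q.res A ≤ p := by
  have := res_mono A hq
  rwa [h.res_eq] at this

theorem On.mono {p : Cond K} {A A' : Set K} (h : p.On A) (hA : A ⊆ A') : p.On A' :=
  fun a ha n => h a (fun h' => ha (hA h')) n

theorem res_res (p : Cond K) (A : Set K) : (p.res A).res A = p.res A := (res_on p A).res_eq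

open Classical in
/-- the condition which is `q` on the columns in `A` and `p` on the other columns -/
noncomputable def glue (A : Set K) (q p : Cond K) : Cond K where
  val a n := if a ∈ A then q.val a n else p.val a n
  supp := by
    refine (q.supp.union p.supp).mono ?_
    rintro a ⟨n, hn⟩
    by_cases h : a ∈ A
    · rw [if_pos h] at hn
      exact Or.inl ⟨n, hn⟩
    · rw [if_neg h] at hn
      exact Or.inr ⟨n, hn⟩
  inf a := by
    by_cases h : a ∈ A
    · simpa only [if_pos h] using q.inf a
    · simpa only [if_neg h] using p.inf a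

theorem glue_val_of {A : Set K} {q p : Cond K} {a : K} (n : ℕ) (h : a ∈ A) :
    (glue A q p).val a n = q.val a n := by
  unfold glue
  exact if_pos h

theorem glue_val_of_not {A : Set K} {q p : Cond K} {a : K} (n : ℕ) (h : a ∉ A) :
    (glue A q p).val a n = p.val a n := by
  unfold glue
  exact if_neg h

theorem glue_le_right {A : Set K} {q p : Cond K} (h : q ≤ p.res A) : glue A q p ≤ p := by
  intro a n v hv
  by_cases h1 : a ∈ A
  · rw [glue_val_of n h1]
    exact h a n v (by rw [res_val_of n h1]; exact hv)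
  · rw [glue_val_of_not n h1]
    exact hv

theorem glue_le_left {A : Set K} {q p : Cond K} (h : q.On A) : glue A q p ≤ q := by
  intro a n v hv
  by_cases h1 : a ∈ A
  · rw [glue_val_of n h1]
    exact hv
  · rw [h a h1 n] at hv
    exact absurd hv (by simp)

end Cond

open Cond

/-! ## Names -/

/-- `X g` depends only on the columns of `g` in `A` -/
def Dep {α : Sort*} (A : Set K) (X : Gen K → α) : Prop :=
  ∀ g g' : Gen K, (∀ a ∈ A, g a = g' a) → X g = X g'

theorem Dep.mono {α : Sort*} {A A' : Set K} {X : Gen K → α} (h : Dep A X) (hA : A ⊆ A') :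
    Dep A' X := fun g g' hg => h g g' fun a ha => hg a (hA ha)

/-- `X` is continuous (locally constant) on `p.pts` -/
def Ctn {α : Sort*} (p : Cond K) (X : Gen K → α) : Prop :=
  ∀ g ∈ p.pts, ∃ F : Finset (K × ℕ), ∀ g' ∈ p.pts, (∀ z ∈ F, g' z.1 z.2 = g z.1 z.2) → X g' = X g

/-- `x` is a name of a sequence below `p` -/
def Nm {α : Sort*} (p : Cond K) (x : Gen K → ℕ → α) : Prop := ∀ m, Ctn p fun g => x g m

theorem Ctn.mono {α : Sort*} {p q : Cond K} {X : Gen K → α} (h : Ctn p X) (hq : q ≤ p) :
    Ctn q X := by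
  intro g hg
  obtain ⟨F, hF⟩ := h g (pts_mono hq hg)
  exact ⟨F, fun g' hg' => hF g' (pts_mono hq hg')⟩

theorem Nm.mono {α : Sort*} {p q : Cond K} {x : Gen K → ℕ → α} (h : Nm p x) (hq : q ≤ p) :
    Nm q x := fun m => (h m).mono hq

theorem Ctn.congr {α : Sort*} {p : Cond K} {X Y : Gen K → α} (h : Ctn p X)
    (hXY : ∀ g ∈ p.pts, Y g = X g) : Ctn p Y := by
  intro g hg
  obtain ⟨F, hF⟩ := h g hg
  exact ⟨F, fun g' hg' h' => by rw [hXY g' hg', hXY g hg, hF g' hg' h']⟩

theorem Nm.congr {α : Sort*} {p : Cond K} {x y : Gen K → ℕ → α} (h : Nm p x)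
    (hxy : ∀ g ∈ p.pts, ∀ m, y g m = x g m) : Nm p y := fun m => (h m).congr fun g hg => hxy g hg m

theorem Ctn.const {α : Sort*} {p : Cond K} (c : α) : Ctn p fun _ : Gen K => c :=
  fun _ _ => ⟨∅, fun _ _ _ => rfl⟩

theorem Ctn.of_fin {α : Sort*} {p : Cond K} {X : Gen K → α} (F : Finset (K × ℕ))
    (h : ∀ g g' : Gen K, (∀ z ∈ F, g' z.1 z.2 = g z.1 z.2) → X g' = X g) : Ctn p X :=
  fun g _ => ⟨F, fun g' _ h' => h g g' h'⟩

theorem Ctn.eval {p : Cond K} (a : K) (n : ℕ) : Ctn p fun g : Gen K => g a n :=
  Ctn.of_fin {(a, n)} fun g g' h => h (a, n) (by simp)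

theorem Ctn.comp {α β : Sort*} {p : Cond K} {X : Gen K → α} (h : Ctn p X) (f : α → β) :
    Ctn p fun g => f (X g) := by
  intro g hg
  obtain ⟨F, hF⟩ := h g hg
  exact ⟨F, fun g' hg' h' => congrArg f (hF g' hg' h')⟩

open Classical in
/-- the value of a name at a continuous index -/
theorem Ctn.bind {ι : Sort*} {α : Sort*} {p : Cond K} {N : Gen K → ι} {X : ι → Gen K → α}
    (hN : Ctn p N) (hX : ∀ i, Ctn p (X i)) : Ctn p fun g => X (N g) g := by
  intro g hg
  obtain ⟨F, hF⟩ := hN g hg
  obtain ⟨F', hF'⟩ := hX (N g) g hg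
  refine ⟨F ∪ F', fun g' hg' h' => ?_⟩
  have h1 : N g' = N g := hF g' hg' fun z hz => h' z (Finset.mem_union_left _ hz)
  show X (N g') g' = X (N g) g
  rw [h1]
  exact hF' g' hg' fun z hz => h' z (Finset.mem_union_right _ hz)

theorem Ctn.comp₂ {α β γ : Sort*} {p : Cond K} {X : Gen K → α} {Y : Gen K → β} (hX : Ctn p X)
    (hY : Ctn p Y) (f : α → β → γ) : Ctn p fun g => f (X g) (Y g) :=
  Ctn.bind (N := X) (X := fun a g => f a (Y g)) hX fun a => hY.comp (f a)

theorem Ctn.comp₃ {α β γ δ : Sort*} {p : Cond K} {X : Gen K → α} {Y : Gen K → β} {Z : Gen K → γ}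
    (hX : Ctn p X) (hY : Ctn p Y) (hZ : Ctn p Z) (f : α → β → γ → δ) :
    Ctn p fun g => f (X g) (Y g) (Z g) :=
  Ctn.bind (N := X) (X := fun a g => f a (Y g) (Z g)) hX fun a => hY.comp₂ hZ (f a)

open Classical in
/-- a function of finitely many names -/
theorem Ctn.fin {ι α β : Type*} {p : Cond K} {Y : ι → Gen K → β} (hY : ∀ i, Ctn p (Y i))
    (s : Finset ι) (f : (ι → β) → α) (hf : ∀ u v : ι → β, (∀ i ∈ s, u i = v i) → f u = f v) :
    Ctn p fun g => f fun i => Y i g := by
  intro g hg
  choose F hF using fun i => hY i g hg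
  refine ⟨s.biUnion F, fun g' hg' h' => hf _ _ fun i hi => ?_⟩
  exact hF i g' hg' fun z hz => h' z (Finset.mem_biUnion.2 ⟨i, hi, hz⟩)

/-- a function of the first `N g` members of a sequence of names -/
theorem Ctn.upto {α : Sort*} {β : Type*} {p : Cond K} {N : Gen K → ℕ} {Y : ℕ → Gen K → β}
    (hN : Ctn p N) (hY : ∀ i, Ctn p (Y i)) (f : ℕ → (ℕ → β) → α)
    (hf : ∀ n, ∀ u v : ℕ → β, (∀ i ≤ n, u i = v i) → f n u = f n v) :
    Ctn p fun g => f (N g) fun i => Y i g := by
  classical
  refine Ctn.bind (N := N) (X := fun n g => f n fun i => Y i g) hN fun n => ?_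
  intro g hg
  choose F hF using fun i => hY i g hg
  refine ⟨(Finset.range (n + 1)).biUnion F, fun g' hg' h' => hf n _ _ fun i hi => ?_⟩
  exact hF i g' hg' fun z hz => h' z (Finset.mem_biUnion.2
    ⟨i, Finset.mem_range.2 (Nat.lt_succ_of_le hi), hz⟩)

theorem Ctn.ball_lt {p : Cond K} {φ : ℕ → Gen K → Prop} (h : ∀ i, Ctn p (φ i)) (n : ℕ) :
    Ctn p fun g => ∀ i < n, φ i g :=
  Ctn.upto (N := fun _ => n) (Y := φ) (Ctn.const n) h (fun n u => ∀ i < n, u i) (by
    intro n u v huv
    exact propext (forall_congr' fun i => imp_congr_right fun hi => by rw [huv i hi.le]))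

open Classical in
theorem Ctn.findGreatest {p : Cond K} {N : Gen K → ℕ} {φ : ℕ → Gen K → Prop} (hN : Ctn p N)
    (h : ∀ i, Ctn p (φ i)) : Ctn p fun g => Nat.findGreatest (fun i => φ i g) (N g) := by
  refine Ctn.upto (N := N) (Y := φ) hN h (fun n u => Nat.findGreatest (fun i => u i) n) ?_
  intro n u v huv
  induction n with
  | zero => simp
  | succ n ih =>
    simp only [Nat.findGreatest_succ, huv (n + 1) le_rfl]
    rw [ih fun i hi => huv i (hi.trans (Nat.le_succ n))]

/-- names which depend on `A` are continuous on the restriction to `A` -/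
theorem Ctn.res {α : Sort*} {p : Cond K} {A : Set K} {X : Gen K → α} (h : Ctn p X)
    (hA : Dep A X) : Ctn (p.res A) X := by
  classical
  intro g hg
  set f : Gen K → Gen K := fun g a => if a ∈ A then g a else p.fill g a with hf
  have hfmem : ∀ g ∈ (p.res A).pts, f g ∈ p.pts := by
    intro g hg a n v hv
    by_cases ha : a ∈ A
    · simp only [hf, if_pos ha]
      exact mem_pts_res.1 hg a ha n v hv
    · simp only [hf, if_neg ha]
      exact p.fill_mem g a n v hv
  have hX : ∀ g, X (f g) = X g := by
    intro g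
    refine hA _ _ fun a ha => ?_
    simp only [hf, if_pos ha]
  obtain ⟨F, hF⟩ := h (f g) (hfmem g hg)
  refine ⟨F, fun g' hg' h' => ?_⟩
  rw [← hX g', ← hX g]
  refine hF _ (hfmem g' hg') fun z hz => ?_
  by_cases ha : z.1 ∈ A
  · simp only [hf, if_pos ha]
    exact h' z hz
  · simp only [hf, if_neg ha]
    unfold fill
    rw [h' z hz]

theorem Nm.res {α : Sort*} {p : Cond K} {A : Set K} {x : Gen K → ℕ → α} (h : Nm p x)
    (hA : Dep A x) : Nm (p.res A) x :=
  fun m => (h m).res fun g g' hg => congrFun (hA g g' hg) m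

/-- number of ones of `g` in the column `b` below `a` -/
def cnt (b : K) (g : Gen K) (a : ℕ) : ℕ := ((Finset.range a).filter fun n => g b n = true).card

theorem Ctn.cnt {p : Cond K} (b : K) {N : Gen K → ℕ} (hN : Ctn p N) :
    Ctn p fun g => cnt b g (N g) := by
  refine Ctn.upto (N := N) (Y := fun n g => g b n) hN (fun n => Ctn.eval b n)
    (fun a u => ((Finset.range a).filter fun n => u n = true).card) ?_
  intro n u v huv
  refine congrArg _ (Finset.filter_congr fun i hi => ?_)
  rw [huv i (Finset.mem_range.1 hi).le]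

end SV
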