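import Pool.Agent.H79.SV.Comb
import Pool.Agent.H79.SV.Unif

/-!
# BRANCH: the four branches below a condition `p`

Proof. Let `F j μ` be from `Ctn.unif` for `fun g => I g j μ`. The set of columns `C` = (support of `p`) ∪ `{b}` ∪ (first
coordinates of all `F j μ`) is countable, so (`K` is infinite) there is an injective `c : ℕ → K` with `c 0 = b` and
`C ⊆ range c`. Let `fr i n` be `p.val (c i) n = none`; the free places of column `c i` are enumerated by `Nat.nth (fr i)`, with
inverse `Nat.count (fr i)`. For `g ∈ p.pts` put `H g i l = g (c i) (Nat.nth (fr i) l)`, for a table `h` let `G h ∈ p.pts` be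
the total function with `G h (c i) n = h i (Nat.count (fr i) n)` at the free places of the column `c i`, the value of `p` at the
places of its domain, and `false` elsewhere. For `g ∈ p.pts`: `G (H g)` agrees with `g` on all columns `c i`, so `I (G (H g)) j μ = I g j μ`.
Apply `comb` to `I' h j μ = I (G h) j μ` (it depends on finitely many values of `h` by `F j μ`),
`P a = #{n < a | p.val b n = some true}`, `ν a = Nat.count (fr 0) a`, `g₀`. For `g ∈ p.pts`:
`cnt b g a = P a + #{l < ν a | H g 0 l}`. Let `q e i` be the condition with `(q e i).val k n = p.val k n` if this is not `none`,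
otherwise `ρ e i i' (Nat.count (fr i') n)` if `k = c i'`, and `none` if `k ∉ range c`. If `g ∈ (q e i).pts` then `H g`
extends `ρ e i`.
-/

set_option autoImplicit false

open Filter

namespace SV

open Cond

variable {K : Type}

/-- an enumeration of a countable set of columns beginning with `b` -/
theorem brn_enum [Infinite K] (b : K) {C : Set K} (hC : C.Countable) :
    ∃ c : ℕ → K, Function.Injective c ∧ c 0 = b ∧ C ⊆ Set.range c := by
  classical
  set f : ℕ ↪ K := Infinite.natEmbedding K
  set C' : Set K := C ∪ {b} ∪ Set.range f with hC'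
  have hcount : C'.Countable := (hC.union (Set.countable_singleton b)).union (Set.countable_range f)
  have hinf : C'.Infinite := (Set.infinite_range_of_injective f.injective).mono Set.subset_union_right
  have : Countable C' := hcount.to_subtype
  have : Infinite C' := hinf.to_subtype
  obtain ⟨e⟩ := nonempty_equiv_of_countable (α := ℕ) (β := C')
  have hb : b ∈ C' := Or.inl (Or.inr rfl)
  refine ⟨fun n => (e (Equiv.swap 0 (e.symm ⟨b, hb⟩) n) : C').1, ?_, ?_, ?_⟩
  · intro m n h
    exact (Equiv.swap 0 (e.symm ⟨b, hb⟩)).injective (e.injective (Subtype.ext h))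
  · simp only [Equiv.swap_apply_left, Equiv.apply_symm_apply]
  · intro k hk
    have hk' : k ∈ C' := Or.inl (Or.inl hk)
    refine ⟨Equiv.swap 0 (e.symm ⟨b, hb⟩) (e.symm ⟨k, hk'⟩), ?_⟩
    simp only [Equiv.swap_apply_self, Equiv.apply_symm_apply]

open Classical in
theorem brn_aux {p : Cond K} {I : Gen K → ℕ → ℕ → ℕ} {c : ℕ → K} (hc : Function.Injective c)
    (hF : ∀ j μ, ∃ F : Finset (K × ℕ), (∀ z ∈ F, z.1 ∈ Set.range c) ∧ ∀ g ∈ p.pts, ∀ g' ∈ p.pts,
      (∀ z ∈ F, g' z.1 z.2 = g z.1 z.2) → I g' j μ = I g j μ) (g₀ : ℕ → ℕ) :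
    ∃ (q : Bool → Bool → Cond K) (κ μ : ℕ → ℕ) (y : ℕ), (∀ e i, q e i ≤ p) ∧
      (∀ e i (A : Set K), c 0 ∉ A → (q e i).res A = (q false false).res A) ∧
      Tendsto κ atTop atTop ∧ (∀ a, y ≤ a → g₀ (μ a) < a) ∧
      ∀ a, y ≤ a → ∃ e i, ∀ g ∈ (q e i).pts, ∀ j ≤ κ a, ¬ cnt (c 0) g a ≡ I g j (μ a) [MOD 2 ^ (μ a)] := by
  set inv : K → ℕ := Function.invFun c with hinv
  have hic : ∀ i, inv (c i) = i := Function.leftInverse_invFun hc
  set fr : ℕ → ℕ → Prop := fun i n => p.val (c i) n = none with hfr
  have hfri : ∀ i, (setOf (fr i)).Infinite := fun i => p.inf (c i)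
  have hnc : ∀ i n, fr i n → Nat.nth (fr i) (Nat.count (fr i) n) = n := fun i n h => Nat.nth_count h
  have hcn : ∀ i l, Nat.count (fr i) (Nat.nth (fr i) l) = l := fun i l => Nat.count_nth_of_infinite (hfri i) l
  have hnf : ∀ i l, fr i (Nat.nth (fr i) l) := fun i l => Nat.nth_mem_of_infinite (hfri i) l
  set H : Gen K → ℕ → ℕ → Bool := fun g i l => g (c i) (Nat.nth (fr i) l) with hH
  set G : (ℕ → ℕ → Bool) → Gen K := fun h => p.fill fun k n => h (inv k) (Nat.count (fr (inv k)) n) with hG
  have hGp : ∀ h, G h ∈ p.pts := fun h => p.fill_mem _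
  have hGH : ∀ g ∈ p.pts, ∀ i n, G (H g) (c i) n = g (c i) n := by
    intro g hg i n
    cases hv : p.val (c i) n with
    | some v => rw [hGp (H g) (c i) n v hv, hg (c i) n v hv]
    | none =>
      have h1 : G (H g) (c i) n = H g (inv (c i)) (Nat.count (fr (inv (c i))) n) := fill_of_none hv
      rw [h1, hic]
      show g (c i) (Nat.nth (fr i) (Nat.count (fr i) n)) = g (c i) n
      rw [hnc i n hv]
  have hIG : ∀ g ∈ p.pts, ∀ j μ, I (G (H g)) j μ = I g j μ := by
    intro g hg j μ
    obtain ⟨F, hF1, hF2⟩ := hF j μ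
    refine hF2 g hg _ (hGp _) fun z hz => ?_
    obtain ⟨i, hi⟩ := hF1 z hz
    rw [← hi]
    exact hGH g hg i z.2
  have hdep : ∀ j μ, ∃ N, ∀ h h' : ℕ → ℕ → Bool, (∀ c < N, ∀ l < N, h c l = h' c l) →
      I (G h) j μ = I (G h') j μ := by
    intro j μ
    obtain ⟨F, hF1, hF2⟩ := hF j μ
    refine ⟨F.sup (fun z => inv z.1 + Nat.count (fr (inv z.1)) z.2 + 1), fun h h' hh => ?_⟩
    refine hF2 _ (hGp h') _ (hGp h) fun z hz => ?_
    have h1 : inv z.1 + Nat.count (fr (inv z.1)) z.2 + 1 ≤
        F.sup (fun z => inv z.1 + Nat.count (fr (inv z.1)) z.2 + 1) :=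
      Finset.le_sup (f := fun z : K × ℕ => inv z.1 + Nat.count (fr (inv z.1)) z.2 + 1) hz
    have h2 := hh (inv z.1) (by omega) (Nat.count (fr (inv z.1)) z.2) (by omega)
    show (p.val z.1 z.2).getD (h (inv z.1) (Nat.count (fr (inv z.1)) z.2)) =
      (p.val z.1 z.2).getD (h' (inv z.1) (Nat.count (fr (inv z.1)) z.2))
    rw [h2]
  set P : ℕ → ℕ := fun a => ((Finset.range a).filter fun n => p.val (c 0) n = some true).card with hP
  have hνt : Tendsto (fun a => Nat.count (fr 0) a) atTop atTop := by
    rw [tendsto_atTop_atTop]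
    intro l
    refine ⟨Nat.nth (fr 0) l, fun a ha => ?_⟩
    have := Nat.count_monotone (fr 0) ha
    rwa [hcn 0 l] at this
  obtain ⟨ρ, κ, μ, y, h1, h2, h3, h4, h5⟩ := comb (fun h j μ => I (G h) j μ) hdep P
    (fun a => Nat.count (fr 0) a) g₀ (Nat.count_monotone (fr 0)) hνt (fun a => Nat.count_le _)
  have hinf : ∀ e i k, {n | (if p.val k n = none then
      (if k ∈ Set.range c then ρ e i (inv k) (Nat.count (fr (inv k)) n) else none) else p.val k n) = none}.Infinite := by
    intro e i k
    by_cases hk : k ∈ Set.range c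
    · obtain ⟨i', rfl⟩ := hk
      refine ((h1 e i i').image (Nat.nth_injective (hfri i')).injOn).mono ?_
      rintro n ⟨l, hl, rfl⟩
      have h6 : p.val (c i') (Nat.nth (fr i') l) = none := hnf i' l
      show (if p.val (c i') (Nat.nth (fr i') l) = none then _ else _) = none
      rw [if_pos h6, if_pos ⟨i', rfl⟩, hic, hcn]
      exact hl
    · refine (p.inf k).mono ?_
      intro n hn
      have hn' : p.val k n = none := hn
      show (if p.val k n = none then _ else _) = none
      rw [if_pos hn', if_neg hk]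
  set q : Bool → Bool → Cond K := fun e i =>
    { val := fun k n => if p.val k n = none then
        (if k ∈ Set.range c then ρ e i (inv k) (Nat.count (fr (inv k)) n) else none) else p.val k n
      supp := by
        refine ((Set.countable_range c).union p.supp).mono ?_
        rintro k ⟨n, hn⟩
        by_cases hk : k ∈ Set.range c
        · exact Or.inl hk
        · right
          refine ⟨n, fun h => hn ?_⟩
          rw [if_pos h, if_neg hk]
      inf := hinf e i } with hq
  have hqv : ∀ e i k n, (q e i).val k n = if p.val k n = none then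
        (if k ∈ Set.range c then ρ e i (inv k) (Nat.count (fr (inv k)) n) else none) else p.val k n :=
    fun e i k n => rfl
  have hqp : ∀ e i, q e i ≤ p := by
    intro e i k n v hv
    rw [hqv, if_neg (by rw [hv]; simp), hv]
  refine ⟨q, κ, μ, y, hqp, ?_, h3, h4, ?_⟩
  · intro e i A hA
    apply ext'
    intro k n
    by_cases hk : k ∈ A
    · rw [res_val_of n hk, res_val_of n hk, hqv, hqv]
      by_cases hk' : k ∈ Set.range c
      · obtain ⟨i', rfl⟩ := hk'
        have hi' : i' ≠ 0 := by
          rintro rfl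
          exact hA hk
        rw [hic, h2 e i i' hi']
      · simp only [if_neg hk']
    · rw [res_val_of_not n hk, res_val_of_not n hk]
  · intro a ha
    obtain ⟨e, i, hei⟩ := h5 a ha
    refine ⟨e, i, fun g hg j hj => ?_⟩
    have hgp : g ∈ p.pts := pts_mono (hqp e i) hg
    have hext : ∀ c l v, ρ e i c l = some v → H g c l = v := by
      intro i' l v hv
      apply hg (c i') (Nat.nth (fr i') l) v
      have h6 : p.val (c i') (Nat.nth (fr i') l) = none := hnf i' l
      rw [hqv, if_pos h6, if_pos ⟨i', rfl⟩, hic, hcn, hv]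
    have h6 := hei (H g) hext j hj
    simp only [hIG g hgp] at h6
    have h7 : cnt (c 0) g a = P a + ((Finset.range (Nat.count (fr 0) a)).filter fun l => H g 0 l = true).card := by
      have e1 : ((Finset.range a).filter fun n => g (c 0) n = true) =
          ((Finset.range a).filter fun n => p.val (c 0) n = some true) ∪
          ((Finset.range a).filter fun n => p.val (c 0) n = none ∧ g (c 0) n = true) := by
        ext n
        simp only [Finset.mem_filter, Finset.mem_range, Finset.mem_union]
        constructor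
        · rintro ⟨hn, hgn⟩
          cases hv : p.val (c 0) n with
          | none => exact Or.inr ⟨hn, rfl, hgn⟩
          | some v =>
            left
            refine ⟨hn, ?_⟩
            rw [← hgn, hgp (c 0) n v hv]
        · rintro (⟨hn, hv⟩ | ⟨hn, hv, hgn⟩)
          · exact ⟨hn, hgp (c 0) n true hv⟩
          · exact ⟨hn, hgn⟩
      have e2 : Disjoint ((Finset.range a).filter fun n => p.val (c 0) n = some true)
          ((Finset.range a).filter fun n => p.val (c 0) n = none ∧ g (c 0) n = true) := by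
        rw [Finset.disjoint_left]
        intro n hn hn'
        rw [Finset.mem_filter] at hn hn'
        rw [hn'.2.1] at hn
        exact absurd hn.2 (by simp)
      have e3 : ((Finset.range a).filter fun n => p.val (c 0) n = none ∧ g (c 0) n = true).card =
          ((Finset.range (Nat.count (fr 0) a)).filter fun l => H g 0 l = true).card := by
        symm
        apply Finset.card_nbij' (fun l => Nat.nth (fr 0) l) (fun n => Nat.count (fr 0) n)
        · intro l hl
          simp only [Finset.coe_filter, Finset.mem_range, Set.mem_setOf_eq] at hl ⊢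
          exact ⟨Nat.nth_lt_of_lt_count hl.1, hnf 0 l, hl.2⟩
        · intro n hn
          simp only [Finset.coe_filter, Finset.mem_range, Set.mem_setOf_eq] at hn ⊢
          refine ⟨Nat.count_strict_mono hn.2.1 hn.1, ?_⟩
          show g (c 0) (Nat.nth (fr 0) (Nat.count (fr 0) n)) = true
          rw [hnc 0 n hn.2.1]
          exact hn.2.2
        · intro l hl
          exact hcn 0 l
        · intro n hn
          simp only [Finset.coe_filter, Finset.mem_range, Set.mem_setOf_eq] at hn
          exact hnc 0 n hn.2.1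
      unfold cnt
      rw [e1, Finset.card_union_of_disjoint e2, e3]
    rw [h7]
    exact h6

theorem branches [Infinite K] {b : K} {p : Cond K} {I : Gen K → ℕ → ℕ → ℕ}
    (hI : ∀ j μ, Ctn p fun g => I g j μ) (g₀ : ℕ → ℕ) :
    ∃ (q : Bool → Bool → Cond K) (κ μ : ℕ → ℕ) (y : ℕ), (∀ e i, q e i ≤ p) ∧
      (∀ e i (A : Set K), b ∉ A → (q e i).res A = (q false false).res A) ∧
      Tendsto κ atTop atTop ∧ (∀ a, y ≤ a → g₀ (μ a) < a) ∧
      ∀ a, y ≤ a → ∃ e i, ∀ g ∈ (q e i).pts, ∀ j ≤ κ a, ¬ cnt b g a ≡ I g j (μ a) [MOD 2 ^ (μ a)] := by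
  classical
  have hF : ∀ j μ, ∃ F : Finset (K × ℕ), ∀ g ∈ p.pts, ∀ g' ∈ p.pts,
      (∀ z ∈ F, g' z.1 z.2 = g z.1 z.2) → I g' j μ = I g j μ := fun j μ => (hI j μ).unif
  choose F hF using hF
  have hC : (⋃ j, ⋃ μ, (((F j μ).image Prod.fst : Finset K) : Set K)).Countable :=
    Set.countable_iUnion fun j => Set.countable_iUnion fun μ => ((F j μ).image Prod.fst).countable_toSet
  obtain ⟨c, hc, hc0, hcC⟩ := brn_enum b hC
  subst hc0
  refine brn_aux hc (fun j μ => ⟨F j μ, fun z hz => hcC ?_, hF j μ⟩) g₀
  simp only [Set.mem_iUnion]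
  refine ⟨j, μ, ?_⟩
  rw [Finset.mem_coe]
  exact Finset.mem_image_of_mem _ hz

end SV
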