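import Pool.Agent.H79.SV.Fu
import Pool.Agent.H26.BV.Rop
import Pool.Agent.H26.BV.Ult

/-!
# BV: Boolean values of properties of the generic total function

`e : Cond K → B` is a dense embedding. `bv e φ` is the Boolean value of `φ (generic)`, for `φ` continuous below the
condition considered.

`le_of_dense`: otherwise `e p ⊓ cᶜ ≠ ⊥`, `he.exists_le_of_inf_ne_bot` gives `q ≤ p` with `e q ≤ cᶜ`, and then `r ≤ q` with `e r ≤ c`.
`bv_disj`: if not, there is `r` with `e r ≤ bv φ ⊓ bv ψ` (`he.dense`); `he.exists_le_of_le_iSup` twice gives `r' ≤ r` and `q`, `q'` with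
`e r' ≤ e q`, `e r' ≤ e q'`, the members of `q.pts` satisfy `φ`, those of `q'.pts` satisfy `ψ`; with `he.compat` twice a condition below `r'`, `q`, `q'`: its
total functions satisfy both.
`bv_or`: `le_of_dense`: for `q ≤ p` take `g ∈ q.pts` and `F` from `Ctn p φ`: on `(q.add F g).pts` the value of `φ` is constant
(`φ g' = φ g`), so `e (q.add F g) ≤ bv e φ` or `≤ bv e (¬ φ)` (`le_iSup`).
The other rules follow (`UF.compl_mem_iff`, `W.sup_mem_iff`, …). `le_bv`: (→) if `g ∈ p.pts` and `¬ φ g`, then `e (p.add F g) ≤ bv (¬ φ)` and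
`≤ bv φ`. `bv_ex`: like `bv_or`.
-/

set_option autoImplicit false

namespace SV

open Cond BV

variable {K : Type} {B : Type} [CompleteBooleanAlgebra B] {e : Cond K → B}

/-- Boolean value of a property of the generic -/
noncomputable def bv (e : Cond K → B) (φ : Gen K → Prop) : B :=
  ⨆ q : {q : Cond K // ∀ g ∈ q.pts, φ g}, e q.1

theorem le_of_dense (he : DenseEmb (Cond K) B e) {p : Cond K} {c : B}
    (h : ∀ q, q ≤ p → ∃ r, r ≤ q ∧ e r ≤ c) : e p ≤ c := by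
  by_contra hcon
  have h1 : e p ⊓ cᶜ ≠ ⊥ := fun h0 => hcon (by rwa [← sdiff_eq, sdiff_eq_bot_iff] at h0)
  obtain ⟨q, hq, hqc⟩ := he.exists_le_of_inf_ne_bot h1
  obtain ⟨r, hr, hrc⟩ := h q hq
  apply he.ne_bot r
  rw [eq_bot_iff, ← inf_compl_eq_bot (a := c)]
  exact le_inf hrc ((he.mono r q hr).trans hqc)

theorem le_bv_of {p : Cond K} {φ : Gen K → Prop} (h : ∀ g ∈ p.pts, φ g) : e p ≤ bv e φ :=
  le_iSup (fun q : {q : Cond K // ∀ g ∈ q.pts, φ g} => e q.1) ⟨p, h⟩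

/-- below `bv e φ` there is a condition all of whose points satisfy `φ` -/
theorem exists_of_le_bv (he : DenseEmb (Cond K) B e) {p : Cond K} {φ : Gen K → Prop}
    (h : e p ≤ bv e φ) : ∃ r, r ≤ p ∧ ∀ g ∈ r.pts, φ g := by
  obtain ⟨q, hq, ⟨q', hq'⟩, hle⟩ := he.exists_le_of_le_iSup h
  have h1 : e q ⊓ e q' ≠ ⊥ := by
    rw [inf_eq_left.2 hle]
    exact he.ne_bot q
  obtain ⟨r, hr1, hr2⟩ := he.compat q q' h1
  exact ⟨r, hr1.trans hq, fun g hg => hq' g (pts_mono hr2 hg)⟩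

theorem bv_inf (he : DenseEmb (Cond K) B e) (φ ψ : Gen K → Prop) :
    bv e φ ⊓ bv e ψ = bv e fun g => φ g ∧ ψ g := by
  apply le_antisymm
  · by_contra hcon
    have h1 : bv e φ ⊓ bv e ψ ⊓ (bv e fun g => φ g ∧ ψ g)ᶜ ≠ ⊥ :=
      fun h0 => hcon (by rwa [← sdiff_eq, sdiff_eq_bot_iff] at h0)
    obtain ⟨p, hp⟩ := he.dense _ h1
    obtain ⟨q, hq, hqφ⟩ := exists_of_le_bv he (hp.trans (inf_le_left.trans inf_le_left))
    obtain ⟨r, hr, hrψ⟩ := exists_of_le_bv he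
      ((he.mono q p hq).trans (hp.trans (inf_le_left.trans inf_le_right)))
    have h2 : e r ≤ bv e fun g => φ g ∧ ψ g :=
      le_bv_of fun g hg => ⟨hqφ g (pts_mono hr hg), hrψ g hg⟩
    apply he.ne_bot r
    rw [eq_bot_iff, ← inf_compl_eq_bot (a := bv e fun g => φ g ∧ ψ g)]
    exact le_inf h2 ((he.mono r p (hr.trans hq)).trans (hp.trans inf_le_right))
  · refine iSup_le fun q => le_inf (le_bv_of fun g hg => (q.2 g hg).1)
      (le_bv_of fun g hg => (q.2 g hg).2)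

theorem bv_mono {φ ψ : Gen K → Prop} (h : ∀ g, φ g → ψ g) : bv e φ ≤ bv e ψ :=
  iSup_le fun q => le_bv_of fun g hg => h g (q.2 g hg)

theorem bv_false (he : DenseEmb (Cond K) B e) {φ : Gen K → Prop} (h : ∀ g, ¬ φ g) :
    bv e φ = ⊥ := by
  by_contra hcon
  obtain ⟨p, hp⟩ := he.dense _ hcon
  obtain ⟨r, -, hr⟩ := exists_of_le_bv he hp
  obtain ⟨g, hg⟩ := r.pts_nonempty
  exact h g (hr g hg)

theorem bv_disj (he : DenseEmb (Cond K) B e) {φ ψ : Gen K → Prop} (h : ∀ g, φ g → ψ g → False) :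
    bv e φ ⊓ bv e ψ = ⊥ := by
  rw [bv_inf he]
  exact bv_false he fun g hg => h g hg.1 hg.2

theorem bv_ex (he : DenseEmb (Cond K) B e) {α : Type} {p : Cond K} {X : Gen K → α}
    (hX : Ctn p X) : e p ≤ ⨆ v : α, bv e fun g => X g = v := by
  refine le_of_dense he fun q hq => ?_
  obtain ⟨g, hg⟩ := q.pts_nonempty
  obtain ⟨F, hF⟩ := hX g (pts_mono hq hg)
  refine ⟨q.add F g, add_le _ _ _, ?_⟩
  refine le_trans (le_bv_of ?_) (le_iSup (fun v : α => bv e fun g => X g = v) (X g))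
  intro g' hg'
  obtain ⟨h1, h2⟩ := mem_pts_add.1 hg'
  refine hF g' (pts_mono hq h1) fun z hz => ?_
  cases hv : q.val z.1 z.2 with
  | none => exact h2 z hz hv
  | some v => rw [h1 _ _ _ hv, hg _ _ _ hv]

theorem bv_or (he : DenseEmb (Cond K) B e) {p : Cond K} {φ : Gen K → Prop} (hφ : Ctn p φ) :
    e p ≤ bv e φ ⊔ bv e fun g => ¬ φ g := by
  refine (bv_ex he hφ).trans (iSup_le fun v => ?_)
  by_cases hv : v
  · exact le_sup_of_le_left (bv_mono fun g hg => by rw [hg]; exact hv)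
  · exact le_sup_of_le_right (bv_mono fun g hg => by rw [hg]; exact hv)

theorem bv_not (he : DenseEmb (Cond K) B e) {p : Cond K} {φ : Gen K → Prop} (hφ : Ctn p φ)
    (W : UF B) (hW : e p ∈ W) : bv e (fun g => ¬ φ g) ∈ W ↔ bv e φ ∉ W := by
  constructor
  · intro h1 h2
    have h3 := W.inf_mem h1 h2
    rw [bv_disj he fun g h4 h5 => h4 h5] at h3
    exact W.bot_notMem h3
  · intro h1
    exact (W.sup_mem_iff.1 (W.mem_of_le hW (bv_or he hφ))).resolve_left h1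

theorem bv_imp (he : DenseEmb (Cond K) B e) {p : Cond K} {φ ψ : Gen K → Prop}
    (hψ : Ctn p ψ) (hi : ∀ g ∈ p.pts, φ g → ψ g) (W : UF B) (hW : e p ∈ W)
    (h : bv e φ ∈ W) : bv e ψ ∈ W := by
  by_contra hcon
  have h1 := (bv_not he hψ W hW).2 hcon
  have h2 : bv e (fun g => g ∈ p.pts) ∈ W := W.mem_of_le hW (le_bv_of fun g hg => hg)
  have h3 := W.inf_mem (W.inf_mem h h1) h2
  rw [bv_inf he, bv_inf he, bv_false he] at h3
  · exact W.bot_notMem h3
  · rintro g ⟨⟨h4, h5⟩, h6⟩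
    exact h5 (hi g h6 h4)

theorem bv_and (he : DenseEmb (Cond K) B e) (φ ψ : Gen K → Prop)
    (W : UF B) : bv e (fun g => φ g ∧ ψ g) ∈ W ↔ bv e φ ∈ W ∧ bv e ψ ∈ W := by
  rw [← bv_inf he, UF.inf_mem_iff]

theorem le_bv (he : DenseEmb (Cond K) B e) {p : Cond K} {φ : Gen K → Prop} (hφ : Ctn p φ) :
    e p ≤ bv e φ ↔ ∀ g ∈ p.pts, φ g := by
  refine ⟨fun h g hg => ?_, le_bv_of⟩
  obtain ⟨F, hF⟩ := hφ g hg
  obtain ⟨r, hr, hr'⟩ := exists_of_le_bv he ((he.mono _ _ (add_le p F g)).trans h)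
  obtain ⟨g', hg'⟩ := r.pts_nonempty
  obtain ⟨h1, h2⟩ := mem_pts_add.1 (pts_mono hr hg')
  have h3 : φ g' = φ g := by
    refine hF g' h1 fun z hz => ?_
    cases hv : p.val z.1 z.2 with
    | none => exact h2 z hz hv
    | some v => rw [h1 _ _ _ hv, hg _ _ _ hv]
  rw [← h3]
  exact hr' g' hg'

end SV
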