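import Pool.Agent.H79.SV.Good
import Pool.Agent.H79.SV.Unif

/-!
# GOODB: existence of good sets. The proof is in the header of `Good.lean`
-/

set_option autoImplicit false

namespace SV

open Cond Cardinal

/-- the arities of the operations -/
private def gbAr (S I : Type) : S ⊕ (I × ℕ) → Type
  | Sum.inl _ => PEmpty
  | Sum.inr _ => ℕ

/-- the evaluation step -/
private def gbStep {S I L : Type} (c : S → L) (G : I → (ℕ → L) → ℕ → L) :
    (Σ a : S ⊕ (I × ℕ), gbAr S I a → L) → L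
  | ⟨Sum.inl s, _⟩ => c s
  | ⟨Sum.inr p, s⟩ => G p.1 s p.2

private theorem gb_closed {κ : Cardinal.{0}} (h0 : ℵ₀ ≤ κ) (hκ : κ ^ ℵ₀ = κ) (S I L : Type)
    (hS : #S ≤ κ) (hI : #I ≤ κ) (c : S → L) (G : I → (ℕ → L) → ℕ → L) :
    ∃ C : Set L, #C ≤ κ ∧ (∀ s, c s ∈ C) ∧
      ∀ i (s : ℕ → L), (∀ n, s n ∈ C) → ∀ k, G i s k ∈ C := by
  refine ⟨Set.range (WType.elim (β := gbAr S I) L (gbStep c G)), ?_, ?_, ?_⟩
  · refine Cardinal.mk_range_le.trans ?_
    refine WType.cardinalMk_le_of_le ?_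
    have h1 : ∀ a : S ⊕ (I × ℕ), κ ^ #(gbAr S I a) ≤ κ := by
      intro a
      cases a with
      | inl s =>
        have h2 : #(gbAr S I (Sum.inl s)) = 0 := by
          change #PEmpty.{1} = 0
          simp
        rw [h2, power_zero]
        exact one_le_aleph0.trans h0
      | inr p =>
        have h2 : #(gbAr S I (Sum.inr p)) = ℵ₀ := by
          change #ℕ = ℵ₀
          simp
        rw [h2, hκ]
    refine (Cardinal.sum_le_sum _ (fun _ => κ) h1).trans ?_
    rw [Cardinal.sum_const']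
    refine (mul_le_mul' (?_ : #(S ⊕ (I × ℕ)) ≤ κ) le_rfl).trans (Cardinal.mul_eq_self h0).le
    rw [Cardinal.mk_sum, Cardinal.mk_prod, Cardinal.lift_id, Cardinal.lift_id, Cardinal.lift_id,
      Cardinal.lift_id]
    refine Cardinal.add_le_of_le h0 hS ?_
    refine (mul_le_mul' hI (?_ : #ℕ ≤ κ)).trans (Cardinal.mul_eq_self h0).le
    rw [Cardinal.mk_nat]
    exact h0
  · intro s
    exact ⟨WType.mk (Sum.inl s) (fun x => PEmpty.elim x), rfl⟩
  · intro i s hs k
    choose w hw using hs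
    refine ⟨WType.mk (Sum.inr (i, k)) w, ?_⟩
    change G i (fun n => WType.elim (β := gbAr S I) L (gbStep c G) (w n)) k = G i s k
    rw [funext hw]

/-- the indices of the operations -/
private abbrev GbIdx : Type := (ℕ → ℕ → Option Bool) × ((ℕ → ℕ → Bool) → ℕ → Prop)

private theorem gb_idx : #GbIdx ≤ 2 ^ continuum.{0} := by
  have hc : ℵ₀ ≤ (2 : Cardinal.{0}) ^ continuum.{0} := aleph0_le_continuum.trans (cantor _).le
  have h1 : #(ℕ → ℕ → Option Bool) ≤ 2 ^ continuum.{0} := by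
    have h2 : #(ℕ → ℕ → Option Bool) ≤ continuum.{0} := by
      have h3 : #(ℕ → Option Bool) ≤ continuum.{0} := by
        rw [← Cardinal.power_def, Cardinal.mk_nat]
        have h4 : #(Option Bool) ≤ ℵ₀ := Cardinal.mk_le_aleph0
        exact (Cardinal.power_le_power_right h4).trans (by rw [Cardinal.aleph0_power_aleph0])
      rw [← Cardinal.power_def, Cardinal.mk_nat]
      exact (Cardinal.power_le_power_right h3).trans (by rw [Cardinal.continuum_power_aleph0])
    exact h2.trans (cantor _).le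
  have h2 : #((ℕ → ℕ → Bool) → ℕ → Prop) ≤ 2 ^ continuum.{0} := by
    have h3 : #(ℕ → Prop) = continuum.{0} := by
      rw [← Cardinal.power_def, Cardinal.mk_nat, Cardinal.mk_Prop, Cardinal.two_power_aleph0]
    have h4 : #(ℕ → ℕ → Bool) = continuum.{0} := by
      have h5 : #(ℕ → Bool) = continuum.{0} := by
        rw [← Cardinal.power_def, Cardinal.mk_nat, Cardinal.mk_bool, Cardinal.two_power_aleph0]
      rw [← Cardinal.power_def, Cardinal.mk_nat, h5, Cardinal.continuum_power_aleph0]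
    rw [← Cardinal.power_def, h3, h4, Cardinal.power_self_eq aleph0_le_continuum]
  rw [Cardinal.mk_prod, Cardinal.lift_id, Cardinal.lift_id]
  exact (mul_le_mul' h1 h2).trans (Cardinal.mul_eq_self hc).le

variable {K : Type} {p₀ : Cond K} {FU : Cond K → (Gen K → ℕ → Prop) → Prop}

private theorem gb_op (h : IsU p₀ FU) (a : ℕ → K) (τ : GbIdx) : ∃ γ : ℕ → K, ∀ p : Cond K, p ≤ p₀ →
    p.On (Set.range a) → (∀ i n, p.val (a i) n = τ.1 i n) →
    Nm p (fun g => τ.2 fun i => g (a i)) →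
    ∃ q, q ≤ p ∧ q.On (Set.range γ) ∧
      (FU q (fun g => τ.2 fun i => g (a i)) ∨ FU q fun g m => ¬ τ.2 (fun i => g (a i)) m) := by
  by_cases H : ∃ p : Cond K, p ≤ p₀ ∧ p.On (Set.range a) ∧ (∀ i n, p.val (a i) n = τ.1 i n) ∧
      Nm p (fun g => τ.2 fun i => g (a i))
  · obtain ⟨p, hp, hpa, hpv, hpn⟩ := H
    obtain ⟨q, hq, hF⟩ := h.dec p _ hp hpn
    have hc : ({a 0} ∪ {c | ∃ n, q.val c n ≠ none}).Countable :=
      (Set.countable_singleton _).union q.supp
    obtain ⟨γ, hγ⟩ := hc.exists_eq_range ⟨a 0, Or.inl rfl⟩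
    refine ⟨γ, fun p' hp' hpa' hpv' hpn' => ?_⟩
    have hpp : p' = p := by
      apply ext'
      intro c n
      by_cases hcr : c ∈ Set.range a
      · obtain ⟨i, rfl⟩ := hcr
        rw [hpv', hpv]
      · rw [hpa' c hcr, hpa c hcr]
    rw [hpp]
    refine ⟨q, hq, ?_, hF⟩
    intro c hcr n
    by_contra hcon
    apply hcr
    rw [← hγ]
    exact Or.inr ⟨n, hcon⟩
  · exact ⟨a, fun p h1 h2 h3 h4 => absurd ⟨p, h1, h2, h3, h4⟩ H⟩

theorem exists_good (h : IsU p₀ FU) (S : Set K) (hS : #S ≤ 2 ^ continuum.{0}) :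
    ∃ A : Set K, S ⊆ A ∧ Good p₀ FU A ∧ #A ≤ 2 ^ continuum.{0} := by
  classical
  have hc : ℵ₀ ≤ (2 : Cardinal.{0}) ^ continuum.{0} := aleph0_le_continuum.trans (cantor _).le
  rcases isEmpty_or_nonempty K with hK | ⟨⟨x0⟩⟩
  · refine ⟨S, le_rfl, ⟨fun a => isEmptyElim a, ?_⟩, hS⟩
    intro p φ hp _ _ hn
    obtain ⟨q, hq, hF⟩ := h.dec p φ hp hn
    exact ⟨q, hq, fun a => isEmptyElim a, hF⟩
  choose γ hγ using gb_op h
  have hκ : ((2 : Cardinal.{0}) ^ continuum.{0}) ^ ℵ₀ = 2 ^ continuum.{0} := by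
    rw [← Cardinal.power_mul, Cardinal.continuum_mul_aleph0]
  have hS' : #((S ∪ {c | ∃ n, p₀.val c n ≠ none} ∪ {x0} : Set K)) ≤ 2 ^ continuum.{0} := by
    refine (Cardinal.mk_union_le _ _).trans (Cardinal.add_le_of_le hc ?_ ?_)
    · refine (Cardinal.mk_union_le _ _).trans (Cardinal.add_le_of_le hc hS ?_)
      exact (Cardinal.mk_le_aleph0_iff.2 p₀.supp.to_subtype).trans hc
    · rw [Cardinal.mk_singleton]
      exact one_le_aleph0.trans hc
  obtain ⟨A, hA, hAS, hAG⟩ := gb_closed hc hκ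
    ((S ∪ {c | ∃ n, p₀.val c n ≠ none} ∪ {x0} : Set K)) GbIdx K hS' gb_idx Subtype.val
    (fun τ a => γ a τ)
  have hx0 : x0 ∈ A := hAS ⟨x0, Or.inr rfl⟩
  refine ⟨A, fun s hs => hAS ⟨s, Or.inl (Or.inl hs)⟩, ⟨?_, ?_⟩, hA⟩
  · intro c hcA n
    by_contra hcon
    exact hcA (hAS ⟨c, Or.inl (Or.inr ⟨n, hcon⟩)⟩)
  intro p φ hp hpA hD hn
  choose F hF using fun m => (hn m).unif
  -- the countable set
  have hcnt : ({x0} ∪ {c | ∃ n, p.val c n ≠ none} ∪
      (⋃ m, ((F m).image Prod.fst : Finset K) : Set K) ∩ A).Countable := by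
    refine ((Set.countable_singleton _).union p.supp).union ?_
    exact (Set.countable_iUnion fun m => Finset.countable_toSet _).mono Set.inter_subset_left
  obtain ⟨a, ha⟩ := hcnt.exists_eq_range ⟨x0, Or.inl (Or.inl rfl)⟩
  have haA : ∀ i, a i ∈ A := by
    intro i
    have h1 : a i ∈ Set.range a := ⟨i, rfl⟩
    rw [← ha] at h1
    rcases h1 with (h1 | ⟨n, h1⟩) | ⟨-, h1⟩
    · rw [Set.mem_singleton_iff.1 h1]
      exact hx0
    · by_contra hcon
      exact h1 (hpA _ hcon n)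
    · exact h1
  have hFa : ∀ m, ∀ z ∈ F m, z.1 ∈ A → z.1 ∈ Set.range a := by
    intro m z hz hzA
    rw [← ha]
    refine Or.inr ⟨Set.mem_iUnion.2 ⟨m, ?_⟩, hzA⟩
    simp only [Finset.coe_image, Set.mem_image, Finset.mem_coe]
    exact ⟨z, hz, rfl⟩
  have hpa : p.On (Set.range a) := by
    intro c hcr n
    by_contra hcon
    apply hcr
    rw [← ha]
    exact Or.inl (Or.inr ⟨n, hcon⟩)
  -- the name
  set e : (ℕ → ℕ → Bool) → Gen K := fun G c n =>
    if hc : ∃ i, a i = c then G hc.choose n else false with he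
  have he1 : ∀ (g : Gen K) (c : K) (n : ℕ), c ∈ Set.range a →
      e (fun i => g (a i)) c n = g c n := by
    intro g c n hcr
    have hcr' : ∃ i, a i = c := hcr
    simp only [he]
    rw [dif_pos hcr', hcr'.choose_spec]
  have he2 : ∀ (G : ℕ → ℕ → Bool) (c : K) (n : ℕ), c ∉ Set.range a → e G c n = false := by
    intro G c n hcr
    have hcr' : ¬ ∃ i, a i = c := hcr
    simp only [he]
    rw [dif_neg hcr']
  have hkey : ∀ g ∈ p.pts, ∀ m, φ (p.fill (e fun i => g (a i))) m = φ g m := by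
    intro g hg m
    set g₁ : Gen K := fun c => if c ∈ A then g c else p.fill (fun _ _ => false) c with hg₁
    have h1 : φ g = φ g₁ := hD _ _ fun c hcA => by
      simp only [hg₁, if_pos hcA]
    have h2 : g₁ ∈ p.pts := by
      intro c n v hv
      by_cases hcA : c ∈ A
      · simp only [hg₁, if_pos hcA]
        exact hg c n v hv
      · simp only [hg₁, if_neg hcA]
        exact p.fill_mem _ c n v hv
    rw [h1]
    refine hF m g₁ h2 _ (p.fill_mem _) fun z hz => ?_
    by_cases hzA : z.1 ∈ A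
    · simp only [hg₁, if_pos hzA]
      have h3 := hFa m z hz hzA
      have h4 : p.fill (e fun i => g (a i)) z.1 z.2 = p.fill g z.1 z.2 := by
        unfold fill
        rw [he1 g z.1 z.2 h3]
      rw [h4, fill_of_mem hg]
    · simp only [hg₁, if_neg hzA]
      have h3 : z.1 ∉ Set.range a := by
        rintro ⟨i, hi⟩
        exact hzA (hi ▸ haA i)
      unfold fill
      have h4 := he2 (fun i => g (a i)) z.1 z.2 h3
      exact congrArg (fun b => (p.val z.1 z.2).getD b) h4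
  have hn1 : Nm p (fun g : Gen K => φ (p.fill (e fun i => g (a i)))) := hn.congr hkey
  obtain ⟨q, hq, hqA, hFU⟩ := hγ a (fun i n => p.val (a i) n, fun G => φ (p.fill (e G))) p hp hpa
    (fun _ _ => rfl) hn1
  refine ⟨q, hq, hqA.mono ?_, ?_⟩
  · rintro c ⟨k, rfl⟩
    exact hAG _ a haA k
  · rcases hFU with h1 | h1
    · refine Or.inl (h.up q _ φ h1 (hn.mono hq) fun g hg m h2 => ?_)
      rw [← hkey g (pts_mono hq hg) m]
      exact h2
    · refine Or.inr (h.up q _ _ h1 (fun m => ((hn m).mono hq).comp Not) fun g hg m h2 => ?_)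
      rw [← hkey g (pts_mono hq hg) m]
      exact h2

end SV
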