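import Pool.Agent.H79.SV.Fe
import Pool.Agent.H79.SV.GoodB

/-!
# CASE1A: if all good sets `A` have infinite elements below all infinite elements depending on `A`: the sequence

`bel_ext`: `finext` with `D s k = (Infn FU s k ∧ Bel FU A s k)` gives `q`, `t`; put `k₀ g m = t g g m`. `Nm q k₀`: at `g` take the union
of `F` and of the finite set for `t g` on `(q.add F g).pts` (`t g' = t g` if `g'` and `g` agree on `F`). `c ≤ k₀`: by `h.of_add` with `F`
(on `(q.add F g).pts` we have `t g' = t g`, `mem_pts_add`, `q.fr F`). `Bel`: for `r ≤ q`, by `h.of_add` at `r` (`add_le_add_pts`). Then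
replace `k₀` by the name of `exists_dep` (equal on `q.pts`).

`case1_seq`: `fusion` with `T = Set K × (Gen K → ℕ → ℕ)`, `Q p t = (p ≤ p₀ ∧ Good p₀ FU t.1 ∧ #t.1 ≤ 2 ^ 𝔠)`,
`R n F p t t' = (t.1 ⊆ t'.1 ∧ Dep t'.1 t'.2 ∧ Infn FU p t'.2 ∧ Bel FU t.1 p t'.2)`; the step: `bel_ext` for `t.1`, then
`exists_good` for `t.1 ∪ A'`. Then `A n = (t n).1`, `k n = (t (n + 1)).2`.
-/

set_option autoImplicit false

namespace SV

open Cond Cardinal

variable {K : Type} {p₀ : Cond K} {FU : Cond K → (Gen K → ℕ → Prop) → Prop}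

/-- below `q` the name `k` is below all infinite elements which depend on `A` -/
def Bel (FU : Cond K → (Gen K → ℕ → Prop) → Prop) (A : Set K) (q : Cond K)
    (k : Gen K → ℕ → ℕ) : Prop :=
  ∀ r x, r ≤ q → Dep A x → Infn FU r x → FU r fun g m => k g m ≤ x g m

theorem Bel.mono {A : Set K} {p q : Cond K} {k : Gen K → ℕ → ℕ} (hk : Bel FU A p k)
    (hq : q ≤ p) : Bel FU A q k := fun r x hr => hk r x (hr.trans hq)

theorem bel_ext (h : IsU p₀ FU) {A : Set K}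
    (H : ∀ q, q ≤ p₀ → ∃ r, r ≤ q ∧ ∃ k, Infn FU r k ∧ Bel FU A r k) {p : Cond K} (hp : p ≤ p₀)
    {F : Finset (K × ℕ)} (hF : p.fr F) :
    ∃ q, Ext F q p ∧ ∃ (A' : Set K) (k : Gen K → ℕ → ℕ), A'.Countable ∧ Dep A' k ∧
      Infn FU q k ∧ Bel FU A q k := by
  classical
  obtain ⟨q, hqE, t, htF, ht⟩ := finext (α := Gen K → ℕ → ℕ)
    (fun s k => Infn FU s k ∧ Bel FU A s k)
    (fun p q v hqp hv => ⟨hv.1.mono h hqp, hv.2.mono hqp⟩) hF (fun q hq => H q (hq.trans hp))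
  have hq0 : q ≤ p₀ := hqE.1.trans hp
  -- on the extensions the name is `t g`
  have hag : ∀ g g' : Gen K, g' ∈ (q.add F g).pts → t g' = t g := by
    intro g g' hg'
    rw [mem_pts_add] at hg'
    exact htF g g' fun z hz => hg'.2 z hz (hqE.2 z hz)
  have hn : Nm q fun g m => t g g m := by
    intro m g hg
    obtain ⟨F', hF'⟩ := (ht g).1.1 m g (self_mem_add hg)
    refine ⟨F ∪ F', fun g' hg' h' => ?_⟩
    have h1 : g' ∈ (q.add F g).pts :=
      mem_pts_add.2 ⟨hg', fun z hz _ => h' z (Finset.mem_union_left _ hz)⟩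
    show t g' g' m = t g g m
    rw [hag g g' h1]
    exact hF' g' h1 fun z hz => h' z (Finset.mem_union_right _ hz)
  have hinf : Infn FU q fun g m => t g g m := by
    refine ⟨hn, fun c => h.of_add hq0 (fun m => (hn m).comp (c ≤ ·)) fun g hg => ⟨F, ?_⟩⟩
    refine h.up _ _ _ ((ht g).1.2 c) (fun m => ((hn m).mono (add_le _ _ _)).comp (c ≤ ·)) ?_
    intro g' hg' m hm
    show c ≤ t g' g' m
    rw [hag g g' hg']
    exact hm
  have hbel : Bel FU A q fun g m => t g g m := by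
    intro r x hr hx hx'
    refine h.of_add (hr.trans hq0) (fun m => ((hn.mono hr) m).comp₂ (hx'.1 m) (· ≤ ·)) fun g hg => ⟨F, ?_⟩
    have h1 : r.add F g ≤ q.add F g := add_le_add_pts hr hg
    refine h.up _ _ _ ((ht g).2 _ x h1 hx (hx'.mono h (add_le _ _ _)))
      (fun m => (((hn.mono hr) m).comp₂ (hx'.1 m) (· ≤ ·)).mono (add_le _ _ _)) ?_
    intro g' hg' m hm
    show t g' g' m ≤ x g' m
    rw [hag g g' (pts_mono h1 hg')]
    exact hm
  obtain ⟨A', y, hA', hdep, hy⟩ := exists_dep hn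
  have hyn : Nm q y := hn.congr fun g hg m => congrFun (hy g hg) m
  refine ⟨q, hqE, A', y, hA', hdep, ⟨hyn, fun c => ?_⟩, ?_⟩
  · refine h.up _ _ _ (hinf.2 c) (fun m => (hyn m).comp (c ≤ ·)) fun g hg m hm => ?_
    rw [hy g hg]
    exact hm
  · intro r x hr hx hx'
    refine h.up _ _ _ (hbel r x hr hx hx') (fun m => ((hyn.mono hr) m).comp₂ (hx'.1 m) (· ≤ ·))
      fun g hg m hm => ?_
    rw [hy g (pts_mono hr hg)]
    exact hm

theorem case1_seq (h : IsU p₀ FU) (H : ∀ A : Set K, Good p₀ FU A → #A ≤ 2 ^ continuum.{0} →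
      ∀ q, q ≤ p₀ → ∃ r, r ≤ q ∧ ∃ k, Infn FU r k ∧ Bel FU A r k) :
    ∃ q, q ≤ p₀ ∧ ∃ (A : ℕ → Set K) (k : ℕ → Gen K → ℕ → ℕ), Monotone A ∧
      (∀ n, #(A n) ≤ 2 ^ continuum.{0}) ∧ (∀ n, Dep (A (n + 1)) (k n)) ∧
      (∀ n, Infn FU q (k n)) ∧ ∀ n, Bel FU (A n) q (k n) := by
  classical
  obtain ⟨A₀, -, hA₀, hA₀c⟩ := exists_good h (∅ : Set K) (by simp)
  obtain ⟨q, t, F, hE, -, -, -, -, hQ, hR⟩ := fusion (T := Set K × (Gen K → ℕ → ℕ))
    (fun p t => p ≤ p₀ ∧ Good p₀ FU t.1 ∧ #t.1 ≤ 2 ^ continuum.{0})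
    (fun _ _ p t t' => t.1 ⊆ t'.1 ∧ Dep t'.1 t'.2 ∧ Infn FU p t'.2 ∧ Bel FU t.1 p t'.2)
    (fun p q t hqp ht => ⟨hqp.trans ht.1, ht.2⟩)
    (fun n F p q t t' hE ht => ⟨ht.1, ht.2.1, ht.2.2.1.mono h hE.1, ht.2.2.2.mono hE.1⟩)
    (by
      rintro n F p t hF ⟨hp, hG, hc⟩
      obtain ⟨q, hqE, A', k, hA', hdep, hk, hb⟩ := bel_ext h (H t.1 hG hc) hp hF
      obtain ⟨A'', hsub, hG'', hc''⟩ := exists_good h (t.1 ∪ A') (by
        refine (mk_union_le _ _).trans ?_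
        have h1 : (ℵ₀ : Cardinal.{0}) ≤ 2 ^ continuum.{0} :=
          aleph0_le_continuum.trans (cantor _).le
        have h2 : #A' ≤ 2 ^ continuum.{0} := (le_aleph0_iff_set_countable.2 hA').trans h1
        exact (add_le_add hc h2).trans (add_eq_self h1).le)
      exact ⟨q, (A'', k), hqE, ⟨hqE.1.trans hp, hG'', hc''⟩, Set.subset_union_left.trans hsub,
        hdep.mono (Set.subset_union_right.trans hsub), hk, hb⟩)
    ∅ p₀ (A₀, fun _ _ => 0) (fr_empty _) ⟨le_rfl, hA₀, hA₀c⟩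
  refine ⟨q, hE.1, fun n => (t n).1, fun n => (t (n + 1)).2, ?_, fun n => (hQ n).2.2,
    fun n => (hR n).2.1, fun n => (hR n).2.2.1, fun n => (hR n).2.2.2⟩
  exact monotone_nat_of_le_succ fun n => (hR n).1

end SV
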