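import Pool.Agent.H79.SV.Case1

/-!
# CASE1B: if all good sets `A` have infinite elements below all infinite elements depending on `A`, then `U` is flat

Proof. Let `q`, `A`, `k` be from `case1_seq`.
* For all `f` and `n`: `FU q (f (k (n+1)) < k n)`. Let `z g m = Nat.findGreatest (fun i => ∀ l ≤ i, f l < k n g m) (k n g m)`; it depends on
  `A (n + 1)`; it is infinite because the `k n` is (for `c` take the number `c + 1 + ∑ i ∈ range (c + 1), f i ≤ k n`). `Bel FU (A (n+1)) q (k (n+1))`
  gives `k (n+1) ≤ z`; where `f 0 < k n` we get `f (k (n+1)) < k n` (`Nat.findGreatest_spec`).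
* Let `Aω` be a good set with `⋃ n, A n ⊆ Aω`, `#Aω ≤ 2 ^ 𝔠` (`exists_good`). `H` for `Aω`, `q` gives `r ≤ q` and `κ` with
  `Infn FU r κ`, `Bel FU Aω r κ`. For `f` let `K_f g m = Nat.findGreatest (fun N => ∀ j < N, f (k (j+1) g m) < k j g m) m`: it depends on `Aω`
  and is infinite below `r` (`Infn.findGreatest`, `h.all_lt`), so `FU r (κ ≤ K_f)`, and `∀ j < κ, f (k (j+1)) < k j` is forced
  (`Nat.findGreatest_spec` at `0`).
* Flat witness at `r`: `S g m = (Finset.range (κ g m + 1)).image fun j => k j g m` (`Ctn.upto`). For `f` let `f'` be monotone with `f ≤ f'`,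
  `n ≤ f' n`. Where `∀ j < κ, f' (k (j+1)) < k j`, the `k j`, `j ≤ κ`, are strictly decreasing, so `card = κ + 1`, and for `i > j` we have
  `f (k i) ≤ f' (k i) < k (i-1) ≤ k j`; and `n ≤ κ` is forced for all `n`.
-/

set_option autoImplicit false

namespace SV

open Cond Cardinal

variable {K : Type} {p₀ : Cond K} {FU : Cond K → (Gen K → ℕ → Prop) → Prop}

theorem case1_chain {f : ℕ → ℕ} (hf : ∀ n, n ≤ f n) {u : ℕ → ℕ} {κ : ℕ}
    (h : ∀ j < κ, f (u (j + 1)) < u j) (i : ℕ) (hi : i ≤ κ) (j : ℕ) (hj : j < i) :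
    f (u i) < u j := by
  induction i with
  | zero => omega
  | succ i ih =>
    have h1 := h i (by omega)
    rcases Nat.lt_succ_iff_lt_or_eq.1 hj with h2 | h2
    · have h3 := ih (by omega) h2
      exact h1.trans_le ((hf _).trans h3.le)
    · rw [h2]; exact h1

theorem case1_sum_le (f : ℕ → ℕ) (i l : ℕ) (h : l ≤ i) : f l ≤ ∑ j ∈ Finset.range (i + 1), f j :=
  Finset.single_le_sum (f := f) (fun _ _ => Nat.zero_le _) (Finset.mem_range.2 (by omega))

theorem case1_fg {P Q : ℕ → Prop} (h : P = Q) {m n : ℕ} (hmn : m = n) :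
    @Nat.findGreatest P (fun _ => Classical.propDecidable _) m =
      @Nat.findGreatest Q (fun _ => Classical.propDecidable _) n := by
  subst h
  subst hmn
  rfl

/-- the members of the sequence are in different skies -/
theorem case1_lt (h : IsU p₀ FU) {q : Cond K} {B : Set K} {k₀ k₁ : Gen K → ℕ → ℕ}
    (hdep : Dep B k₀) (hinf : Infn FU q k₀) (hbel : Bel FU B q k₁) (h₁ : Nm q k₁) (f : ℕ → ℕ) :
    FU q fun g m => f (k₁ g m) < k₀ g m := by
  classical
  set φ : ℕ → Gen K → ℕ → Prop := fun i g m => ∀ l ≤ i, f l < k₀ g m with hφ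
  have hn : ∀ i, Nm q (φ i) := fun i m => (hinf.1 m).comp fun c => ∀ l ≤ i, f l < c
  have hf : ∀ i, FU q (φ i) := by
    intro i
    refine h.up _ _ _ (hinf.2 (1 + ∑ j ∈ Finset.range (i + 1), f j)) (hn i) ?_
    intro g _ m hm l hl
    have := case1_sum_le f i l hl
    omega
  have hz := hinf.findGreatest h hn hf
  have hzd : Dep B fun g m => @Nat.findGreatest (fun i => φ i g m)
      (fun _ => Classical.propDecidable _) (k₀ g m) := by
    intro g g' hg
    have := hdep g g' hg
    funext m
    refine case1_fg ?_ (congrFun this m)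
    funext i
    simp only [hφ, this]
  have h2 := hbel q _ le_rfl hzd hz
  refine h.up₂ h2 (hf 0) (fun m => (h₁ m).comp₂ (hinf.1 m) fun a b => f a < b) ?_
  intro g _ m h3 h4
  have h5 : φ (@Nat.findGreatest (fun i => φ i g m)
      (fun _ => Classical.propDecidable _) (k₀ g m)) g m :=
    @Nat.findGreatest_spec 0 (fun i => φ i g m) (fun _ => Classical.propDecidable _) _
      (Nat.zero_le _) h4
  exact h5 _ h3

theorem case1_card {A : ℕ → Set K} (hA : ∀ n, #(A n) ≤ 2 ^ continuum.{0}) :
    #(⋃ n, A n : Set K) ≤ 2 ^ continuum.{0} := by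
  have h0 : ℵ₀ ≤ 2 ^ continuum.{0} := aleph0_le_continuum.trans (cantor _).le
  refine (mk_iUnion_le A).trans ?_
  rw [mk_nat]
  refine (mul_le_mul' h0 (ciSup_le' hA)).trans ?_
  rw [mul_eq_self h0]

theorem case1 (h : IsU p₀ FU) (H : ∀ A : Set K, Good p₀ FU A → #A ≤ 2 ^ continuum.{0} →
      ∀ q, q ≤ p₀ → ∃ r, r ≤ q ∧ ∃ k, Infn FU r k ∧ Bel FU A r k) :
    ∃ q, q ≤ p₀ ∧ FlatWit FU q := by
  classical
  obtain ⟨q, hq, A, k, hmono, hcard, hdep, hinf, hbel⟩ := case1_seq h H
  have hlt : ∀ n (f : ℕ → ℕ), FU q fun g m => f (k (n + 1) g m) < k n g m := fun n f =>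
    case1_lt h (hdep n) (hinf n) (hbel (n + 1)) (hinf (n + 1)).1 f
  obtain ⟨A', hA', hgood, hcard'⟩ := exists_good h (⋃ n, A n) (case1_card hcard)
  obtain ⟨r, hr, κ, hκ, hbκ⟩ := H A' hgood hcard' q hq
  have hr0 : r ≤ p₀ := hr.trans hq
  have hkr : ∀ n, Nm r (k n) := fun n => (hinf n).1.mono hr
  -- all the first `κ` steps are fast
  have hall : ∀ f : ℕ → ℕ, FU r fun g m => ∀ j < κ g m, f (k (j + 1) g m) < k j g m := by
    intro f
    set φ : ℕ → Gen K → ℕ → Prop := fun i g m => ∀ j < i, f (k (j + 1) g m) < k j g m with hφ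
    have hnj : ∀ j, Nm r fun g m => f (k (j + 1) g m) < k j g m := fun j m =>
      (hkr (j + 1) m).comp₂ (hkr j m) fun a b => f a < b
    have hn : ∀ i, Nm r (φ i) := fun i m => Ctn.ball_lt (fun j => hnj j m) i
    have hf : ∀ i, FU r (φ i) := fun i =>
      h.all_lt hr0 i (φ := fun j g m => f (k (j + 1) g m) < k j g m)
        fun j _ => h.mono _ _ _ hr (hlt j f)
    have hz := (Infn.id h hr0).findGreatest h hn hf
    have hzd : Dep A' fun g m => @Nat.findGreatest (fun i => φ i g m)
        (fun _ => Classical.propDecidable _) m := by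
      intro g g' hg
      have h1 : ∀ j, k j g = k j g' := fun j => hdep j g g' fun a ha =>
        hg a (hA' (Set.mem_iUnion.2 ⟨j + 1, ha⟩))
      funext m
      refine case1_fg ?_ rfl
      funext i
      simp only [hφ, h1]
    have h2 := hbκ r _ le_rfl hzd hz
    refine h.up _ _ _ h2 (fun m => ?_) ?_
    · exact Ctn.bind (N := fun g => κ g m) (X := fun i g => φ i g m) (hκ.1 m) fun i => hn i m
    · intro g _ m h3
      have h5 : φ (@Nat.findGreatest (fun i => φ i g m)
          (fun _ => Classical.propDecidable _) m) g m :=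
        @Nat.findGreatest_spec 0 (fun i => φ i g m) (fun _ => Classical.propDecidable _) _
          (Nat.zero_le _)
          (show ∀ j < 0, f (k (j + 1) g m) < k j g m from fun j hj => absurd hj (Nat.not_lt_zero j))
      exact fun j hj => h5 j (lt_of_lt_of_le hj h3)
  refine ⟨r, hr0, fun g m => (Finset.range (κ g m + 1)).image fun j => k j g m, ?_, ?_⟩
  · intro m
    refine Ctn.upto (N := fun g => κ g m) (Y := fun j g => k j g m) (hκ.1 m) (fun j => hkr j m)
      (fun n u => (Finset.range (n + 1)).image u) ?_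
    intro n u v huv
    refine Finset.image_congr fun i hi => huv i ?_
    have := Finset.mem_range.1 (Finset.mem_coe.1 hi)
    omega
  · intro f c
    set f' : ℕ → ℕ := fun n => n + ∑ j ∈ Finset.range (n + 1), f j with hf'
    have hf1 : ∀ n, n ≤ f' n := fun n => Nat.le_add_right _ _
    have hf2 : ∀ n, f n ≤ f' n := fun n =>
      (case1_sum_le f n n le_rfl).trans (Nat.le_add_left _ _)
    refine h.up₂ (hall f') (hκ.2 c) (fun m => ?_) ?_
    · refine Ctn.comp (X := fun g => (Finset.range (κ g m + 1)).image fun j => k j g m) ?_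
        (fun s => c ≤ s.card ∧ Fast f s)
      refine Ctn.upto (N := fun g => κ g m) (Y := fun j g => k j g m) (hκ.1 m) (fun j => hkr j m)
        (fun n u => (Finset.range (n + 1)).image u) ?_
      intro n u v huv
      refine Finset.image_congr fun i hi => huv i ?_
      have := Finset.mem_range.1 (Finset.mem_coe.1 hi)
      omega
    · intro g _ m h1 h2
      have h3 := case1_chain hf1 (u := fun j => k j g m) h1
      have hinj : Set.InjOn (fun j => k j g m) (Finset.range (κ g m + 1) : Finset ℕ) := by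
        intro i hi j hj hij
        have hi' := Finset.mem_range.1 (Finset.mem_coe.1 hi)
        have hj' := Finset.mem_range.1 (Finset.mem_coe.1 hj)
        have hij' : k i g m = k j g m := hij
        by_contra hne
        rcases Nat.lt_or_gt_of_ne hne with h4 | h4
        · have h5 : f' (k j g m) < k i g m := h3 j (by omega) i h4
          have h6 := hf1 (k j g m)
          omega
        · have h5 : f' (k i g m) < k j g m := h3 i (by omega) j h4
          have h6 := hf1 (k i g m)
          omega
      refine ⟨?_, ?_⟩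
      · rw [Finset.card_image_of_injOn hinj, Finset.card_range]
        omega
      · intro a ha b hb hab
        obtain ⟨i, hi, rfl⟩ := Finset.mem_image.1 ha
        obtain ⟨j, hj, rfl⟩ := Finset.mem_image.1 hb
        have hi' := Finset.mem_range.1 hi
        have hj' := Finset.mem_range.1 hj
        rcases Nat.lt_trichotomy i j with h4 | h4 | h4
        · have h5 : f' (k j g m) < k i g m := h3 j (by omega) i h4
          have h6 := hf1 (k j g m)
          have h7 : k i g m < k j g m := hab
          omega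
        · rw [h4] at hab
          exact absurd hab (lt_irrefl _)
        · have h5 : f' (k i g m) < k j g m := h3 i (by omega) j h4
          exact lt_of_le_of_lt (hf2 _) h5

end SV
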