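import Pool.Agent.H79.SV.Case2L

/-!
# CASE2: if the infinite elements depending on `A` are coinitial, then `U` is flat

Suppose there is no flat witness below `p₀`. Take everything from `case2_low`. Put `S g m = (Finset.range (H g m + 1)).image fun j => x j g m`, a name below
`q` (`Ctn.upto`). As `¬ FlatWit FU q` there are `f`, `k` such that `k ≤ card ∧ Fast f (S g m)` is not forced by `q`. Let `f'` be
monotone with `f ≤ f'` and `n ≤ f' n`. If `q` forces `∀ j < H, f' (x (j+1)) < x j`, then the `x j`, `j ≤ H` are strictly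
decreasing, `card = H + 1` and `Fast f S`; together with `k ≤ H` this is a contradiction. So (`h.exists_not`) some `r ≤ q` forces `∃ j < H, x j ≤ f' (x (j+1))`. Let
`j g m` be the least such `j` (`Nat.find`, or `0` if there is none; or: `Nat.findGreatest` of `fun j => ∀ i < j, ¬ (i < H ∧ x i ≤ f' (x (i+1)))` up to `H`, so that
continuity and `Dep A` are easy); `a g m = x (j g m) g m`, `hh g m = x (j g m + 1) g m`. These depend on `A` and are names below `r` (`Ctn.bind`).
`hlow f''`: with a monotone `f''' ≥ f''`, `f''' ≥ id`: `f''(j) ≤ f'''(H) < y₀ ≤ x j = a` because `j < H ≤ f'''(H) < y₀`. `hg`: `a ≤ f' (hh)`. `main_lemma` at `r` with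
`I g j μ = I j g μ` says that `r` does not force the congruence for `j`; but it does since `j < H ≤ Kn`: contradiction.
-/

set_option autoImplicit false

namespace SV

open Cond

variable {K : Type} {p₀ : Cond K} {FU : Cond K → (Gen K → ℕ → Prop) → Prop}

/-- a monotone function above `f` and above the identity -/
theorem case2_mono_ge (f : ℕ → ℕ) :
    ∃ f' : ℕ → ℕ, Monotone f' ∧ (∀ n, f n ≤ f' n) ∧ ∀ n, n ≤ f' n := by
  refine ⟨fun n => (∑ i ∈ Finset.range (n + 1), f i) + n, ?_, ?_, ?_⟩
  · intro m n hmn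
    have h1 : Finset.range (m + 1) ⊆ Finset.range (n + 1) :=
      Finset.range_subset_range.2 (by omega)
    have h2 : ∑ i ∈ Finset.range (m + 1), f i ≤ ∑ i ∈ Finset.range (n + 1), f i :=
      Finset.sum_le_sum_of_subset h1
    show (∑ i ∈ Finset.range (m + 1), f i) + m ≤ (∑ i ∈ Finset.range (n + 1), f i) + n
    omega
  · intro n
    have h1 : f n ≤ ∑ i ∈ Finset.range (n + 1), f i :=
      Finset.single_le_sum (f := f) (fun _ _ => Nat.zero_le _) (Finset.mem_range.2 (by omega))
    show f n ≤ (∑ i ∈ Finset.range (n + 1), f i) + n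
    omega
  · intro n
    show n ≤ (∑ i ∈ Finset.range (n + 1), f i) + n
    omega

/-- a sequence decreasing fast gives a fast set -/
theorem case2_fast_image {f f' : ℕ → ℕ} (hm : Monotone f') (hle : ∀ n, f n ≤ f' n)
    (hid : ∀ n, n ≤ f' n) {x : ℕ → ℕ} {H k : ℕ} (hx : ∀ j < H, f' (x (j + 1)) < x j)
    (hk : k ≤ H) : k ≤ ((Finset.range (H + 1)).image x).card ∧
      Fast f ((Finset.range (H + 1)).image x) := by
  have h1 : ∀ i j, i < j → j ≤ H → f' (x j) < x i := by
    intro i j hij
    induction j with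
    | zero => omega
    | succ j ih =>
      intro hj
      rcases Nat.lt_succ_iff_lt_or_eq.1 hij with h2 | h2
      · have h3 := ih h2 (by omega)
        have h4 := hx j (by omega)
        have h5 := hm (le_trans (hid (x (j + 1))) h4.le)
        exact lt_of_le_of_lt h5 h3
      · rw [h2]
        exact hx j (by omega)
  have h2 : ∀ i j, i < j → j ≤ H → x j < x i := fun i j hij hj =>
    lt_of_le_of_lt (hid _) (h1 i j hij hj)
  constructor
  · rw [Finset.card_image_of_injOn, Finset.card_range]
    · omega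
    · intro i hi j hj hij
      have hi' := Finset.mem_range.1 (Finset.mem_coe.1 hi)
      have hj' := Finset.mem_range.1 (Finset.mem_coe.1 hj)
      rcases lt_trichotomy i j with h3 | h3 | h3
      · have := h2 i j h3 (by omega)
        omega
      · exact h3
      · have := h2 j i h3 (by omega)
        omega
  · intro a ha c hc hac
    obtain ⟨i, hi, rfl⟩ := Finset.mem_image.1 ha
    obtain ⟨j, hj, rfl⟩ := Finset.mem_image.1 hc
    have hi' := Finset.mem_range.1 hi
    have hj' := Finset.mem_range.1 hj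
    rcases lt_trichotomy i j with h3 | h3 | h3
    · have := h2 i j h3 (by omega)
      omega
    · rw [h3] at hac
      exact absurd hac (lt_irrefl _)
    · exact lt_of_le_of_lt (hle _) (h1 j i h3 (by omega))

theorem case2 [Infinite K] (h : IsU p₀ FU) {A : Set K} (hA : Good p₀ FU A) {b : K}
    (hb : b ∉ A) {q₀ : Cond K} (hq₀ : q₀ ≤ p₀) (hc : Coin FU A q₀) :
    ∃ q, q ≤ p₀ ∧ FlatWit FU q := by
  by_contra hcon
  push Not at hcon
  obtain ⟨q, hq, x, I, H, y₀, hxA, hxN, hI, hHA, hH, hy, hcong, hyx, hf⟩ :=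
    case2_low h hA hb hq₀ hc
  have hqp : q ≤ p₀ := hq.trans hq₀
  set S : Gen K → ℕ → Finset ℕ := fun g m => (Finset.range (H g m + 1)).image fun j => x j g m
    with hS
  have hSN : Nm q S := by
    intro m
    refine Ctn.upto (N := fun g => H g m) (Y := fun j g => x j g m) (hH.1 m) (fun j => hxN j m)
      (fun n u => (Finset.range (n + 1)).image u) ?_
    intro n u v huv
    refine Finset.image_congr fun i hi => huv i ?_
    have := Finset.mem_coe.1 hi
    rw [Finset.mem_range] at this
    omega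
  have hnf := hcon q hqp
  unfold FlatWit at hnf
  push Not at hnf
  obtain ⟨f, k, hfk⟩ := hnf S hSN
  obtain ⟨f', hf'm, hff', hf'i⟩ := case2_mono_ge f
  have hφN : Nm q fun g m => ∀ j < H g m, f' (x (j + 1) g m) < x j g m := by
    intro m
    refine Ctn.bind (N := fun g => H g m) (X := fun n g => ∀ j < n, f' (x (j + 1) g m) < x j g m)
      (hH.1 m) fun n => ?_
    exact Ctn.ball_lt (fun j => (hxN (j + 1) m).comp₂ (hxN j m) fun s t => f' s < t) n
  have hnφ : ¬ FU q fun g m => ∀ j < H g m, f' (x (j + 1) g m) < x j g m := by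
    intro hφ
    refine hfk (h.up₂ hφ (hH.2 k) (fun m => ?_) ?_)
    · exact (hSN m).comp fun s => k ≤ s.card ∧ Fast f s
    · intro g _ m h1 h2
      exact case2_fast_image hf'm hff' hf'i h1 h2
  obtain ⟨r, hr, hrφ⟩ := h.exists_not hqp hφN hnφ
  have hrp : r ≤ p₀ := hr.trans hqp
  obtain ⟨P, hP⟩ : ∃ P : ℕ → Gen K → ℕ → Prop,
      ∀ j g m, P j g m ↔ ∀ i < j, f' (x (i + 1) g m) < x i g m := ⟨_, fun _ _ _ => Iff.rfl⟩
  have hPN : ∀ j m, Ctn q fun g => P j g m := by
    intro j m
    refine Ctn.congr (Ctn.ball_lt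
      (fun j => (hxN (j + 1) m).comp₂ (hxN j m) fun s t => f' s < t) j) ?_
    intro g _
    exact propext (hP j g m)
  classical
  set J : Gen K → ℕ → ℕ := fun g m => Nat.findGreatest (fun j => P j g m) (H g m) with hJ
  have hJN : Nm r J := by
    intro m
    exact (Ctn.findGreatest (N := fun g => H g m) (φ := fun j g => P j g m) (hH.1 m)
      fun j => hPN j m).mono hr
  have hJH : ∀ g m, J g m ≤ H g m := fun g m => Nat.findGreatest_le _
  have hJs : ∀ g m, (¬ ∀ j < H g m, f' (x (j + 1) g m) < x j g m) →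
      J g m < H g m ∧ x (J g m) g m ≤ f' (x (J g m + 1) g m) := by
    intro g m h1
    have hspec : ∀ i < J g m, f' (x (i + 1) g m) < x i g m :=
      (hP _ g m).1 (Nat.findGreatest_spec (P := fun j => P j g m)
        (Nat.zero_le (H g m)) ((hP 0 g m).2 fun i hi => absurd hi (Nat.not_lt_zero i)))
    have hlt : J g m < H g m := by
      rcases Nat.lt_or_ge (J g m) (H g m) with h2 | h2
      · exact h2
      · exact absurd (fun j hj => hspec j (lt_of_lt_of_le hj h2)) h1
    refine ⟨hlt, ?_⟩
    by_contra h3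
    rw [not_le] at h3
    have h4 : ¬ P (J g m + 1) g m :=
      Nat.findGreatest_is_greatest (P := fun j => P j g m) (Nat.lt_succ_self _) hlt
    refine h4 ((hP _ g m).2 fun i hi => ?_)
    rcases Nat.lt_succ_iff_lt_or_eq.1 hi with h5 | h5
    · exact hspec i h5
    · rw [h5]; exact h3
  have hxAm : ∀ (g g' : Gen K), (∀ a ∈ A, g a = g' a) → ∀ j m, x j g m = x j g' m :=
    fun g g' hg j m => congrFun (hxA j g g' hg) m
  have hHAm : ∀ (g g' : Gen K), (∀ a ∈ A, g a = g' a) → ∀ m, H g m = H g' m :=
    fun g g' hg m => congrFun (hHA g g' hg) m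
  have hJA : ∀ (g g' : Gen K), (∀ a ∈ A, g a = g' a) → ∀ m, J g m = J g' m := by
    intro g g' hg m
    have h1 : ∀ j, P j g m = P j g' m := by
      intro j
      rw [hP, hP]
      simp only [hxAm g g' hg]
    simp only [hJ, h1, hHAm g g' hg]
  have haN : Nm r fun g m => x (J g m) g m := fun m =>
    Ctn.bind (N := fun g => J g m) (X := fun j g => x j g m) (hJN m) fun j => (hxN j m).mono hr
  have hhN : Nm r fun g m => x (J g m + 1) g m := fun m =>
    Ctn.bind (N := fun g => J g m) (X := fun j g => x (j + 1) g m) (hJN m)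
      fun j => (hxN (j + 1) m).mono hr
  have haA : Dep A fun g m => x (J g m) g m := by
    intro g g' hg
    funext m
    show x (J g m) g m = x (J g' m) g' m
    rw [hJA g g' hg m, hxAm g g' hg]
  have hIN : ∀ j μ, Ctn r fun g => I j g μ := fun j μ => ((hI j).nm μ).mono hr
  refine main_lemma h hA hb hrp (a := fun g m => x (J g m) g m) (j := J)
    (hh := fun g m => x (J g m + 1) g m) (I := fun g j μ => I j g μ) haN haA hJN hhN hIN
    (fun g hg j μ ν hμν => (hI j).coh g (pts_mono hr hg) μ ν hμν) ?_ f' ?_ ?_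
  · intro f''
    obtain ⟨f3, hm3, hle3, hid3⟩ := case2_mono_ge f''
    refine h.up r _ _ (h.mono _ _ _ hr (hf f3)) (fun m => ?_) ?_
    · exact (hJN m).comp₂ (haN m) fun s t => f'' s ≤ t
    · intro g _ m h1
      have h2 : J g m ≤ H g m := hJH g m
      have h3 : H g m ≤ f3 (H g m) := hid3 _
      have h4 : f'' (J g m) ≤ f3 (J g m) := hle3 _
      have h5 : f3 (J g m) ≤ f3 (H g m) := hm3 h2
      have h6 : y₀ g m ≤ x (J g m) g m := hyx g m (J g m) (by omega)
      show f'' (J g m) ≤ x (J g m) g m
      omega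
  · refine h.up r _ _ hrφ (fun m => ?_) ?_
    · exact (haN m).comp₂ (hhN m) fun s t => s ≤ f' t
    · intro g _ m h1
      exact (hJs g m h1).2
  · refine h.up₂ hrφ (h.mono _ _ _ hr hcong) (fun m => ?_) ?_
    · refine Ctn.bind (N := fun g => J g m)
        (X := fun j g => cnt b g (x j g m) ≡ I j g (x (j + 1) g m) [MOD 2 ^ (x (j + 1) g m)])
        (hJN m) fun j => ?_
      refine Ctn.bind (N := fun g => x (j + 1) g m)
        (X := fun t g => cnt b g (x j g m) ≡ I j g t [MOD 2 ^ t])
        ((hxN (j + 1) m).mono hr) fun t => ?_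
      exact (Ctn.cnt b ((hxN j m).mono hr)).comp₂ (hIN j t) fun u v => u ≡ v [MOD 2 ^ t]
    · intro g _ m h1 h2
      exact h2 _ (hJs g m h1).1

end SV
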