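import Pool.Agent.H79.SV.Fu

/-!
# GOOD: good sets of columns

`Good p₀ FU A`: for names `φ` which depend on the columns in `A` the truth of `φ ∈ U` is decided by conditions which
live on `A`.

`Good.res`. `Nm (p.res A) φ` is `Nm.res`, `p.res A ≤ p₀` because `p₀.On A` (`On.res_le`). Use `h.dense` for `p.res A`: let
`q ≤ p.res A`, `h.dec` gives `r ≤ q` with `FU r φ` (fine) or `FU r (¬ φ)`. In the second case apply `hA.2` to
`r.res A` (`≤ p₀`, on `A`, `≤ p.res A` by `res_mono`, `res_res`; `Nm (r.res A) φ`): there is `s ≤ r.res A`, `s.On A`, which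
decides `φ`. If `FU s φ`, then `glue A s r` (`≤ s` by `glue_le_left`, `≤ r` by `glue_le_right`) forces `φ` and `¬ φ`; if
`FU s (¬ φ)`, then `glue A s p` (`≤ s`, `≤ p`) forces `φ` and `¬ φ`: contradiction (`h.false_not`).

`exists_good`. For `a : ℕ → K` and `τ = (p', φ') : (ℕ → ℕ → Option Bool) × ((ℕ → ℕ → Bool) → ℕ → Prop)` let
`G a τ` be a countable set of columns such that: if there is a condition `p ≤ p₀`, `p.On (range a)`, with
`p.val (a i) n = p' i n` for all `i`, `n` (there is at most one), and `φ = fun g => φ' (fun i => g (a i))` satisfies `Nm p φ`, then there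
is `q ≤ p`, `q.On (G a τ)`, which decides `φ` (`h.dec`). The index set of all `τ` has cardinality `2 ^ 𝔠`. Let `A` be the closure
of `S ∪ (support of p₀)` under: if `a i ∈ A` for all `i`, then `G a τ ⊆ A` for all `τ`. Choose enumerations
`G a τ = range (k ↦ γ a τ k)`: `A` is the set of the values of well-founded trees (`WType` with the nodes: constants `s ∈ S'` with no
children, and pairs `(τ, k)` with `ℕ` children), there are at most `2 ^ 𝔠` of them by `WType.cardinalMk_le_of_le'`
(`(2 ^ 𝔠) ^ ℵ₀ = 2 ^ 𝔠`); compare `Pool/Agent/H92/PG` `exists_closed`, which may be usable. `A` is good: given `p`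
and `φ` on `A`: the support of `p` is countable; `φ` depends on `A` and `Nm p φ`: by `exists_dep` (module `Unif`, if its set `A'` is
not inside `A` intersect it: see the note) `φ` agrees on `p.pts` with a name which depends on a countable subset of `A`.
Note: to get a countable `A' ⊆ A`: let `F m` be from `Ctn.unif`; `A' = (support of p) ∪ (first coordinates of the F m, in A)`,
`φ₁ g = φ (p.fill (g on A', false elsewhere))`; for `g ∈ p.pts` the functions `g` and `p.fill (g on A', false elsewhere)` do not agree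
on the `F m`, but let `g₁` be `g` on `A`, `p.fill (fun _ _ => false)` outside of `A`; then `φ g = φ g₁` (`Dep A φ`) and `g₁`
agrees with `p.fill (g on A', false elsewhere)` on all `F m` and both are in `p.pts`.
-/

set_option autoImplicit false

namespace SV

open Cond Cardinal

variable {K : Type} {p₀ : Cond K} {FU : Cond K → (Gen K → ℕ → Prop) → Prop}

/-- good sets of columns -/
def Good (p₀ : Cond K) (FU : Cond K → (Gen K → ℕ → Prop) → Prop) (A : Set K) : Prop :=
  p₀.On A ∧ ∀ p φ, p ≤ p₀ → p.On A → Dep A φ → Nm p φ →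
    ∃ q, q ≤ p ∧ q.On A ∧ (FU q φ ∨ FU q fun g m => ¬ φ g m)

theorem Good.res_le {A : Set K} (hA : Good p₀ FU A) {p : Cond K} (hp : p ≤ p₀) :
    p.res A ≤ p₀ := hA.1.res_le hp

theorem Good.res (h : IsU p₀ FU) {A : Set K} (hA : Good p₀ FU A) {p : Cond K}
    {φ : Gen K → ℕ → Prop} (hφ : Dep A φ) (hp : FU p φ) : FU (p.res A) φ := by
  have hpp : p ≤ p₀ := h.le _ _ hp
  have hn : Nm (p.res A) φ := (h.nm _ _ hp).res hφ
  refine h.dense _ _ (hA.res_le hpp) hn fun q hq => ?_
  obtain ⟨r, hr, h1 | h1⟩ := h.dec q φ (hq.trans (hA.res_le hpp)) (hn.mono hq)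
  · exact ⟨r, hr, h1⟩
  · exfalso
    have hr0 : r ≤ p₀ := (hr.trans hq).trans (hA.res_le hpp)
    have hrA : r.res A ≤ p.res A := by
      have := res_mono A (hr.trans hq)
      rwa [res_res] at this
    obtain ⟨s, hs, hsA, h2 | h2⟩ := hA.2 (r.res A) φ (hA.res_le hr0) (res_on r A) hφ (hn.mono hrA)
    · exact h.false_not (h.mono _ _ _ (glue_le_left hsA) h2)
        (h.mono _ _ _ (glue_le_right hs) h1)
    · exact h.false_not (h.mono _ _ _ (glue_le_right (hs.trans hrA)) hp)
        (h.mono _ _ _ (glue_le_left hsA) h2)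

end SV
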