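import Pool.Agent.H79.SV.Branch
import Pool.Agent.H79.SV.Good

/-!
# MAINL: the Main Lemma

Proof. Replace `g₀` by a monotone function above it (`n ↦ ∑ i ∈ range (n + 1), g₀ i`). Suppose the statement is
forced by `p`. Let `q`, `κ`, `μ`, `y` be from `branches`. Define the sets of natural numbers
`Gd e i = {a | ∀ g ∈ (q e i).pts, ∀ j ≤ κ a, ¬ cnt b g a ≡ I g j (μ a) [MOD 2 ^ μ a]}`. Let
`qA = (q false false).res A = (q e i).res A ≤ p.res A`. By `hlow` (constant function `y`), `Good.res` and `h.mono`: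
`FU qA (y ≤ a)`, so (`h.up`) `FU qA (∃ e i, a ∈ Gd e i)`; use `Good` four times (or code the four pairs by `i < 4` and argue as in
`IsU.ex_lt`): there is `q' ≤ qA`, `q'.On A`, and `e`, `i` with `FU q' (a ∈ Gd e i)` (if `FU` of all four negations holds below,
contradiction). Put `r = glue A q' (q e i)`, `r ≤ q'` and `r ≤ q e i ≤ p`. Let `f j` be such that `y ≤ f j` and
`∀ a ≥ f j, j ≤ κ a`. At `r` the statements `a ∈ Gd e i`, `f (j) ≤ a`, `a ≤ g₀ (h)` and the congruence are forced, so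
there are `g ∈ r.pts` and `m` for which all of them hold. Then `j g m ≤ κ (a g m)`, so
`cnt b g (a g m)` is not congruent to `I g (j g m) (μ (a g m))` modulo `2 ^ μ (a g m)`. But `g₀ (μ (a g m)) < a g m ≤ g₀ (hh g m)`, so
`μ (a g m) ≤ hh g m`, and the congruence modulo `2 ^ hh g m` with `hIc` gives the congruence modulo `2 ^ μ (a g m)`: contradiction.
-/

set_option autoImplicit false

open Filter

namespace SV

open Cond

variable {K : Type} {p₀ : Cond K} {FU : Cond K → (Gen K → ℕ → Prop) → Prop}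

theorem main_lemma [Infinite K] (h : IsU p₀ FU) {A : Set K} (hA : Good p₀ FU A) {b : K}
    (hb : b ∉ A) {p : Cond K} (hp : p ≤ p₀) {a j hh : Gen K → ℕ → ℕ} (ha : Nm p a) (haA : Dep A a)
    (hj : Nm p j) (hhn : Nm p hh) {I : Gen K → ℕ → ℕ → ℕ} (hI : ∀ j μ, Ctn p fun g => I g j μ)
    (hIc : ∀ g ∈ p.pts, ∀ j μ ν, μ ≤ ν → I g j ν ≡ I g j μ [MOD 2 ^ μ])
    (hlow : ∀ f : ℕ → ℕ, FU p fun g m => f (j g m) ≤ a g m)
    (g₀ : ℕ → ℕ) (hg : FU p fun g m => a g m ≤ g₀ (hh g m)) :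
    ¬ FU p fun g m => cnt b g (a g m) ≡ I g (j g m) (hh g m) [MOD 2 ^ (hh g m)] := by
  classical
  intro hc
  set g₁ : ℕ → ℕ := fun n => ∑ i ∈ Finset.range (n + 1), g₀ i with hg₁
  have hg₁m : Monotone g₁ := by
    intro m n hmn
    exact Finset.sum_le_sum_of_subset (Finset.range_mono (by omega))
  have hg₁l : ∀ n, g₀ n ≤ g₁ n := fun n =>
    Finset.single_le_sum (f := g₀) (fun _ _ => Nat.zero_le _) (Finset.self_mem_range_succ n)
  obtain ⟨q, κ, μ, y, hq, hres, hκ, hμ, hgood⟩ := branches (b := b) hI g₁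
  set Gd : Bool → Bool → Set ℕ := fun e i =>
    {a | ∀ g ∈ (q e i).pts, ∀ j ≤ κ a, ¬ cnt b g a ≡ I g j (μ a) [MOD 2 ^ (μ a)]} with hGd
  set qA : Cond K := (q false false).res A with hqA
  have hresA : ∀ e i, (q e i).res A = qA := fun e i => hres e i A hb
  have hqA0 : qA ≤ p₀ := hA.res_le ((hq _ _).trans hp)
  have haq : Nm qA a := (ha.mono (hq false false)).res haA
  have hy : FU qA fun g m => y ≤ a g m := by
    refine hA.res h (φ := fun g m => y ≤ a g m) ?_ (h.mono _ _ _ (hq false false) (hlow fun _ => y))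
    intro g g' hgg
    funext m
    show (y ≤ a g m) = (y ≤ a g' m)
    rw [congrFun (haA g g' hgg) m]
  -- the four statements
  set φ : ℕ → Gen K → ℕ → Prop := fun i g m =>
    a g m ∈ Gd (decide (i / 2 = 1)) (decide (i % 2 = 1)) with hφ
  have hφd : ∀ i, Dep A (φ i) := by
    intro i g g' hgg
    funext m
    simp only [hφ]
    rw [congrFun (haA g g' hgg) m]
  have hφn : ∀ i, Nm qA (φ i) := fun i m =>
    (haq m).comp (· ∈ Gd (decide (i / 2 = 1)) (decide (i % 2 = 1)))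
  have hor : FU qA fun g m => ∃ i < 4, φ i g m := by
    refine h.up _ _ _ hy (fun m => ?_) fun g _ m hm => ?_
    · exact (haq m).comp fun x => ∃ i < 4, x ∈ Gd (decide (i / 2 = 1)) (decide (i % 2 = 1))
    · obtain ⟨e, i, hei⟩ := hgood _ hm
      cases e <;> cases i
      · exact ⟨0, by norm_num, by simpa [hφ, hGd] using hei⟩
      · exact ⟨1, by norm_num, by simpa [hφ, hGd] using hei⟩
      · exact ⟨2, by norm_num, by simpa [hφ, hGd] using hei⟩
      · exact ⟨3, by norm_num, by simpa [hφ, hGd] using hei⟩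
  have hdec : ∀ k, (∃ q', q' ≤ qA ∧ q'.On A ∧ ∃ i, FU q' (φ i)) ∨
      ∃ q', q' ≤ qA ∧ q'.On A ∧ FU q' fun g m => ∀ i < k, ¬ φ i g m := by
    intro k
    induction k with
    | zero =>
      exact Or.inr ⟨qA, le_rfl, res_on _ _, h.all hqA0
        (fun m => (Ctn.const True).congr fun g _ => by simp) fun g _ m i hi => by omega⟩
    | succ k ih =>
      rcases ih with ih | ⟨q', hq', hq'A, h3⟩
      · exact Or.inl ih
      · obtain ⟨r, hr, hrA, h4 | h4⟩ := hA.2 q' (φ k) (hq'.trans hqA0) hq'A (hφd k)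
          ((hφn k).mono hq')
        · exact Or.inl ⟨r, hr.trans hq', hrA, k, h4⟩
        · refine Or.inr ⟨r, hr.trans hq', hrA, h.up₂ (h.mono _ _ _ hr h3) h4 (fun m => ?_)
            fun g _ m h5 h6 i hi => ?_⟩
          · exact Ctn.ball_lt (fun i => ((hφn i m).mono (hr.trans hq')).comp Not) (k + 1)
          · rcases Nat.lt_succ_iff_lt_or_eq.1 hi with h7 | h7
            · exact h5 i h7
            · rw [h7]; exact h6
  obtain ⟨q', hq', hq'A, i, hi⟩ : ∃ q', q' ≤ qA ∧ q'.On A ∧ ∃ i, FU q' (φ i) := by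
    rcases hdec 4 with h1 | ⟨q', hq', -, h3⟩
    · exact h1
    · exfalso
      exact h.false_of (h.mono _ _ _ hq' hor) h3 fun g _ m ⟨i, hi, h4⟩ h5 => h5 i hi h4
  set e : Bool := decide (i / 2 = 1) with he
  set i' : Bool := decide (i % 2 = 1) with hi'
  set r : Cond K := glue A q' (q e i') with hr
  have hrq' : r ≤ q' := glue_le_left hq'A
  have hrq : r ≤ q e i' := glue_le_right (by rw [hresA]; exact hq')
  have hrp : r ≤ p := hrq.trans (hq e i')
  have hf : ∀ j, ∃ N, ∀ x, N ≤ x → j ≤ κ x := fun j =>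
    Filter.eventually_atTop.1 (hκ.eventually_ge_atTop j)
  choose N hN using hf
  have h1 : FU r fun g m => max y (N (j g m)) ≤ a g m :=
    h.mono _ _ _ hrp (hlow fun j => max y (N j))
  have h2 : FU r (φ i) := h.mono _ _ _ hrq' hi
  have h3 : FU r fun g m => a g m ≤ g₀ (hh g m) := h.mono _ _ _ hrp hg
  have h4 := h.mono _ _ _ hrp hc
  obtain ⟨g, hgr, m, ⟨h5, h6⟩, h7, h8⟩ := h.ex (h.inter _ _ _ (h.inter _ _ _ h1 h2) (h.inter _ _ _ h3 h4))
  have hya : y ≤ a g m := (le_max_left _ _).trans h5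
  have hjκ : j g m ≤ κ (a g m) := hN _ _ ((le_max_right _ _).trans h5)
  have hlt : g₁ (μ (a g m)) < g₁ (hh g m) := (hμ _ hya).trans_le (h7.trans (hg₁l _))
  have hle : μ (a g m) ≤ hh g m := by
    by_contra hcon
    exact absurd (hg₁m (not_le.1 hcon).le) (not_le.2 hlt)
  have h9 : ¬ cnt b g (a g m) ≡ I g (j g m) (μ (a g m)) [MOD 2 ^ (μ (a g m))] :=
    h6 g (pts_mono hrq hgr) (j g m) hjκ
  exact h9 ((h8.of_dvd (pow_dvd_pow 2 hle)).trans (hIc g (pts_mono hrp hgr) _ _ _ hle))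

end SV
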