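import Pool.Agent.H79.SV.Step
import Pool.Agent.H79.SV.MainL

/-!
# CASE2L: if the infinite elements depending on `A` are coinitial: the sequence and the bound

`case2_low`. Let `q`, `x`, `I` be from `exists_seq`.
* `Kn g m = Nat.findGreatest (fun n => ∀ j < n, cnt b g (x j g m) ≡ I j g (x (j+1) g m) [MOD 2 ^ x (j+1) g m]) m`: infinite
  (`Infn.findGreatest`, `h.all_lt`), and the congruences hold for all `j < Kn g m`.
* `y₀ g m = Nat.findGreatest (fun l => l ≤ x l g m) m`: `Dep A y₀`, infinite, `y₀ g m ≤ x j g m` for `j ≤ y₀ g m`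
  (the `x j` decrease in `j`).
* `exists_lim` for `y₀` (with `F = ∅`) gives `q₂ ≤ q`, `I⁰`; `exists_v` gives `v`. `hc` twice (for `Kn` and for `v`): `q₃ ≤ q₂` and
  `H = min H₁ H₂` with `Dep A H`, `Infn FU q₃ H`, `FU q₃ (H ≤ Kn)`, `FU q₃ (H ≤ v)`.
* For all `f`: `FU q₃ (f (H) < y₀)`: otherwise (`h.exists_not`) some `s ≤ q₃` forces `y₀ ≤ f (H)`: contradiction to `main_lemma` at `s` with
  `a = y₀`, `j = 0`, `hh = H`, `I g j μ = I⁰ g μ`, `g₀ = f` (`hlow f`: `f 0 ≤ y₀` since `y₀` is infinite; the congruence at `H` holds where `H ≤ v`).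
-/

set_option autoImplicit false

namespace SV

open Cond

variable {K : Type} {p₀ : Cond K} {FU : Cond K → (Gen K → ℕ → Prop) → Prop}

/-- the congruence at a continuous place is a name -/
theorem c2l_cong {b : K} {p : Cond K} {x y : Gen K → ℕ} {I : Gen K → ℕ → ℕ}
    (hx : Ctn p x) (hy : Ctn p y) (hI : ∀ n, Ctn p fun g => I g n) :
    Ctn p fun g => cnt b g (x g) ≡ I g (y g) [MOD 2 ^ (y g)] :=
  Ctn.comp₃ (X := fun g => cnt b g (x g)) (Y := fun g => I g (y g)) (Z := y) (Ctn.cnt b hx)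
    (Ctn.bind (N := y) (X := fun n g => I g n) hy hI) hy fun u v n => u ≡ v [MOD 2 ^ n]

theorem case2_low [Infinite K] (h : IsU p₀ FU) {A : Set K} (hA : Good p₀ FU A) {b : K}
    (hb : b ∉ A) {q₀ : Cond K} (hq₀ : q₀ ≤ p₀) (hc : Coin FU A q₀) : ∃ q, q ≤ q₀ ∧
      ∃ (x I : ℕ → Gen K → ℕ → ℕ) (H y₀ : Gen K → ℕ → ℕ), (∀ j, Dep A (x j)) ∧
      (∀ j, Nm q (x j)) ∧ (∀ j, IsLim FU b q (x j) (I j)) ∧ Dep A H ∧ Infn FU q H ∧ Nm q y₀ ∧
      (FU q fun g m => ∀ j < H g m,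
        cnt b g (x j g m) ≡ I j g (x (j + 1) g m) [MOD 2 ^ (x (j + 1) g m)]) ∧
      (∀ g m, ∀ j ≤ y₀ g m, y₀ g m ≤ x j g m) ∧
      ∀ f : ℕ → ℕ, FU q fun g m => f (H g m) < y₀ g m := by
  classical
  obtain ⟨q, hq, x, I, hxA, hx, hdec, hlim, hcong⟩ := exists_seq h hA hq₀ hc b
  have hqp : q ≤ p₀ := hq.trans hq₀
  have hcn : ∀ j, Nm q fun g m =>
      cnt b g (x j g m) ≡ I j g (x (j + 1) g m) [MOD 2 ^ (x (j + 1) g m)] := fun j m =>
    c2l_cong ((hx j).1 m) ((hx (j + 1)).1 m) fun n => (hlim j).nm n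
  have hbn : ∀ n, Nm q fun g m => ∀ j < n,
      cnt b g (x j g m) ≡ I j g (x (j + 1) g m) [MOD 2 ^ (x (j + 1) g m)] := fun n m =>
    Ctn.ball_lt (fun j => hcn j m) n
  -- the number of congruences
  set Kn : Gen K → ℕ → ℕ := fun g m => Nat.findGreatest (fun n => ∀ j < n,
    cnt b g (x j g m) ≡ I j g (x (j + 1) g m) [MOD 2 ^ (x (j + 1) g m)]) m with hKn
  have hKinf : Infn FU q Kn := by
    have h0 := Infn.findGreatest (φ := fun n g m => ∀ j < n,
      cnt b g (x j g m) ≡ I j g (x (j + 1) g m) [MOD 2 ^ (x (j + 1) g m)]) h (Infn.id h hqp) hbn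
      fun n => h.all_lt hqp n fun j _ => hcong j
    refine ⟨h0.1.congr fun g _ m => ?_, fun c => ?_⟩
    · simp only [hKn]
      congr
    · have h1 := h0.2 c
      have h2 : Kn = fun g m => Nat.findGreatest (fun n => ∀ j < n,
          cnt b g (x j g m) ≡ I j g (x (j + 1) g m) [MOD 2 ^ (x (j + 1) g m)]) m := hKn
      refine h.up _ _ _ h1 (fun m => ?_) fun g _ m h3 => ?_
      · refine (h.nm _ _ h1 m).congr fun g _ => ?_
        simp only [hKn]
        congr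
      · refine h3.trans (le_of_eq ?_)
        simp only [hKn]
        congr
  have hKs : ∀ g m, ∀ j < Kn g m,
      cnt b g (x j g m) ≡ I j g (x (j + 1) g m) [MOD 2 ^ (x (j + 1) g m)] := by
    intro g m
    exact Nat.findGreatest_spec (P := fun n => ∀ j < n,
      cnt b g (x j g m) ≡ I j g (x (j + 1) g m) [MOD 2 ^ (x (j + 1) g m)]) (m := 0) (n := m)
      (Nat.zero_le m) (fun j hj => absurd hj (Nat.not_lt_zero j))
  -- the diagonal
  set y₀ : Gen K → ℕ → ℕ := fun g m => Nat.findGreatest (fun l => l ≤ x l g m) m with hy₀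
  have hyinf : Infn FU q y₀ := by
    have h0 := Infn.findGreatest (φ := fun l g m => l ≤ x l g m) h (Infn.id h hqp)
      (fun l m => ((hx l).1 m).comp (l ≤ ·)) fun l => (hx l).2 l
    refine ⟨h0.1.congr fun g _ m => ?_, fun c => ?_⟩
    · simp only [hy₀]
      congr
    · have h1 := h0.2 c
      refine h.up _ _ _ h1 (fun m => ?_) fun g _ m h3 => ?_
      · refine (h.nm _ _ h1 m).congr fun g _ => ?_
        simp only [hy₀]
        congr
      · refine h3.trans (le_of_eq ?_)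
        simp only [hy₀]
        congr
  have hyA : Dep A y₀ := by
    intro g g' hg
    funext m
    have h1 : ∀ l, x l g m = x l g' m := fun l => congrFun (hxA l g g' hg) m
    simp only [hy₀, h1]
  have hmono : ∀ g m, ∀ j l, j ≤ l → x l g m ≤ x j g m := by
    intro g m j l hjl
    induction hjl with
    | refl => exact le_rfl
    | step _ ih => exact (hdec _ g m).trans ih
  have hyx : ∀ g m, ∀ j ≤ y₀ g m, y₀ g m ≤ x j g m := by
    intro g m j hj
    have h1 : y₀ g m ≤ x (y₀ g m) g m :=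
      Nat.findGreatest_spec (P := fun l => l ≤ x l g m) (m := 0) (n := m) (Nat.zero_le m)
        (Nat.zero_le _)
    exact h1.trans (hmono g m j _ hj)
  -- the limit for the diagonal
  obtain ⟨q₂, hq₂, I₀, hI₀⟩ := exists_lim h b hqp (fr_empty q) hyinf.1
  have hq₂p : q₂ ≤ p₀ := hq₂.1.trans hqp
  obtain ⟨v, hv, hvs⟩ := exists_v h hq₂p (hyinf.1.mono hq₂.1) hI₀
  obtain ⟨q₂', hq₂', H₁, hH₁A, hH₁, hH₁K⟩ := hc q₂ Kn (hq₂.1.trans hq) (hKinf.mono h hq₂.1)
  obtain ⟨q₃, hq₃, H₂, hH₂A, hH₂, hH₂v⟩ := hc q₂' v ((hq₂'.trans hq₂.1).trans hq)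
    (hv.mono h hq₂')
  have hq₃₂ : q₃ ≤ q₂ := hq₃.trans hq₂'
  have hq₃q : q₃ ≤ q := hq₃₂.trans hq₂.1
  have hq₃p : q₃ ≤ p₀ := hq₃q.trans hqp
  set H : Gen K → ℕ → ℕ := fun g m => min (H₁ g m) (H₂ g m) with hH
  have hHA : Dep A H := by
    intro g g' hg
    funext m
    simp only [hH, congrFun (hH₁A g g' hg) m, congrFun (hH₂A g g' hg) m]
  have hHinf : Infn FU q₃ H := Infn.min h (hH₁.mono h hq₃) hH₂
  have hHK : FU q₃ fun g m => H g m ≤ Kn g m :=
    h.up _ _ _ (h.mono _ _ _ hq₃ hH₁K)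
      (fun m => (hHinf.1 m).comp₂ ((hKinf.1.mono hq₃q) m) (· ≤ ·))
      fun g _ m h1 => (min_le_left _ _).trans h1
  have hHv : FU q₃ fun g m => H g m ≤ v g m :=
    h.up _ _ _ hH₂v (fun m => (hHinf.1 m).comp₂ ((hv.1.mono hq₃₂) m) (· ≤ ·))
      fun g _ m h1 => (min_le_right _ _).trans h1
  refine ⟨q₃, hq₃q.trans hq, x, I, H, y₀, hxA, fun j => (hx j).1.mono hq₃q,
    fun j => (hlim j).mono h hq₃q, hHA, hHinf, hyinf.1.mono hq₃q, ?_, hyx, ?_⟩
  · refine h.up _ _ _ hHK (fun m => ?_) fun g _ m h1 j hj => hKs g m j (hj.trans_le h1)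
    exact Ctn.bind (N := fun g => H g m) (X := fun n g => ∀ j < n,
      cnt b g (x j g m) ≡ I j g (x (j + 1) g m) [MOD 2 ^ (x (j + 1) g m)]) (hHinf.1 m)
      fun n => ((hbn n).mono hq₃q) m
  · intro f
    have hn : Nm q₃ fun g m => f (H g m) < y₀ g m := fun m =>
      ((hHinf.1 m).comp f).comp₂ ((hyinf.1.mono hq₃q) m) (· < ·)
    by_contra hcon
    obtain ⟨s, hs, hs1⟩ := h.exists_not hq₃p hn hcon
    have hs2 : s ≤ q₂ := hs.trans hq₃₂
    refine main_lemma h hA hb (hs.trans hq₃p) (a := y₀) (j := fun _ _ => 0) (hh := H)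
      (I := fun g _ μ => I₀ g μ) (hyinf.1.mono (hs.trans hq₃q)) hyA (fun m => Ctn.const 0)
      (hHinf.1.mono hs) (fun _ μ => (hI₀.nm μ).mono hs2)
      (fun g hg _ μ ν => hI₀.coh g (pts_mono hs2 hg) μ ν)
      (fun f' => h.mono _ _ _ (hs.trans hq₃q) (hyinf.2 (f' 0))) f ?_ ?_
    · refine h.up _ _ _ hs1 (fun m => ((hyinf.1.mono (hs.trans hq₃q)) m).comp₂
        (((hHinf.1.mono hs) m).comp f) (· ≤ ·)) fun g _ m h1 => not_lt.1 h1
    · refine h.up _ _ _ (h.mono _ _ _ hs hHv) (fun m => ?_) fun g hg m h1 =>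
        hvs g (pts_mono hs2 hg) m _ h1
      exact c2l_cong ((hyinf.1.mono (hs.trans hq₃q)) m) ((hHinf.1.mono hs) m)
        fun n => (hI₀.nm n).mono hs2

end SV
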