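import Pool.Agent.H79.SV.Fe
import Pool.Agent.H79.SV.Good

/-!
# COIN: coinitiality of the infinite elements which depend on `A`

`Coin FU A q₀`: below `q₀` the infinite elements with names depending on `A` are coinitial in all infinite elements.

`Coin.ext`. Apply `finext` to `D s x = (Dep A x ∧ Infn FU s x ∧ FU s (x ≤ v))` below `r`: we get `r'`, `Ext F r' r`, and `t` which
depends only on the places in `F`, with `D (r'.add F g) (t g)` for all `g`. For `T : Finset (K × ℕ)` write `g_T` for the function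
`g_T a n = decide ((a, n) ∈ T)` and `x_T = t g_T`, `r_T = r'.add F g_T`. Put
`y g m = min of x_T g m` over all `T ⊆ F` such that for all `z ∈ F` with `z.1 ∈ A`: `z ∈ T ↔ g z.1 z.2 = true`
(`Finset.inf'` over a filter of `F.powerset`, or `sInf` of the set of these numbers; the set of these `T` contains `F.filter (g z = true)`).
* `Dep A y`: clear.
* If `g ∈ r'.pts` and `T` is admissible for `g`, then `g ∈ (r_T.res A).pts` (`mem_pts_res`). By `Ctn.res` the names `x_T` are continuous
  on `(r_T.res A).pts`. So `Nm r' y` (pointwise definition of `Ctn`: take the union of `F` and of the finite sets for the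
  admissible `T ⊆ F`).
* Let `s ≤ r'` and `g ∈ s.pts`, `s' = s.add F g`. For every `T ⊆ F` admissible for `g`: `s' ≤ r_T.res A` and by `Good.res`
  `FU (r_T.res A) (c ≤ x_T)`; all `g' ∈ s'.pts` have the same admissible sets; so `FU s' (c ≤ y)` (finitely many `T`; with the
  maximum: `h.all_lt` after enumerating `F.powerset`, or induction). Hence `FU r' (c ≤ y)` by `h.dense`.
* For the same `s'` and `T = F.filter (g z.1 z.2 = true)`: `r_T = r'.add F g` (`add_congr`, `Bool`), `s' ≤ r_T`, `FU s' (x_T ≤ v)`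
  and `y ≤ x_T` on `s'.pts`. So `FU r' (y ≤ v)` by `h.dense`.
-/

set_option autoImplicit false

namespace SV

open Cond

variable {K : Type} {p₀ : Cond K} {FU : Cond K → (Gen K → ℕ → Prop) → Prop}

/-- the infinite elements with names depending on `A` are coinitial in the infinite elements -/
def Coin (FU : Cond K → (Gen K → ℕ → Prop) → Prop) (A : Set K) (q₀ : Cond K) : Prop :=
  ∀ r k, r ≤ q₀ → Infn FU r k → ∃ r', r' ≤ r ∧ ∃ x, Dep A x ∧ Infn FU r' x ∧
    FU r' fun g m => x g m ≤ k g m

/-- finite intersections, indexed by a finite set -/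
theorem coin_all {ι : Type*} (h : IsU p₀ FU) {p : Cond K} (hp : p ≤ p₀)
    (φ : ι → Gen K → ℕ → Prop) (S : Finset ι) (hφ : ∀ i ∈ S, FU p (φ i)) :
    FU p fun g m => ∀ i ∈ S, φ i g m := by
  classical
  induction S using Finset.induction_on with
  | empty =>
    exact h.all hp (fun m => (Ctn.const True).congr fun g _ => by simp) fun g _ m i hi => by
      simp at hi
  | insert a S ha ih =>
    have h1 := ih fun i hi => hφ i (Finset.mem_insert_of_mem hi)
    have h2 := hφ a (Finset.mem_insert_self _ _)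
    have h3 := h.inter p _ _ h2 h1
    refine h.up p _ _ h3 (fun m => ?_) fun g _ m hm i hi => ?_
    · refine (h.nm _ _ h3 m).congr fun g _ => ?_
      apply propext
      constructor
      · exact fun h4 => ⟨h4 a (Finset.mem_insert_self _ _),
          fun i hi => h4 i (Finset.mem_insert_of_mem hi)⟩
      · rintro ⟨h4, h5⟩ i hi
        rcases Finset.mem_insert.1 hi with rfl | hi
        · exact h4
        · exact h5 i hi
    · rcases Finset.mem_insert.1 hi with rfl | hi
      · exact hm.1
      · exact hm.2 i hi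

open Classical in
/-- the characteristic function of a finite set of places -/
noncomputable def coin_g (T : Finset (K × ℕ)) : Gen K := fun a n => decide ((a, n) ∈ T)

open Classical in
theorem coin_g_of {T : Finset (K × ℕ)} {a : K} {n : ℕ} (h : (a, n) ∈ T) :
    coin_g T a n = true := by
  unfold coin_g
  exact decide_eq_true h

open Classical in
theorem coin_g_of_not {T : Finset (K × ℕ)} {a : K} {n : ℕ} (h : (a, n) ∉ T) :
    coin_g T a n = false := by
  unfold coin_g
  exact decide_eq_false h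

/-- `T` is admissible for `g` -/
def coin_adm (A : Set K) (F : Finset (K × ℕ)) (g : Gen K) (T : Finset (K × ℕ)) : Prop :=
  T ⊆ F ∧ ∀ z ∈ F, z.1 ∈ A → (z ∈ T ↔ g z.1 z.2 = true)

theorem coin_adm_congr {A : Set K} {F : Finset (K × ℕ)} {g g' : Gen K}
    (hg : ∀ z ∈ F, z.1 ∈ A → g' z.1 z.2 = g z.1 z.2) (T : Finset (K × ℕ)) :
    coin_adm A F g' T ↔ coin_adm A F g T := by
  unfold coin_adm
  refine and_congr_right fun _ => forall_congr' fun z => forall_congr' fun hz =>
    forall_congr' fun hA => ?_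
  rw [hg z hz hA]

open Classical in
theorem coin_adm_filter (A : Set K) (F : Finset (K × ℕ)) (g : Gen K) :
    coin_adm A F g (F.filter fun z => g z.1 z.2 = true) := by
  refine ⟨Finset.filter_subset _ _, fun z hz _ => ?_⟩
  rw [Finset.mem_filter]
  exact ⟨fun h => h.2, fun h => ⟨hz, h⟩⟩

theorem coin_mem {r' : Cond K} {A : Set K} {F : Finset (K × ℕ)} {g : Gen K}
    {T : Finset (K × ℕ)} (hg : g ∈ r'.pts) (hT : coin_adm A F g T) :
    g ∈ ((r'.add F (coin_g T)).res A).pts := by
  rw [mem_pts_res]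
  intro a ha n v hv
  by_cases h1 : r'.val a n = none ∧ (a, n) ∈ F
  · rw [add_val_of h1.1 h1.2] at hv
    have h2 : coin_g T a n = v := Option.some.inj hv
    rw [← h2]
    have h3 := hT.2 (a, n) h1.2 ha
    by_cases h4 : (a, n) ∈ T
    · rw [coin_g_of h4]; exact h3.1 h4
    · rw [coin_g_of_not h4]
      have : ¬ g a n = true := fun h5 => h4 (h3.2 h5)
      simpa using this
  · rw [add_val_of_not h1] at hv
    exact hg a n v hv

theorem coin_le {r' s : Cond K} {A : Set K} {F : Finset (K × ℕ)} {g : Gen K}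
    {T : Finset (K × ℕ)} (hs : s ≤ r') (hg : g ∈ s.pts) (hT : coin_adm A F g T) :
    s.add F g ≤ (r'.add F (coin_g T)).res A := by
  intro a n v hv
  by_cases ha : a ∈ A
  · rw [res_val_of n ha] at hv
    by_cases h1 : r'.val a n = none ∧ (a, n) ∈ F
    · have hm : g ∈ ((r'.add F (coin_g T)).res A).pts := coin_mem (pts_mono hs hg) hT
      have h2 : g a n = v := hm a n v (by rw [res_val_of n ha]; exact hv)
      cases h3 : s.val a n with
      | none => rw [add_val_of h3 h1.2, h2]
      | some w =>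
        rw [add_val_of_not (by rw [h3]; simp), h3, ← h2, hg a n w h3]
    · rw [add_val_of_not h1] at hv
      exact add_le s F g a n v (hs a n v hv)
  · rw [res_val_of_not n ha] at hv
    exact absurd hv (by simp)

theorem coin_agree {s : Cond K} {F : Finset (K × ℕ)} {g g' : Gen K} (hg : g ∈ s.pts)
    (hg' : g' ∈ (s.add F g).pts) : ∀ z ∈ F, g' z.1 z.2 = g z.1 z.2 := by
  obtain ⟨h1, h2⟩ := mem_pts_add.1 hg'
  intro z hz
  cases h3 : s.val z.1 z.2 with
  | none => exact h2 z hz h3
  | some w => rw [h1 _ _ _ h3, hg _ _ _ h3]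

theorem Coin.ext (h : IsU p₀ FU) {A : Set K} (hA : Good p₀ FU A) {q₀ : Cond K} (hq₀ : q₀ ≤ p₀)
    (hc : Coin FU A q₀) {r : Cond K} (hr : r ≤ q₀) {F : Finset (K × ℕ)} (hF : r.fr F)
    {v : Gen K → ℕ → ℕ} (hv : Infn FU r v) :
    ∃ r', Ext F r' r ∧ ∃ y : Gen K → ℕ → ℕ, Dep A y ∧ Infn FU r' y ∧
      FU r' fun g m => y g m ≤ v g m := by
  classical
  obtain ⟨r', hr', t, ht, hD⟩ := finext
    (fun (s : Cond K) (x : Gen K → ℕ → ℕ) => Dep A x ∧ Infn FU s x ∧ FU s fun g m => x g m ≤ v g m)
    (fun p q x hq hx => ⟨hx.1, hx.2.1.mono h hq, h.mono _ _ _ hq hx.2.2⟩) hF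
    (fun q hq => by
      obtain ⟨s, hs, x, hx⟩ := hc q v (hq.trans hr) (hv.mono h hq)
      exact ⟨s, hs, x, hx⟩)
  have hr0 : r' ≤ p₀ := hr'.1.trans (hr.trans hq₀)
  set S : Gen K → ℕ → Set ℕ := fun g m =>
    {n | ∃ T, coin_adm A F g T ∧ t (coin_g T) g m = n} with hS
  set y : Gen K → ℕ → ℕ := fun g m => sInf (S g m) with hy
  have hne : ∀ g m, (S g m).Nonempty := fun g m => ⟨_, _, coin_adm_filter A F g, rfl⟩
  have hy1 : ∀ g m, ∃ T, coin_adm A F g T ∧ t (coin_g T) g m = y g m :=
    fun g m => Nat.sInf_mem (hne g m)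
  have hy2 : ∀ g m T, coin_adm A F g T → y g m ≤ t (coin_g T) g m :=
    fun g m T hT => Nat.sInf_le ⟨T, hT, rfl⟩
  have hdep : Dep A y := by
    intro g g' hg
    funext m
    have : S g m = S g' m := by
      ext n
      simp only [hS, Set.mem_ofPred_eq]
      refine exists_congr fun T => ?_
      rw [coin_adm_congr (fun z _ hz => by rw [hg z.1 hz]) T,
        (hD (coin_g T)).1 g g' hg]
    simp only [hy, this]
  have hnm : Nm r' y := by
    intro m g hg
    have key : ∀ T : Finset (K × ℕ), ∃ G : Finset (K × ℕ), coin_adm A F g T →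
        ∀ g' ∈ r'.pts, (∀ z ∈ F, g' z.1 z.2 = g z.1 z.2) → (∀ z ∈ G, g' z.1 z.2 = g z.1 z.2) →
          t (coin_g T) g' m = t (coin_g T) g m := by
      intro T
      by_cases hT : coin_adm A F g T
      · have h1 : Ctn ((r'.add F (coin_g T)).res A) fun g => t (coin_g T) g m :=
          ((hD (coin_g T)).2.1.1.res (hD (coin_g T)).1) m
        obtain ⟨G, hG⟩ := h1 g (coin_mem hg hT)
        refine ⟨G, fun _ g' hg' h2 h3 => hG g' ?_ h3⟩
        exact coin_mem hg' ((coin_adm_congr (fun z hz _ => h2 z hz) T).2 hT)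
      · exact ⟨∅, fun h' => absurd h' hT⟩
    choose G hG using key
    refine ⟨F ∪ F.powerset.biUnion G, fun g' hg' h' => ?_⟩
    have h2 : ∀ z ∈ F, g' z.1 z.2 = g z.1 z.2 := fun z hz => h' z (Finset.mem_union_left _ hz)
    have : S g' m = S g m := by
      ext n
      simp only [hS, Set.mem_ofPred_eq]
      refine exists_congr fun T => ?_
      rw [coin_adm_congr (fun z hz _ => h2 z hz) T]
      refine and_congr_right fun hT => ?_
      rw [hG T hT g' hg' h2 fun z hz => h' z (Finset.mem_union_right _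
        (Finset.mem_biUnion.2 ⟨T, Finset.mem_powerset.2 hT.1, hz⟩))]
    show sInf (S g' m) = sInf (S g m)
    rw [this]
  refine ⟨r', hr', y, hdep, ⟨hnm, fun c => ?_⟩, ?_⟩
  · refine h.dense r' _ hr0 (fun m => (hnm m).comp (c ≤ ·)) fun s hs => ?_
    obtain ⟨g, hg⟩ := s.pts_nonempty
    refine ⟨s.add F g, add_le _ _ _, ?_⟩
    have hs0 : s.add F g ≤ p₀ := (add_le _ _ _).trans (hs.trans hr0)
    have h1 : FU (s.add F g) fun g' m => ∀ T ∈ F.powerset.filter (coin_adm A F g),
        c ≤ t (coin_g T) g' m := by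
      refine coin_all h hs0 (fun T g' m => c ≤ t (coin_g T) g' m) _ fun T hT => ?_
      have hT' := (Finset.mem_filter.1 hT).2
      refine h.mono _ _ _ (coin_le hs hg hT') ?_
      refine hA.res h (φ := fun g' m => c ≤ t (coin_g T) g' m) ?_ ((hD (coin_g T)).2.1.2 c)
      intro g1 g2 h12
      funext m
      show (c ≤ t (coin_g T) g1 m) = (c ≤ t (coin_g T) g2 m)
      rw [(hD (coin_g T)).1 g1 g2 h12]
    refine h.up _ _ _ h1 (fun m => ((hnm m).mono ((add_le _ _ _).trans hs)).comp (c ≤ ·)) ?_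
    intro g' hg' m h2
    obtain ⟨T, hT, hTy⟩ := hy1 g' m
    have hT' : coin_adm A F g T :=
      (coin_adm_congr (fun z hz _ => coin_agree hg hg' z hz) T).1 hT
    rw [← hTy]
    exact h2 T (Finset.mem_filter.2 ⟨Finset.mem_powerset.2 hT'.1, hT'⟩)
  · have hn2 : Nm r' fun g m => y g m ≤ v g m :=
      fun m => (hnm m).comp₂ ((hv.1.mono hr'.1) m) (· ≤ ·)
    refine h.dense r' _ hr0 hn2 fun s hs => ?_
    obtain ⟨g, hg⟩ := s.pts_nonempty
    refine ⟨s.add F g, add_le _ _ _, ?_⟩
    have hgT : r'.add F (coin_g (F.filter fun z => g z.1 z.2 = true)) = r'.add F g := by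
      refine add_congr fun z hz => ?_
      by_cases h4 : g z.1 z.2 = true
      · rw [h4]
        exact coin_g_of (a := z.1) (n := z.2) (Finset.mem_filter.2 ⟨hz, h4⟩)
      · rw [coin_g_of_not (a := z.1) (n := z.2) (fun h5 => h4 (Finset.mem_filter.1 h5).2)]
        simpa using h4
    have h1 := (hD (coin_g (F.filter fun z => g z.1 z.2 = true))).2.2
    rw [hgT] at h1
    refine h.up _ _ _ (h.mono _ _ _ (add_le_add_pts hs hg) h1)
      (hn2.mono ((add_le _ _ _).trans hs)) fun g' hg' m h2 => ?_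
    refine (hy2 g' m _ ?_).trans h2
    exact (coin_adm_congr (fun z hz _ => coin_agree hg hg' z hz) _).2 (coin_adm_filter A F g)

end SV
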