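import Mathlib

/-!
# COMB: the combinatorial core of the Main Lemma (no forcing)

`I h j μ` is a continuous function of the table `h : ℕ → ℕ → Bool` (column, place). We construct four partial
tables `ρ e i` (`e i : Bool`), equal outside of column `0`, with infinitely many free places in all columns, such that for
every large `a` one of the four satisfies: for all `h ⊇ ρ e i` and all `j ≤ κ a` the number
`P a + #{l < ν a | h 0 l}` is not congruent to `I h j (μ a)` modulo `2 ^ (μ a)`.

Proof. Put `mu n = 2 * (n + 1) ^ 2 + 2 * (n + 1) + 1` and let `N n` be such that `I h j (mu n)` depends only on the values of `h` in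
`[0, N n) × [0, N n)`, for all `j ≤ n`. Define `L 0 = 0`, `M n = max (L n + 1) (max (N n) (g₀ (mu n) + 1))`,
`L (n + 1) = M n + 2 ^ (mu n)`. The block `n` is `[L n, L (n + 1))`; `blk l` is the number of the block of `l`.
Given `d : ℕ → ℕ` with `d n < 2 ^ (mu n)` define `ρ e i c l`, where `m = blk l`:
* `c ≠ 0`: `none` if `l = L m` and `c ≤ m`, `some false` otherwise;
* `c = 0` and the parity of `m` is not `e` (say `decide (m % 2 = 1) ≠ e`): `some false`;
* `c = 0` and the parity of `m` is `e`: `none` if `l = L m`; `some true` if `i = true` and `M m ≤ l < M m + d m`; otherwise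
  `some false`.
All columns have infinitely many free places. For `n` let `w h = #{l < M n | h 0 l}`. Let `e` be the parity of
`n`. If `h ⊇ ρ e i` and `L (n + 1) ≤ v ≤ L (n + 2)` then `#{l < v | h 0 l} = w h + (if i then d n else 0)`, because
in `[M n, L (n + 1))` exactly the places `< M n + d n` (if `i`) carry the value `true` and in the block `n + 1` all
values in column `0` are `false`. Let `Fb i ⊆ ZMod (2 ^ (mu n))` be the set of all `I h j (mu n) - w h` with
`h ⊇ ρ e i`, `j ≤ n`. The numbers `I h j (mu n)` and `w h` depend only on `h` in `[0, M n)²`, and for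
`h ⊇ ρ e i` this part of `h` is determined by the values `h c (L m)`, `c, m ≤ n`. So `Fb i` has at most
`2 ^ ((n + 1) ^ 2) * (n + 1)` elements, and `Fb true - Fb false` has at most the square of this number
`< 2 ^ (mu n)` elements. Choose `d n` outside of `Fb true - Fb false`. (`Fb false` does not depend on `d`, `Fb true` depends only on
`d m` for `m < n`: so `d` is defined by recursion.) Then for every `x` it is impossible that `x ∈ Fb false` and
`x + d n ∈ Fb true`. Finally `κ a` is the `n` with `L (n + 1) ≤ ν a < L (n + 2)` (for example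
`Nat.findGreatest (fun n => L (n + 1) ≤ ν a) a`), `μ a = mu (κ a)`, and `y` is a number such that `L 1 ≤ ν a` for
`a ≥ y`. For `a ≥ y`, `n = κ a`, `x = P a`: `g₀ (mu n) < M n ≤ L (n + 1) ≤ ν a ≤ a`; `e` = parity of `n`; if
`P a ∉ Fb false` take `i = false`, otherwise `P a + d n ∉ Fb true` and take `i = true`.
-/

set_option autoImplicit false

open Filter

namespace SV

/-- the number of the block of `l` -/
def comb_blk (L : ℕ → ℕ) (l : ℕ) : ℕ := Nat.findGreatest (fun m => L m ≤ l) l

theorem comb_blk_spec {L : ℕ → ℕ} (hL : StrictMono L) (h0 : L 0 = 0) (l : ℕ) :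
    L (comb_blk L l) ≤ l ∧ l < L (comb_blk L l + 1) := by
  have h1 : L (comb_blk L l) ≤ l :=
    Nat.findGreatest_spec (P := fun m => L m ≤ l) (Nat.zero_le l) (by rw [h0]; exact Nat.zero_le l)
  refine ⟨h1, ?_⟩
  by_contra hcon
  rw [not_lt] at hcon
  have h2 : comb_blk L l + 1 ≤ l := le_trans (hL.id_le _) hcon
  exact Nat.findGreatest_is_greatest (P := fun m => L m ≤ l) (Nat.lt_succ_self _) h2 hcon

theorem comb_blk_eq {L : ℕ → ℕ} (hL : StrictMono L) (h0 : L 0 = 0) {l m : ℕ} (h1 : L m ≤ l)
    (h2 : l < L (m + 1)) : comb_blk L l = m := by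
  obtain ⟨h3, h4⟩ := comb_blk_spec hL h0 l
  have h5 : m < comb_blk L l + 1 := hL.lt_iff_lt.1 (lt_of_le_of_lt h1 h4)
  have h6 : comb_blk L l < m + 1 := hL.lt_iff_lt.1 (lt_of_le_of_lt h3 h2)
  omega

/-- the partial tables -/
def comb_rho (L M d : ℕ → ℕ) (e i : Bool) (c l : ℕ) : Option Bool :=
  if c ≠ 0 then (if l = L (comb_blk L l) ∧ c ≤ comb_blk L l then none else some false)
  else if decide (comb_blk L l % 2 = 1) ≠ e then some false
  else if l = L (comb_blk L l) then none
  else if i = true ∧ M (comb_blk L l) ≤ l ∧ l < M (comb_blk L l) + d (comb_blk L l) then some true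
  else some false

/-- a table which extends `comb_rho` -/
def comb_fl (L M d : ℕ → ℕ) (e i : Bool) (t : ℕ → ℕ → Bool) (c l : ℕ) : Bool :=
  (comb_rho L M d e i c l).getD (t c (comb_blk L l))

/-- extension by `false` -/
def comb_ext (n : ℕ) (t : Fin (n + 1) → Fin (n + 1) → Bool) (c m : ℕ) : Bool :=
  if h : c < n + 1 ∧ m < n + 1 then t ⟨c, h.1⟩ ⟨m, h.2⟩ else false

/-- number of the places `< K` with value `true` in column `0` -/
def comb_w (K : ℕ) (h : ℕ → ℕ → Bool) : ℕ := ((Finset.range K).filter fun l => h 0 l = true).card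

theorem comb_w_congr {K : ℕ} {h h' : ℕ → ℕ → Bool} (hh : ∀ l < K, h 0 l = h' 0 l) :
    comb_w K h = comb_w K h' := by
  unfold comb_w
  congr 1
  exact Finset.filter_congr fun l hl => by rw [hh l (Finset.mem_range.1 hl)]

theorem comb_rho_none {L M d : ℕ → ℕ} {e i : Bool} {c l : ℕ} (h : comb_rho L M d e i c l = none) :
    l = L (comb_blk L l) ∧ c ≤ comb_blk L l := by
  unfold comb_rho at h
  split_ifs at h with h1 h2 h3 h4
  · exact h2
  · rw [not_not] at h1
    exact ⟨h4, by omega⟩

theorem comb_rho_congr {L M d d' : ℕ → ℕ} (hL : StrictMono L) (h0 : L 0 = 0) {n : ℕ}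
    (hM : M n ≤ L (n + 1)) (hd : ∀ m < n, d m = d' m) {e i : Bool} {c l : ℕ} (hl : l < M n) :
    comb_rho L M d e i c l = comb_rho L M d' e i c l := by
  obtain ⟨h1, h2⟩ := comb_blk_spec hL h0 l
  have h3 : comb_blk L l < n + 1 := hL.lt_iff_lt.1 (lt_of_le_of_lt h1 (lt_of_lt_of_le hl hM))
  by_cases h4 : comb_blk L l < n
  · unfold comb_rho
    rw [hd _ h4]
  · have h5 : comb_blk L l = n := by omega
    have h6 : ¬ (M n ≤ l) := not_le.2 hl
    unfold comb_rho
    rw [h5]
    simp only [h6, false_and, and_false, if_false]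

/-- on the places `< M n` a table `h ⊇ ρ` is the filling of its values at the places `L m` -/
theorem comb_fill {L M d : ℕ → ℕ} (hL : StrictMono L) (h0 : L 0 = 0) {n : ℕ}
    (hM : M n ≤ L (n + 1)) {e i : Bool} {h : ℕ → ℕ → Bool}
    (hh : ∀ c l v, comb_rho L M d e i c l = some v → h c l = v) {c l : ℕ} (hl : l < M n) :
    h c l = comb_fl L M (fun m => if m < n then d m else 0) e i
      (comb_ext n fun c m => h c (L m)) c l := by
  have hc := comb_rho_congr (d := d) (d' := fun m => if m < n then d m else 0) hL h0 hM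
    (fun m hm => by simp [hm]) (e := e) (i := i) (c := c) hl
  unfold comb_fl
  rw [← hc]
  obtain ⟨h1, h2⟩ := comb_blk_spec hL h0 l
  have h3 : comb_blk L l < n + 1 := hL.lt_iff_lt.1 (lt_of_le_of_lt h1 (lt_of_lt_of_le hl hM))
  cases hr : comb_rho L M d e i c l with
  | some v => rw [hh c l v hr]; rfl
  | none =>
    obtain ⟨h4, h5⟩ := comb_rho_none hr
    simp only [Option.getD_none, comb_ext]
    rw [dif_pos ⟨by omega, h3⟩, ← h4]

theorem comb_count {L M d : ℕ → ℕ} (hL : StrictMono L) (h0 : L 0 = 0) {n v : ℕ}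
    (hM : M n + d n ≤ L (n + 1)) (hM' : L n < M n) {i : Bool} {h : ℕ → ℕ → Bool}
    (hh : ∀ c l v, comb_rho L M d (decide (n % 2 = 1)) i c l = some v → h c l = v)
    (hv : L (n + 1) ≤ v) (hv' : v ≤ L (n + 2)) :
    ((Finset.range v).filter fun l => h 0 l = true).card
      = comb_w (M n) h + (if i = true then d n else 0) := by
  have key : ∀ l, L n ≤ l → l < L (n + 1) → l ≠ L n →
      (h 0 l = true ↔ i = true ∧ M n ≤ l ∧ l < M n + d n) := by
    intro l h1 h2 h3
    have hb := comb_blk_eq hL h0 h1 h2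
    by_cases hi : i = true ∧ M n ≤ l ∧ l < M n + d n
    · have : comb_rho L M d (decide (n % 2 = 1)) i 0 l = some true := by
        unfold comb_rho
        rw [hb, if_neg (by simp), if_neg (by simp), if_neg h3, if_pos hi]
      simp [hh 0 l true this, hi]
    · have : comb_rho L M d (decide (n % 2 = 1)) i 0 l = some false := by
        unfold comb_rho
        rw [hb, if_neg (by simp), if_neg (by simp), if_neg h3, if_neg hi]
      rw [hh 0 l false this]
      simp only [Bool.false_eq_true, false_iff]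
      exact hi
  have key2 : ∀ l, L (n + 1) ≤ l → l < L (n + 2) → h 0 l = false := by
    intro l h1 h2
    have hb := comb_blk_eq hL h0 h1 h2
    have hpar : decide ((n + 1) % 2 = 1) ≠ decide (n % 2 = 1) := by
      intro hc
      rw [decide_eq_decide] at hc
      omega
    apply hh
    unfold comb_rho
    rw [hb, if_neg (by simp), if_pos hpar]
  have hset : (Finset.range v).filter (fun l => h 0 l = true)
      = ((Finset.range (M n)).filter fun l => h 0 l = true) ∪
        (if i = true then Finset.Ico (M n) (M n + d n) else ∅) := by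
    ext l
    rw [Finset.mem_union, Finset.mem_filter, Finset.mem_filter, Finset.mem_range, Finset.mem_range]
    constructor
    · rintro ⟨h1, h2⟩
      by_cases h3 : l < M n
      · exact Or.inl ⟨h3, h2⟩
      · right
        rw [not_lt] at h3
        by_cases h4 : l < L (n + 1)
        · obtain ⟨h5, h6, h7⟩ := (key l (by omega) h4 (by omega)).1 h2
          rw [if_pos h5]; exact Finset.mem_Ico.2 ⟨h6, h7⟩
        · rw [key2 l (by omega) (by omega)] at h2
          exact absurd h2 (by simp)
    · rintro (⟨h1, h2⟩ | h1)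
      · exact ⟨by omega, h2⟩
      · by_cases hi : i = true
        · rw [if_pos hi] at h1
          obtain ⟨h2, h3⟩ := Finset.mem_Ico.1 h1
          have h4 : l < L (n + 1) := by omega
          exact ⟨by omega, (key l (by omega) h4 (by omega)).2 ⟨hi, h2, h3⟩⟩
        · rw [if_neg hi] at h1
          exact absurd h1 (Finset.notMem_empty l)
  rw [hset, Finset.card_union_of_disjoint]
  · unfold comb_w
    congr 1
    split_ifs
    · rw [Nat.card_Ico]; omega
    · rfl
  · rw [Finset.disjoint_left]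
    intro l h1 h2
    have h3 := Finset.mem_range.1 (Finset.mem_filter.1 h1).1
    split_ifs at h2
    · have := (Finset.mem_Ico.1 h2).1
      omega
    · exact absurd h2 (Finset.notMem_empty l)

/-- the modulus exponent -/
def comb_mu (n : ℕ) : ℕ := 2 * (n + 1) ^ 2 + 2 * (n + 1) + 1

/-- the bad differences -/
noncomputable def comb_Fb (I : (ℕ → ℕ → Bool) → ℕ → ℕ → ℕ) (L M f : ℕ → ℕ) (n : ℕ) (i : Bool) :
    Finset (ZMod (2 ^ comb_mu n)) :=
  (Finset.univ : Finset ((Fin (n + 1) → Fin (n + 1) → Bool) × Fin (n + 1))).image fun q =>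
    ((I (comb_fl L M f (decide (n % 2 = 1)) i (comb_ext n q.1)) q.2 (comb_mu n) : ℕ) :
      ZMod (2 ^ comb_mu n))
    - ((comb_w (M n) (comb_fl L M f (decide (n % 2 = 1)) i (comb_ext n q.1)) : ℕ) :
      ZMod (2 ^ comb_mu n))

theorem comb_Fb_card (I : (ℕ → ℕ → Bool) → ℕ → ℕ → ℕ) (L M f : ℕ → ℕ) (n : ℕ) (i : Bool) :
    (comb_Fb I L M f n i).card ≤ 2 ^ ((n + 1) ^ 2) * (n + 1) := by
  refine le_trans Finset.card_image_le ?_
  rw [Finset.card_univ, Fintype.card_prod, Fintype.card_fin]
  refine Nat.mul_le_mul_right _ (le_of_eq ?_)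
  simp only [Fintype.card_pi, Fintype.card_bool, Finset.prod_const, Finset.card_univ,
    Fintype.card_fin]
  rw [← pow_mul, sq]

theorem comb_choose (I : (ℕ → ℕ → Bool) → ℕ → ℕ → ℕ) (L M f : ℕ → ℕ) (n : ℕ) :
    ∃ v : ℕ, v < 2 ^ comb_mu n ∧ ∀ x ∈ comb_Fb I L M f n false, ∀ z ∈ comb_Fb I L M f n true,
      (v : ZMod (2 ^ comb_mu n)) ≠ z - x := by
  have : NeZero (2 ^ comb_mu n) := ⟨by positivity⟩
  set S : Finset (ZMod (2 ^ comb_mu n)) :=
    (comb_Fb I L M f n false ×ˢ comb_Fb I L M f n true).image fun q => q.2 - q.1 with hS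
  have hcard : S.card < Fintype.card (ZMod (2 ^ comb_mu n)) := by
    rw [ZMod.card]
    refine lt_of_le_of_lt Finset.card_image_le ?_
    rw [Finset.card_product]
    refine lt_of_le_of_lt (Nat.mul_le_mul (comb_Fb_card I L M f n false)
      (comb_Fb_card I L M f n true)) ?_
    have h1 : n + 1 < 2 ^ (n + 1) := Nat.lt_two_pow_self
    have h2 : (n + 1) * (n + 1) < 2 ^ (n + 1) * 2 ^ (n + 1) := Nat.mul_lt_mul_of_lt_of_lt h1 h1
    have h3 : 2 ^ comb_mu n = 2 ^ ((n + 1) ^ 2) * 2 ^ ((n + 1) ^ 2) * (2 ^ (n + 1) * 2 ^ (n + 1)) * 2 := by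
      unfold comb_mu
      rw [← pow_add, ← pow_add, ← pow_add, ← pow_succ]
      congr 1
      ring
    rw [h3]
    have h4 : 0 < 2 ^ ((n + 1) ^ 2) * 2 ^ ((n + 1) ^ 2) := by positivity
    calc 2 ^ (n + 1) ^ 2 * (n + 1) * (2 ^ (n + 1) ^ 2 * (n + 1))
        = (2 ^ (n + 1) ^ 2 * 2 ^ (n + 1) ^ 2) * ((n + 1) * (n + 1)) := by ring
      _ < (2 ^ (n + 1) ^ 2 * 2 ^ (n + 1) ^ 2) * (2 ^ (n + 1) * 2 ^ (n + 1)) :=
          Nat.mul_lt_mul_of_pos_left h2 h4
      _ ≤ _ := Nat.le_mul_of_pos_right _ (by norm_num)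
  obtain ⟨z, hz⟩ : ∃ z, z ∉ S := by
    by_contra hcon
    push Not at hcon
    have : S = Finset.univ := Finset.eq_univ_iff_forall.2 hcon
    rw [this, Finset.card_univ] at hcard
    exact lt_irrefl _ hcard
  refine ⟨z.val, ZMod.val_lt z, fun x hx y hy hxy => hz ?_⟩
  rw [ZMod.natCast_zmod_val] at hxy
  exact Finset.mem_image.2 ⟨(x, y), Finset.mem_product.2 ⟨hx, hy⟩, hxy.symm⟩

/-- recursion: `d n` is chosen in terms of `d m`, `m < n` -/
theorem comb_rec (Q : ℕ → (ℕ → ℕ) → ℕ → Prop) (hQ : ∀ n f, ∃ v, Q n f v) :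
    ∃ d : ℕ → ℕ, ∀ n, Q n (fun m => if m < n then d m else 0) (d n) := by
  choose ch hch using hQ
  let F : ℕ → ℕ → ℕ := fun n => Nat.rec (fun _ => 0)
    (fun n G => fun m => if m = n then ch n G else G m) n
  have hF0 : ∀ m, F 0 m = 0 := fun m => rfl
  have hF1 : ∀ n m, F (n + 1) m = if m = n then ch n (F n) else F n m := fun n m => rfl
  have hF : ∀ n, F n = fun m => if m < n then ch m (F m) else 0 := by
    intro n
    induction n with
    | zero => funext m; simp [hF0]
    | succ n ih =>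
      funext m
      rw [hF1]
      by_cases h : m = n
      · subst h; simp
      · rw [if_neg h, ih]
        by_cases h2 : m < n
        · simp [h2, Nat.lt_succ_of_lt h2]
        · have h3 : ¬ m < n + 1 := by omega
          simp [h2, h3]
  refine ⟨fun n => ch n (F n), fun n => ?_⟩
  have := hch n (F n)
  rw [← hF n]
  exact this

theorem comb_LM (N g : ℕ → ℕ) : ∃ L M : ℕ → ℕ, L 0 = 0 ∧ (∀ n, L n < M n) ∧ (∀ n, N n ≤ M n) ∧
    (∀ n, g n < M n) ∧ ∀ n, L (n + 1) = M n + 2 ^ comb_mu n := by
  let L : ℕ → ℕ := fun n => Nat.rec 0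
    (fun n l => max (l + 1) (max (N n) (g n + 1)) + 2 ^ comb_mu n) n
  refine ⟨L, fun n => max (L n + 1) (max (N n) (g n + 1)), rfl, fun n => ?_, fun n => ?_, fun n => ?_,
    fun n => rfl⟩
  · exact lt_of_lt_of_le (Nat.lt_succ_self _) (le_max_left _ _)
  · exact le_trans (le_max_left _ _) (le_max_right _ _)
  · exact lt_of_lt_of_le (Nat.lt_succ_self _) (le_trans (le_max_right _ _) (le_max_right _ _))

theorem comb (I : (ℕ → ℕ → Bool) → ℕ → ℕ → ℕ)
    (hI : ∀ j μ, ∃ N, ∀ h h' : ℕ → ℕ → Bool, (∀ c < N, ∀ l < N, h c l = h' c l) → I h j μ = I h' j μ)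
    (P ν g₀ : ℕ → ℕ) (hν : Monotone ν) (hν' : Tendsto ν atTop atTop) (hν'' : ∀ a, ν a ≤ a) :
    ∃ (ρ : Bool → Bool → ℕ → ℕ → Option Bool) (κ μ : ℕ → ℕ) (y : ℕ),
      (∀ e i c, {l | ρ e i c l = none}.Infinite) ∧
      (∀ e i c, c ≠ 0 → ρ e i c = ρ false false c) ∧
      Tendsto κ atTop atTop ∧ (∀ a, y ≤ a → g₀ (μ a) < a) ∧
      ∀ a, y ≤ a → ∃ e i, ∀ h : ℕ → ℕ → Bool, (∀ c l v, ρ e i c l = some v → h c l = v) →
        ∀ j ≤ κ a, ¬ P a + ((Finset.range (ν a)).filter fun l => h 0 l = true).card ≡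
          I h j (μ a) [MOD 2 ^ (μ a)] := by
  -- the numbers `N n`
  have hN : ∀ n, ∃ N, ∀ j ≤ n, ∀ h h' : ℕ → ℕ → Bool, (∀ c < N, ∀ l < N, h c l = h' c l) →
      I h j (comb_mu n) = I h' j (comb_mu n) := by
    intro n
    choose N hN using fun j => hI j (comb_mu n)
    refine ⟨(Finset.range (n + 1)).sup N, fun j hj h h' hh => hN j h h' fun c hc l hl => ?_⟩
    have hle : N j ≤ (Finset.range (n + 1)).sup N :=
      Finset.le_sup (f := N) (Finset.mem_range.2 (by omega))
    exact hh c (by omega) l (by omega)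
  choose N hN using hN
  obtain ⟨L, M, h0, hLM, hNM, hgM, hLs⟩ := comb_LM N (fun n => g₀ (comb_mu n))
  have hpos : ∀ n, 0 < 2 ^ comb_mu n := fun n => by positivity
  have hML : ∀ n, M n ≤ L (n + 1) := fun n => by rw [hLs]; exact Nat.le_add_right _ _
  have hL : StrictMono L := strictMono_nat_of_lt_succ fun n => lt_of_lt_of_le (hLM n) (hML n)
  obtain ⟨d, hd⟩ := comb_rec
    (fun n f v => v < 2 ^ comb_mu n ∧ ∀ x ∈ comb_Fb I L M f n false,
      ∀ z ∈ comb_Fb I L M f n true, (v : ZMod (2 ^ comb_mu n)) ≠ z - x)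
    (fun n f => comb_choose I L M f n)
  have hMd : ∀ n, M n + d n ≤ L (n + 1) := fun n => by
    rw [hLs]; have := (hd n).1; omega
  -- the bad set describes all tables
  have hbad : ∀ n i (h : ℕ → ℕ → Bool),
      (∀ c l v, comb_rho L M d (decide (n % 2 = 1)) i c l = some v → h c l = v) → ∀ j ≤ n,
      ((I h j (comb_mu n) : ℕ) : ZMod (2 ^ comb_mu n)) - ((comb_w (M n) h : ℕ) : ZMod (2 ^ comb_mu n))
        ∈ comb_Fb I L M (fun m => if m < n then d m else 0) n i := by
    intro n i h hh j hj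
    have hf : ∀ c l, l < M n → h c l = comb_fl L M (fun m => if m < n then d m else 0)
        (decide (n % 2 = 1)) i (comb_ext n fun c m => h c (L m)) c l :=
      fun c l hl => comb_fill hL h0 (hML n) hh hl
    refine Finset.mem_image.2 ⟨(fun c m => h c (L m), ⟨j, by omega⟩), Finset.mem_univ _, ?_⟩
    have e1 : comb_w (M n) h = comb_w (M n) (comb_fl L M (fun m => if m < n then d m else 0)
        (decide (n % 2 = 1)) i (comb_ext n fun c m => h c (L m))) :=
      comb_w_congr fun l hl => hf 0 l hl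
    have e2 : I h j (comb_mu n) = I (comb_fl L M (fun m => if m < n then d m else 0)
        (decide (n % 2 = 1)) i (comb_ext n fun c m => h c (L m))) j (comb_mu n) :=
      hN n j hj _ _ fun c hc l hl => hf c l (lt_of_lt_of_le hl (hNM n))
    rw [e1, e2]
  -- the function `κ`
  set κ : ℕ → ℕ := fun a => Nat.findGreatest (fun n => L (n + 1) ≤ ν a) (ν a) with hκ
  obtain ⟨y, hy⟩ := Filter.tendsto_atTop_atTop.1 hν' (L 1)
  have hκ1 : ∀ a, y ≤ a → L (κ a + 1) ≤ ν a := fun a ha =>
    Nat.findGreatest_spec (P := fun n => L (n + 1) ≤ ν a) (Nat.zero_le _) (hy a ha)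
  have hκ2 : ∀ a, ν a < L (κ a + 2) := by
    intro a
    by_contra hcon
    rw [not_lt] at hcon
    have h2 : κ a + 1 ≤ ν a := le_trans (Nat.le_of_succ_le (hL.id_le (κ a + 2))) hcon
    exact Nat.findGreatest_is_greatest (P := fun n => L (n + 1) ≤ ν a) (Nat.lt_succ_self _) h2 hcon
  refine ⟨comb_rho L M d, κ, fun a => comb_mu (κ a), y, ?_, ?_, ?_, ?_, ?_⟩
  · intro e i c
    by_cases hc : c = 0
    · subst hc
      refine Set.infinite_of_injective_forall_mem (f := fun m => L (2 * m + if e = true then 1 else 0))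
        (fun m m' hmm => ?_) fun m => ?_
      · have := hL.injective hmm
        split_ifs at this <;> omega
      · show comb_rho L M d e i 0 (L (2 * m + if e = true then 1 else 0)) = none
        have hb : comb_blk L (L (2 * m + if e = true then 1 else 0)) = 2 * m + if e = true then 1 else 0 :=
          comb_blk_eq hL h0 le_rfl (hL (Nat.lt_succ_self _))
        unfold comb_rho
        rw [hb, if_neg (by simp), if_neg, if_pos rfl]
        cases e
        · simp
        · simp [Nat.add_mod]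
    · refine Set.infinite_of_injective_forall_mem (f := fun m => L (m + c))
        (fun m m' hmm => ?_) fun m => ?_
      · have := hL.injective hmm
        omega
      · show comb_rho L M d e i c (L (m + c)) = none
        have hb : comb_blk L (L (m + c)) = m + c :=
          comb_blk_eq hL h0 le_rfl (hL (Nat.lt_succ_self _))
        unfold comb_rho
        rw [hb, if_pos hc, if_pos ⟨rfl, by omega⟩]
  · intro e i c hc
    funext l
    unfold comb_rho
    rw [if_pos hc, if_pos hc]
  · refine Filter.tendsto_atTop_atTop.2 fun B => ?_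
    obtain ⟨a0, ha0⟩ := Filter.tendsto_atTop_atTop.1 hν' (L (B + 1))
    refine ⟨a0, fun a ha => ?_⟩
    have h1 := ha0 a ha
    have h2 : B ≤ ν a := le_trans (Nat.le_of_succ_le (hL.id_le (B + 1))) h1
    exact Nat.le_findGreatest (P := fun n => L (n + 1) ≤ ν a) h2 h1
  · intro a ha
    calc g₀ (comb_mu (κ a)) < M (κ a) := hgM (κ a)
      _ ≤ L (κ a + 1) := hML _
      _ ≤ ν a := hκ1 a ha
      _ ≤ a := hν'' a
  · intro a ha
    set n := κ a with hn
    have h1 := hκ1 a ha
    have h2 := (hκ2 a).le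
    obtain ⟨hd1, hd2⟩ := hd n
    by_cases hx : ((P a : ℕ) : ZMod (2 ^ comb_mu n)) ∈
        comb_Fb I L M (fun m => if m < n then d m else 0) n false
    · refine ⟨decide (n % 2 = 1), true, fun h hh j hj hcon => ?_⟩
      have hc := comb_count hL h0 (hMd n) (hLM n) hh h1 h2
      rw [if_pos rfl] at hc
      rw [hc, ← ZMod.natCast_eq_natCast_iff] at hcon
      push_cast at hcon
      have hb := hbad n true h hh j hj
      refine hd2 _ hx _ hb ?_
      rw [← hcon]; ring
    · refine ⟨decide (n % 2 = 1), false, fun h hh j hj hcon => ?_⟩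
      have hc := comb_count hL h0 (hMd n) (hLM n) hh h1 h2
      rw [if_neg (by simp)] at hc
      rw [hc, ← ZMod.natCast_eq_natCast_iff] at hcon
      push_cast at hcon
      have hb := hbad n false h hh j hj
      apply hx
      rw [← hcon] at hb
      convert hb using 1
      ring

end SV
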