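import Pool.Agent.H79.SV.Case1B
import Pool.Agent.H79.SV.Case2

/-!
# CORE: every ultrafilter is flat
-/

set_option autoImplicit false

namespace SV

open Cond Cardinal

variable {K : Type} {p₀ : Cond K} {FU : Cond K → (Gen K → ℕ → Prop) → Prop}

theorem core (hK : 2 ^ continuum.{0} < #K) (h : IsU p₀ FU) : ∃ q, q ≤ p₀ ∧ FlatWit FU q := by
  by_cases H : ∀ A : Set K, Good p₀ FU A → #A ≤ 2 ^ continuum.{0} →
      ∀ q, q ≤ p₀ → ∃ r, r ≤ q ∧ ∃ k, Infn FU r k ∧ Bel FU A r k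
  · exact case1 h H
  push Not at H
  obtain ⟨A, hA, hAs, q₀, hq₀, hq⟩ := H
  have hinf : Infinite K := by
    rw [Cardinal.infinite_iff]
    refine le_trans ?_ hK.le
    exact aleph0_le_continuum.trans (cantor _).le
  obtain ⟨b, hb⟩ : ∃ b, b ∉ A := by
    by_contra hcon
    push Not at hcon
    have : A = Set.univ := Set.eq_univ_of_forall hcon
    rw [this, mk_univ] at hAs
    exact absurd hAs (not_le.2 hK)
  refine case2 h hA hb hq₀ ?_
  intro r k hr hk
  have h1 := hq r hr k hk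
  unfold Bel at h1
  push Not at h1
  obtain ⟨s, x, hs, hxA, hx, h2⟩ := h1
  have hsp : s ≤ p₀ := (hs.trans hr).trans hq₀
  have hn : Nm s fun g m => k g m ≤ x g m := fun m =>
    ((hk.1.mono hs) m).comp₂ (hx.1 m) (· ≤ ·)
  obtain ⟨t, ht, h3⟩ := h.exists_not hsp hn h2
  refine ⟨t, ht.trans hs, x, hxA, hx.mono h ht, h.up _ _ _ h3 (fun m => ?_) ?_⟩
  · exact ((hx.1.mono ht) m).comp₂ ((hk.1.mono (ht.trans hs)) m) (· ≤ ·)
  · intro g _ m h4
    exact (not_le.1 h4).le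

end SV
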