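import Pool.Agent.H79.SV.Defs
import Pool.Agent.H71.PM.Fc

/-!
# FAITHA: free ultrafilters in the structure `(ZFSet, ∈)`

The coding of reals, natural numbers, functions, sequences and families of reals in `ZFSet` is in
`Pool/Agent/H71/PM/Fa.lean` (`encF`, `exists_encF`, `encQ`, `app_encQ`, `isSeq_encQ`), `Fc.lean` (`encN`, `isFn_encN`, `exists_fn`),
`Pool/Agent/H71/HF/Vp.lean` (`isFin_V`), `Vdim.lean` (`enc`, `dec`, `enc_dec`, `dec_enc`, `isReal_enc`, `num`, `mem_omz`, `unbdd_V`, …).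

`isFreeUlt_V`. (→) `u = encF 𝒳` by `exists_encF`; the family `𝒳` is an ultrafilter: `Ultrafilter` of the filter with the sets `𝒳`
(`Ultrafilter.ofComplNotMemIff` or `Filter` + `isUltra`), all members are infinite (`unbdd_V`), so it is free. (←) direct.
-/

set_option autoImplicit false

open Filter BV PK HM HF PM

namespace SV

theorem FAITHA_enc_mem (𝒳 : Set (Set ℕ)) (a : Set ℕ) : enc a ∈ encF 𝒳 ↔ a ∈ 𝒳 := by
  rw [mem_encF]
  constructor
  · rintro ⟨b, hb, h⟩
    rwa [vp_enc_injective h]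
  · exact fun h => ⟨a, h, rfl⟩

theorem FAITHA_sub {a b : Set ℕ} : (∀ n : ZFSet.{0}, VE n (enc a) → VE n (enc b)) ↔ a ⊆ b := by
  constructor
  · intro h n hn
    obtain ⟨m, hm, e⟩ := (VDIMA_mem_enc b _).1 (h (num n) ((VDIMA_mem_enc a _).2 ⟨n, hn, rfl⟩))
    rwa [VDIMA_num_inj e]
  · intro h n hn
    obtain ⟨m, hm, rfl⟩ := (VDIMA_mem_enc a _).1 hn
    exact (VDIMA_mem_enc b _).2 ⟨m, h hm, rfl⟩

theorem FAITHA_num_mem (a : Set ℕ) (n : ℕ) : VE (num n) (enc a) ↔ n ∈ a := by
  constructor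
  · intro h
    obtain ⟨m, hm, e⟩ := (VDIMA_mem_enc a _).1 h
    rwa [VDIMA_num_inj e]
  · intro h
    exact (VDIMA_mem_enc a _).2 ⟨n, h, rfl⟩

theorem isFreeUlt_V (u : ZFSet.{0}) : IsFreeUlt VE omz u ↔
    ∃ U : Ultrafilter ℕ, (U : Filter ℕ) ≤ cofinite ∧ u = encF {X | X ∈ U} := by
  constructor
  · intro h
    obtain ⟨𝒳, rfl⟩ := exists_encF u h.real
    have hm : ∀ a : Set ℕ, VE (enc a) (encF 𝒳) ↔ a ∈ 𝒳 := FAITHA_enc_mem 𝒳
    have hinf : ∀ a ∈ 𝒳, a.Infinite := by
      intro a ha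
      have h1 := h.unbdd (enc a) ((hm a).2 ha)
      rwa [unbdd_V, dec_enc] at h1
    have hult : ∀ a b : Set ℕ, a ∪ b = Set.univ → a ∈ 𝒳 ∨ b ∈ 𝒳 := by
      intro a b hab
      have h1 := h.ultra (enc a) (enc b) (isReal_enc a) (isReal_enc b) (by
        intro n hn
        obtain ⟨n, rfl⟩ := (mem_omz n).1 hn
        have h2 : n ∈ a ∪ b := by rw [hab]; exact Set.mem_univ n
        rcases h2 with h2 | h2
        · exact Or.inl ((FAITHA_num_mem a n).2 h2)
        · exact Or.inr ((FAITHA_num_mem b n).2 h2))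
      rwa [hm, hm] at h1
    let F : Filter ℕ :=
      { sets := 𝒳
        univ_sets := by
          rcases hult Set.univ Set.univ (Set.union_self _) with h1 | h1 <;> exact h1
        sets_of_superset := by
          intro a b ha hab
          exact (hm b).1 (h.up (enc a) (enc b) ((hm a).2 ha) (isReal_enc b) (FAITHA_sub.2 hab))
        inter_sets := by
          intro a b ha hb
          refine (hm _).1 (h.inter (enc a) (enc b) (enc (a ∩ b)) ((hm a).2 ha) ((hm b).2 hb) ?_)
          intro n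
          constructor
          · intro hn
            exact ⟨FAITHA_sub.2 Set.inter_subset_left n hn,
              FAITHA_sub.2 Set.inter_subset_right n hn⟩
          · rintro ⟨h1, h2⟩
            obtain ⟨m, hma, rfl⟩ := (VDIMA_mem_enc a _).1 h1
            exact (FAITHA_num_mem _ m).2 ⟨hma, (FAITHA_num_mem b m).1 h2⟩ }
    have hF : ∀ a : Set ℕ, a ∈ F ↔ a ∈ 𝒳 := fun a => Iff.rfl
    let U : Ultrafilter ℕ := Ultrafilter.ofComplNotMemIff F (by
      intro s
      constructor
      · intro hs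
        rcases hult s sᶜ (Set.union_compl_self s) with h1 | h1
        · exact h1
        · exact absurd h1 hs
      · intro hs hs'
        have h1 : s ∩ sᶜ ∈ F := F.inter_sets hs hs'
        rw [Set.inter_compl_self] at h1
        exact hinf _ h1 Set.finite_empty)
    have hU : ∀ a : Set ℕ, a ∈ U ↔ a ∈ 𝒳 := fun a => Iff.rfl
    refine ⟨U, ?_, ?_⟩
    · intro s hs
      rw [mem_cofinite] at hs
      rcases hult s sᶜ (Set.union_compl_self s) with h1 | h1
      · exact h1
      · exact absurd hs (hinf _ h1)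
    · congr 1
  · rintro ⟨U, hU, rfl⟩
    have hm : ∀ a : Set ℕ, VE (enc a) (encF {X | X ∈ U}) ↔ a ∈ U := FAITHA_enc_mem _
    have hdec : ∀ X : ZFSet.{0}, VE X (encF {X | X ∈ U}) → ∃ a : Set ℕ, a ∈ U ∧ X = enc a := by
      intro X hX
      obtain ⟨a, ha, rfl⟩ := (mem_encF _ X).1 hX
      exact ⟨a, ha, rfl⟩
    refine ⟨?_, ?_, ?_, ?_, ?_⟩
    · intro X hX
      obtain ⟨a, -, rfl⟩ := hdec X hX
      exact isReal_enc a
    · intro X hX
      obtain ⟨a, ha, rfl⟩ := hdec X hX
      rw [unbdd_V, dec_enc]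
      intro hfin
      have h1 : aᶜ ∈ (U : Filter ℕ) := hU (by rw [mem_cofinite, compl_compl]; exact hfin)
      have h2 : a ∩ aᶜ ∈ (U : Filter ℕ) := Filter.inter_mem ha h1
      rw [Set.inter_compl_self] at h2
      exact Ultrafilter.empty_notMem h2
    · intro X Y hX hY hXY
      obtain ⟨a, ha, rfl⟩ := hdec X hX
      rw [← enc_dec hY] at hXY ⊢
      exact (hm _).2 (Filter.mem_of_superset ha (FAITHA_sub.1 hXY))
    · intro X Y Z hX hY hZ
      obtain ⟨a, ha, rfl⟩ := hdec X hX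
      obtain ⟨b, hb, rfl⟩ := hdec Y hY
      have hZr : IsReal VE omz Z := fun n hn => isReal_enc a n ((hZ n).1 hn).1
      rw [← enc_dec hZr] at hZ ⊢
      refine (hm _).2 (Filter.mem_of_superset (Filter.inter_mem ha hb) ?_)
      intro n hn
      exact (FAITHA_num_mem _ n).1 ((hZ (num n)).2
        ⟨(FAITHA_num_mem a n).2 hn.1, (FAITHA_num_mem b n).2 hn.2⟩)
    · intro X Y hX hY hXY
      rw [← enc_dec hX, ← enc_dec hY] at hXY ⊢
      rw [hm, hm]
      have h1 : dec X ∪ dec Y = Set.univ := by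
        rw [Set.eq_univ_iff_forall]
        intro n
        rcases hXY (num n) ((mem_omz _).2 ⟨n, rfl⟩) with h2 | h2
        · exact Or.inl ((FAITHA_num_mem _ n).1 h2)
        · exact Or.inr ((FAITHA_num_mem _ n).1 h2)
      have h2 : dec X ∪ dec Y ∈ U := by
        rw [h1]
        exact Filter.univ_mem
      exact Ultrafilter.union_mem_iff.1 h2

end SV
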