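import Pool.Agent.H79.SV.Defs
import Pool.Agent.H71.PM.Fc

/-!
# FAITHB: `Few` in the structure `(ZFSet, ∈)`

The coding of reals, natural numbers, functions, sequences and families of reals in `ZFSet` is in
`Pool/Agent/H71/PM/Fa.lean` (`encF`, `exists_encF`, `encQ`, `app_encQ`, `isSeq_encQ`), `Fc.lean` (`encN`, `isFn_encN`, `exists_fn`),
`Pool/Agent/H71/HF/Vp.lean` (`isFin_V`), `Vdim.lean` (`enc`, `dec`, `enc_dec`, `dec_enc`, `isReal_enc`, `num`, `mem_omz`, `unbdd_V`, …).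

`few_V`. (→) the function `g` gives an injection of `(A ∩ [i, j)) × {0, …, k-1}` into `A` (`Finset.card_le_card_of_injOn`).
(←) there is an injection of the finite set of pairs into `A`, take `g` = the set of all `⟨⟨num x, num l⟩, num y⟩`.
-/

set_option autoImplicit false

open Filter BV PK HM HF PM

namespace SV

theorem few_V (A : Finset ℕ) (i j k : ℕ) : Few VE (enc (A : Set ℕ)) (num i) (num j) (num k) ↔
    (A.filter fun x => i ≤ x ∧ x < j).card * k ≤ A.card := by
  classical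
  set S : Finset (ℕ × ℕ) := (A.filter fun x => i ≤ x ∧ x < j) ×ˢ Finset.range k with hS
  have hcard : S.card = (A.filter fun x => i ≤ x ∧ x < j).card * k := by
    rw [hS, Finset.card_product, Finset.card_range]
  have hmemS : ∀ s : ℕ × ℕ, s ∈ S ↔ s.1 ∈ A ∧ (i ≤ s.1 ∧ s.1 < j) ∧ s.2 < k := by
    intro s
    rw [hS, Finset.mem_product, Finset.mem_filter, Finset.mem_range, and_assoc]
  have hA : ∀ y : ZFSet.{0}, VE y (enc (A : Set ℕ)) ↔ ∃ n ∈ A, y = num n := by
    intro y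
    exact (VDIMA_mem_enc (A : Set ℕ) y)
  rw [← hcard]
  constructor
  · rintro ⟨g, h1, h2, h3⟩
    have hy : ∀ s : ℕ × ℕ, ∃ y : ℕ, s ∈ S → y ∈ A ∧
        App VE g (ZFSet.pair (num s.1) (num s.2)) (num y) := by
      intro s
      by_cases hs : s ∈ S
      · obtain ⟨hsA, ⟨hi, hj⟩, hk⟩ := (hmemS s).1 hs
        obtain ⟨y, hy, hg⟩ := h1 (num s.1) (num s.2) (ZFSet.pair (num s.1) (num s.2))
          ((hA _).2 ⟨s.1, hsA, rfl⟩)
          (by
            rcases lt_or_eq_of_le hi with h | h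
            · exact Or.inl ((num_mem_num _ _).2 h)
            · exact Or.inr (by rw [h]))
          ((num_mem_num _ _).2 hj) ((num_mem_num _ _).2 hk) ((isOPair_V _ _ _).2 rfl)
        obtain ⟨n, hn, rfl⟩ := (hA y).1 hy
        exact ⟨n, fun _ => ⟨hn, hg⟩⟩
      · exact ⟨0, fun h => absurd h hs⟩
    choose φ hφ using hy
    refine Finset.card_le_card_of_injOn φ (fun s hs => (hφ s hs).1) ?_
    intro s hs s' hs' hss
    have e1 := (hφ s hs).2
    have e2 := (hφ s' hs').2
    have hss' : φ s = φ s' := hss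
    rw [hss'] at e1
    obtain ⟨e3, e4⟩ := ZFSet.pair_injective (h3 _ _ _ e1 e2)
    exact Prod.ext (VDIMA_num_inj e3) (VDIMA_num_inj e4)
  · intro hle
    obtain ⟨φ⟩ : Nonempty (S ↪ A) := by
      apply Function.Embedding.nonempty_of_card_le
      rw [Fintype.card_coe, Fintype.card_coe]
      exact hle
    let g : ZFSet.{0} := ZFSet.range fun s : S =>
      ZFSet.pair (ZFSet.pair (num s.1.1) (num s.1.2)) (num (φ s).1)
    have hg : ∀ p y : ZFSet.{0}, App VE g p y ↔
        ∃ s : S, p = ZFSet.pair (num s.1.1) (num s.1.2) ∧ y = num (φ s).1 := by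
      intro p y
      rw [app_V, ZFSet.mem_range]
      constructor
      · rintro ⟨s, hs⟩
        obtain ⟨e1, e2⟩ := ZFSet.pair_injective hs
        exact ⟨s, e1.symm, e2.symm⟩
      · rintro ⟨s, rfl, rfl⟩
        exact ⟨s, rfl⟩
    refine ⟨g, ?_, ?_, ?_⟩
    · intro x l p hx hix hxj hlk hp
      obtain ⟨n, hn, rfl⟩ := (hA x).1 hx
      obtain ⟨l, hl, rfl⟩ := (mem_num k l).1 hlk
      have hp' := (isOPair_V _ _ _).1 hp
      have hs : (n, l) ∈ S := by
        rw [hmemS]
        refine ⟨hn, ⟨?_, (num_mem_num _ _).1 hxj⟩, hl⟩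
        rcases hix with h | h
        · exact ((num_mem_num _ _).1 h).le
        · exact (VDIMA_num_inj h).le
      exact ⟨num (φ ⟨(n, l), hs⟩).1, (hA _).2 ⟨_, (φ ⟨(n, l), hs⟩).2, rfl⟩,
        (hg _ _).2 ⟨⟨(n, l), hs⟩, hp', rfl⟩⟩
    · intro p y y' h1 h2
      obtain ⟨s, hs, rfl⟩ := (hg _ _).1 h1
      obtain ⟨s', hs', rfl⟩ := (hg _ _).1 h2
      obtain ⟨e1, e2⟩ := ZFSet.pair_injective (hs.symm.trans hs')
      have : s = s' := Subtype.ext (Prod.ext (VDIMA_num_inj e1) (VDIMA_num_inj e2))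
      rw [this]
    · intro p p' y h1 h2
      obtain ⟨s, rfl, hs⟩ := (hg _ _).1 h1
      obtain ⟨s', rfl, hs'⟩ := (hg _ _).1 h2
      have e1 : (φ s).1 = (φ s').1 := VDIMA_num_inj (hs.symm.trans hs')
      have e2 : s = s' := φ.injective (Subtype.ext e1)
      rw [e2]

end SV
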