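import Pool.Agent.H79.SV.FaithA
import Pool.Agent.H79.SV.FaithB

/-!
# FAITHC: `Flat` in the structure `(ZFSet, ∈)`

The coding of reals, natural numbers, functions, sequences and families of reals in `ZFSet` is in
`Pool/Agent/H71/PM/Fa.lean` (`encF`, `exists_encF`, `encQ`, `app_encQ`, `isSeq_encQ`), `Fc.lean` (`encN`, `isFn_encN`, `exists_fn`),
`Pool/Agent/H71/HF/Vp.lean` (`isFin_V`), `Vdim.lean` (`enc`, `dec`, `enc_dec`, `dec_enc`, `isReal_enc`, `num`, `mem_omz`, `unbdd_V`, …).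

`flat_V`. A sequence `a` with `IsSeq VE omz a` is given by `C n`, `App VE a (num n) (C n)`; `C n = enc (A n)` for a nonempty finite
set `A n` (`isFin_V`, `isReal`); conversely take `encQ fun n => enc (A n)`. `f` corresponds to `h : ℕ → ℕ` (`exists_fn`, `encN`), `k = num k'`, and
`Z = enc Z'` with `Z' ∈ U`.
-/

set_option autoImplicit false

open Filter BV PK HM HF PM

namespace SV

theorem flat_V (U : Ultrafilter ℕ) : Flat VE omz (encF {X | X ∈ U}) ↔ Weak U := by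
  classical
  constructor
  · rintro ⟨a, ha, h1, h2⟩
    have hA : ∀ n : ℕ, ∃ A : Finset ℕ, A.Nonempty ∧ App VE a (num n) (enc (A : Set ℕ)) := by
      intro n
      have hn : VE (num n) omz := (mem_omz _).2 ⟨n, rfl⟩
      obtain ⟨D, hD, -⟩ := ha (num n) hn
      obtain ⟨h3, h4, x, hx⟩ := h1 (num n) D hn hD
      have h5 := (isFin_V D).1 h4
      have h6 : (dec D).Finite :=
        Set.Finite.preimage (fun _ _ _ _ h => VDIMA_num_inj h) h5
      have h7 : enc ((h6.toFinset : Finset ℕ) : Set ℕ) = D := by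
        rw [Set.Finite.coe_toFinset, enc_dec h3]
      refine ⟨h6.toFinset, ?_, by rw [h7]; exact hD⟩
      obtain ⟨m, rfl⟩ := (mem_omz x).1 (h3 x hx)
      exact ⟨m, h6.mem_toFinset.2 hx⟩
    choose A hA1 hA2 using hA
    refine ⟨A, hA1, fun f k => ?_⟩
    obtain ⟨Z, hZ, h3⟩ := h2 (encN f) (isFn_encN f) (num k) ((mem_omz _).2 ⟨k, rfl⟩)
    obtain ⟨X, hX, rfl⟩ := (mem_encF _ Z).1 hZ
    filter_upwards [show X ∈ (U : Filter ℕ) from hX] with n hn i
    exact (few_V (A n) i (f i) k).1 (h3 (num n) ((VDIMA_mem_enc X _).2 ⟨n, hn, rfl⟩) _ (hA2 n)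
      (num i) (num (f i)) ((mem_omz _).2 ⟨i, rfl⟩) ((app_encQ _ i _).2 rfl))
  · rintro ⟨A, hA, h⟩
    refine ⟨encQ fun n => enc (A n : Set ℕ), isSeq_encQ _, ?_, ?_⟩
    · intro n D hn hD
      obtain ⟨n, rfl⟩ := (mem_omz n).1 hn
      obtain rfl := (app_encQ _ n D).1 hD
      refine ⟨isReal_enc _, (isFin_V _).2 ?_, ?_⟩
      · refine ((A n).finite_toSet.image num).subset ?_
        intro z hz
        obtain ⟨m, hm, rfl⟩ := (VDIMA_mem_enc _ z).1 hz
        exact ⟨m, hm, rfl⟩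
      · obtain ⟨m, hm⟩ := hA n
        exact ⟨num m, (VDIMA_mem_enc _ _).2 ⟨m, hm, rfl⟩⟩
    · intro f hf k hk
      obtain ⟨k, rfl⟩ := (mem_omz k).1 hk
      obtain ⟨g, hg⟩ := exists_fn hf
      refine ⟨enc {n | ∀ i, ((A n).filter fun x => i ≤ x ∧ x < g i).card * k ≤ (A n).card},
        (mem_encF _ _).2 ⟨_, h g k, rfl⟩, ?_⟩
      intro n hn D hD i j hi hij
      obtain ⟨n, hn', rfl⟩ := (VDIMA_mem_enc _ n).1 hn
      obtain rfl := (app_encQ _ n D).1 hD
      obtain ⟨i, rfl⟩ := (mem_omz i).1 hi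
      obtain rfl := (hg i j).1 hij
      exact (few_V (A n) i (g i) k).2 (hn' i)

end SV
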