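import Pool.Agent.H79.SV.Defs

/-!
# FLATA: flatness implies the weak form

`weak_of_isFlat`. Let `h` be as in `IsFlat`, and `hb n j = ⨆ i ≥ j, h n i` (the supremum of the `h n i`, `i ≥ j`; it is attained or `0`, because
`h n → 0`). `hb n` is decreasing with limit `0`, `hb n 0 = 1`, and for strictly increasing `f` and all `j`
`hb n j - hb n (f j) ≤ ε_f n := ⨆ i, |h n i - h n (f i)|` (for `δ > 0` take `i ≥ j` with `hb n j ≤ h n i + δ`; `f i ≥ f j`, so
`hb n (f j) ≥ h n (f i) ≥ h n i - ε_f n`). Let `N n` be the largest `N ≤ n` such that `2 * N * (hb n j - hb n (j+1)) ≤ 1` for all `j`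
(`Nat.findGreatest`); since `ε_succ → 0` along `U` and `U` is free, `N n → ∞` along `U`. If `N n ≥ 2` put
`A n = {p_r | 1 ≤ r < N n}`, where `p_r` is the least `j` with `hb n j ≤ 1 - r / N n` (otherwise `A n = {0}`). As the steps are at most
`1 / (2 N)`, `1 - r / N - 1 / (2 N) ≤ hb n p_r ≤ 1 - r / N`, so `p_r < p_(r+1)` and `|A n| = N n - 1`. If `p_r, …, p_(r+s-1)` are the elements of `A n` in
`[i, f i)`, `s ≥ 1`, then `hb n i - hb n (f i) ≥ hb n p_r - hb n p_(r+s-1) ≥ (s - 1) / N - 1 / (2 N)`, so `s ≤ 3 / 2 + N ε_f n`, and `s * k ≤ N - 1` as soon as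
`N n ≥ 4 * k + 2` and `ε_f n ≤ 1 / (4 * (k + 1))`. A general `f` is at most a strictly increasing `f' ≥ f`.
-/

set_option autoImplicit false

open Filter Topology

namespace SV

/-- a slowly decreasing function defines a set which meets intervals in few elements -/
theorem FLATA_set (g : ℕ → ℝ) (hg : Antitone g) (hg0 : g 0 = 1)
    (hgl : ∀ δ : ℝ, 0 < δ → ∃ j, g j ≤ δ) (N : ℕ) (hN : 2 ≤ N)
    (hs : ∀ j, 2 * (N : ℝ) * (g j - g (j + 1)) ≤ 1) :
    ∃ A : Finset ℕ, A.card = N - 1 ∧ ∀ i l, i ≤ l →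
      ((A.filter fun x => i ≤ x ∧ x < l).card : ℝ) ≤ 3 / 2 + N * (g i - g l) := by
  classical
  have hN0 : (0:ℝ) < N := by
    have : 0 < N := by omega
    exact_mod_cast this
  -- the thresholds
  set t : ℕ → ℝ := fun r => 1 - ((r : ℝ) + 1) / N with ht
  set p : ℕ → ℕ := fun r => sInf {j | g j ≤ t r} with hp
  have hex : ∀ r, r < N - 1 → {j | g j ≤ t r}.Nonempty := by
    intro r hr
    have h1 : (0:ℝ) < t r := by
      have h2 : ((r : ℝ) + 1) < N := by
        have : r + 1 < N := by omega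
        exact_mod_cast this
      have h3 : ((r : ℝ) + 1) / N < 1 := (div_lt_one hN0).2 h2
      simp only [ht]; linarith
    obtain ⟨j, hj⟩ := hgl _ h1
    exact ⟨j, hj⟩
  have hp1 : ∀ r, r < N - 1 → g (p r) ≤ t r := fun r hr => Nat.sInf_mem (hex r hr)
  have ht1 : ∀ r, t r < 1 := by
    intro r
    have : 0 < ((r : ℝ) + 1) / N := by positivity
    simp only [ht]; linarith
  have hp2 : ∀ r, r < N - 1 → t r - 1 / (2 * N) ≤ g (p r) := by
    intro r hr
    have h0 : p r ≠ 0 := by
      intro h0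
      have h1 := hp1 r hr
      rw [h0, hg0] at h1
      linarith [ht1 r]
    obtain ⟨m, hm⟩ := Nat.exists_eq_succ_of_ne_zero h0
    have h2 : ¬ g m ≤ t r := by
      intro h3
      have h4 : sInf {j | g j ≤ t r} ≤ m := Nat.sInf_le h3
      have h5 : p r ≤ m := h4
      omega
    have h3 := hs m
    have h4 : g m - g (m + 1) ≤ 1 / (2 * N) := by
      rw [le_div_iff₀ (by positivity)]
      linarith
    rw [hm]
    push Not at h2
    have : g (Nat.succ m) = g (m + 1) := rfl
    rw [this]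
    linarith
  have hmono : ∀ r s, r < s → s < N - 1 → p r < p s := by
    intro r s hrs hsN
    by_contra hcon
    push Not at hcon
    have h1 := hg hcon
    have h2 := hp1 s hsN
    have h3 := hp2 r (by omega)
    have h4 : ((r : ℝ) + 1) + 1 ≤ (s : ℝ) + 1 := by
      have : r + 1 + 1 ≤ s + 1 := by omega
      exact_mod_cast this
    have h5 : t s ≤ t r - 1 / N := by
      simp only [ht]
      have : (((r : ℝ) + 1) + 1) / N ≤ ((s : ℝ) + 1) / N := by gcongr
      rw [add_div] at this
      linarith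
    have h6 : 1 / (2 * (N : ℝ)) < 1 / N := by
      rw [div_lt_div_iff₀ (by positivity) hN0]
      linarith
    linarith
  have hinj : Set.InjOn p (Finset.range (N - 1) : Set ℕ) := by
    intro r hr s hs' hrs
    have hr' := Finset.mem_range.1 (Finset.mem_coe.1 hr)
    have hs'' := Finset.mem_range.1 (Finset.mem_coe.1 hs')
    rcases lt_trichotomy r s with h | h | h
    · have := hmono r s h hs''; omega
    · exact h
    · have := hmono s r h hr'; omega
  refine ⟨(Finset.range (N - 1)).image p, ?_, ?_⟩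
  · rw [Finset.card_image_of_injOn hinj, Finset.card_range]
  · intro i l hil
    rw [Finset.filter_image]
    have hc : ((((Finset.range (N - 1)).filter fun r => i ≤ p r ∧ p r < l).image p).card : ℝ) ≤
        (((Finset.range (N - 1)).filter fun r => i ≤ p r ∧ p r < l).card : ℝ) := by
      exact_mod_cast Finset.card_image_le
    refine hc.trans ?_
    set R := (Finset.range (N - 1)).filter fun r => i ≤ p r ∧ p r < l with hR
    rcases R.eq_empty_or_nonempty with h0 | h0
    · rw [h0, Finset.card_empty]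
      have := mul_nonneg hN0.le (sub_nonneg.2 (hg hil))
      push_cast
      linarith
    · set a := R.min' h0 with ha
      set b := R.max' h0 with hb
      have haR : a ∈ R := Finset.min'_mem _ _
      have hbR : b ∈ R := Finset.max'_mem _ _
      have hab : a ≤ b := Finset.min'_le _ _ hbR
      have hsub : R ⊆ Finset.Icc a b := fun x hx =>
        Finset.mem_Icc.2 ⟨Finset.min'_le _ _ hx, Finset.le_max' _ _ hx⟩
      have hcard : R.card ≤ b + 1 - a := by
        have := Finset.card_le_card hsub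
        rwa [Nat.card_Icc] at this
      rw [hR, Finset.mem_filter, Finset.mem_range] at haR hbR
      have e1 : g (p a) ≤ g i := hg haR.2.1
      have e2 : g l ≤ g (p b) := hg hbR.2.2.le
      have e3 := hp2 a haR.1
      have e4 := hp1 b hbR.1
      have e5 : t a - t b = ((b : ℝ) - a) / N := by
        simp only [ht]; field_simp; ring
      have e6 : ((b : ℝ) - a) / N - 1 / (2 * N) ≤ g i - g l := by linarith
      have e7 : ((b : ℝ) - a) - 1 / 2 ≤ N * (g i - g l) := by
        have := mul_le_mul_of_nonneg_left e6 hN0.le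
        have e8 : (N : ℝ) * (((b : ℝ) - a) / N - 1 / (2 * N)) = ((b : ℝ) - a) - 1 / 2 := by
          field_simp
        linarith
      have e9 : (R.card : ℝ) ≤ (b : ℝ) + 1 - a := by
        have h1 : R.card + a ≤ b + 1 := by omega
        have h2 : ((R.card + a : ℕ) : ℝ) ≤ ((b + 1 : ℕ) : ℝ) := by exact_mod_cast h1
        push_cast at h2
        linarith
      linarith

theorem weak_of_isFlat {U : Ultrafilter ℕ} (hU : (U : Filter ℕ) ≤ cofinite)
    (h : ∃ h : ℕ → ℕ → ℝ, (∀ n j, 0 ≤ h n j ∧ h n j ≤ 1) ∧ (∀ n, h n 0 = 1) ∧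
      (∀ n, Tendsto (h n) atTop (𝓝 0)) ∧ ∀ f : ℕ → ℕ, StrictMono f →
        Tendsto (fun n => ⨆ j, |h n j - h n (f j)|) (U : Filter ℕ) (𝓝 0)) : Weak U := by
  classical
  obtain ⟨h, hb, h0, hlim, hf⟩ := h
  -- the decreasing majorants
  set H : ℕ → ℕ → ℝ := fun n j => ⨆ i, h n (j + i) with hH
  have bdd : ∀ n j, BddAbove (Set.range fun i => h n (j + i)) := by
    intro n j
    exact ⟨1, by rintro _ ⟨i, rfl⟩; exact (hb n _).2⟩
  have hle : ∀ n j i, j ≤ i → h n i ≤ H n j := by
    intro n j i hji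
    have h1 := le_ciSup (bdd n j) (i - j)
    have h2 : j + (i - j) = i := by omega
    simpa only [h2] using h1
  have hanti : ∀ n, Antitone (H n) := by
    intro n j j' hj
    exact ciSup_le fun i => hle n j _ (by omega)
  have hH0 : ∀ n, H n 0 = 1 := by
    intro n
    apply le_antisymm
    · exact ciSup_le fun i => (hb n _).2
    · have := hle n 0 0 le_rfl
      rwa [h0] at this
  have hHl : ∀ n, ∀ δ : ℝ, 0 < δ → ∃ j, H n j ≤ δ := by
    intro n δ hδ
    have h1 := (hlim n).eventually (ge_mem_nhds hδ)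
    obtain ⟨j, hj⟩ := eventually_atTop.1 h1
    exact ⟨j, ciSup_le fun i => hj _ (by omega)⟩
  have bdd' : ∀ (f : ℕ → ℕ) n, BddAbove (Set.range fun j => |h n j - h n (f j)|) := by
    intro f n
    refine ⟨1, ?_⟩
    rintro _ ⟨j, rfl⟩
    have h1 := hb n j
    have h2 := hb n (f j)
    simp only
    rw [abs_le]
    constructor <;> linarith
  have hdiff : ∀ f : ℕ → ℕ, StrictMono f → ∀ n j,
      H n j - H n (f j) ≤ ⨆ j, |h n j - h n (f j)| := by
    intro f hfm n j
    have h1 : H n j ≤ H n (f j) + ⨆ j, |h n j - h n (f j)| := by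
      refine ciSup_le fun i => ?_
      have h2 := le_ciSup (bdd' f n) (j + i)
      have h3 := hle n (f j) (f (j + i)) (hfm.monotone (by omega))
      have h4 := le_abs_self (h n (j + i) - h n (f (j + i)))
      linarith
    linarith
  -- the number of steps
  set N : ℕ → ℕ := fun n => Nat.findGreatest
    (fun N => ∀ j, 2 * (N : ℝ) * (H n j - H n (j + 1)) ≤ 1) n with hNdef
  have hN1 : ∀ n, ∀ j, 2 * (N n : ℝ) * (H n j - H n (j + 1)) ≤ 1 := by
    intro n
    exact Nat.findGreatest_spec (P := fun N => ∀ j, 2 * (N : ℝ) * (H n j - H n (j + 1)) ≤ 1)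
      (Nat.zero_le n) (fun j => by simp)
  have hsm : StrictMono Nat.succ := strictMono_nat_of_lt_succ fun i => Nat.lt_succ_self _
  have hN2 : ∀ c : ℕ, ∀ᶠ n in (U : Filter ℕ), c ≤ N n := by
    intro c
    have h1 : ∀ᶠ n in (U : Filter ℕ), c ≤ n := by
      have : ∀ᶠ n in (cofinite : Filter ℕ), c ≤ n := by
        rw [Nat.cofinite_eq_atTop]; exact eventually_ge_atTop c
      exact hU this
    have h2 : ∀ᶠ n in (U : Filter ℕ),
        (⨆ j, |h n j - h n (Nat.succ j)|) ≤ 1 / (2 * ((c : ℝ) + 1)) :=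
      (hf Nat.succ hsm).eventually (ge_mem_nhds (by positivity))
    filter_upwards [h1, h2] with n hn1 hn2
    refine Nat.le_findGreatest hn1 fun j => ?_
    have h3 := (hdiff Nat.succ hsm n j).trans hn2
    have h4 : 2 * (c : ℝ) * (H n j - H n (j + 1)) ≤ 2 * (c : ℝ) * (1 / (2 * ((c : ℝ) + 1))) :=
      mul_le_mul_of_nonneg_left h3 (by positivity)
    refine h4.trans ?_
    rw [mul_one_div, div_le_one (by positivity)]
    linarith
  -- the sets
  have hA : ∀ n, ∃ A : Finset ℕ, A.Nonempty ∧ (2 ≤ N n → A.card = N n - 1 ∧ ∀ i l, i ≤ l →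
      ((A.filter fun x => i ≤ x ∧ x < l).card : ℝ) ≤ 3 / 2 + N n * (H n i - H n l)) := by
    intro n
    by_cases h2 : 2 ≤ N n
    · obtain ⟨A, hA1, hA2⟩ := FLATA_set (H n) (hanti n) (hH0 n) (hHl n) (N n) h2 (hN1 n)
      exact ⟨A, Finset.card_pos.1 (by omega), fun _ => ⟨hA1, hA2⟩⟩
    · exact ⟨{0}, Finset.singleton_nonempty 0, fun h3 => absurd h3 h2⟩
  choose A hA1 hA2 using hA
  refine ⟨A, hA1, ?_⟩
  intro f k
  -- a strictly increasing majorant
  set f' : ℕ → ℕ := fun i => i + 1 + ∑ l ∈ Finset.range (i + 1), f l with hf'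
  have hf'm : StrictMono f' := by
    refine strictMono_nat_of_lt_succ fun i => ?_
    simp only [hf']
    rw [Finset.sum_range_succ _ (i + 1)]
    omega
  have hf'f : ∀ i, f i ≤ f' i := by
    intro i
    simp only [hf']
    rw [Finset.sum_range_succ]
    omega
  have hf'i : ∀ i, i ≤ f' i := by
    intro i
    simp only [hf']
    omega
  have h1 : ∀ᶠ n in (U : Filter ℕ), (⨆ j, |h n j - h n (f' j)|) ≤ 1 / (4 * ((k : ℝ) + 1)) :=
    (hf f' hf'm).eventually (ge_mem_nhds (by positivity))
  filter_upwards [h1, hN2 (4 * k + 2)] with n hn1 hn2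
  intro i
  obtain ⟨hc1, hc2⟩ := hA2 n (by omega)
  have h3 : ((A n).filter fun x => i ≤ x ∧ x < f i).card ≤
      ((A n).filter fun x => i ≤ x ∧ x < f' i).card := by
    apply Finset.card_le_card
    intro x hx
    rw [Finset.mem_filter] at hx ⊢
    exact ⟨hx.1, hx.2.1, lt_of_lt_of_le hx.2.2 (hf'f i)⟩
  have h4 := hc2 i (f' i) (hf'i i)
  have h5 := (hdiff f' hf'm n i).trans hn1
  have hNr : (4 * (k : ℝ) + 2) ≤ N n := by exact_mod_cast hn2
  have h6 : (N n : ℝ) * (H n i - H n (f' i)) ≤ N n * (1 / (4 * ((k : ℝ) + 1))) :=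
    mul_le_mul_of_nonneg_left h5 (by positivity)
  have h7 : (((A n).filter fun x => i ≤ x ∧ x < f i).card : ℝ) ≤
      3 / 2 + N n * (1 / (4 * ((k : ℝ) + 1))) := by
    have : (((A n).filter fun x => i ≤ x ∧ x < f i).card : ℝ) ≤
      (((A n).filter fun x => i ≤ x ∧ x < f' i).card : ℝ) := by exact_mod_cast h3
    linarith
  have h8 : (((A n).filter fun x => i ≤ x ∧ x < f i).card : ℝ) * k ≤
      (3 / 2 + N n * (1 / (4 * ((k : ℝ) + 1)))) * k :=
    mul_le_mul_of_nonneg_right h7 (by positivity)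
  have h9 : (3 / 2 + N n * (1 / (4 * ((k : ℝ) + 1)))) * k ≤ 3 / 2 * k + N n / 4 := by
    have : (N n : ℝ) * (1 / (4 * ((k : ℝ) + 1))) * k ≤ N n / 4 := by
      rw [mul_one_div, div_mul_eq_mul_div, div_le_div_iff₀ (by positivity) (by positivity)]
      have : (0:ℝ) ≤ N n := by positivity
      nlinarith
    rw [add_mul]
    linarith
  have h10 : (((A n).filter fun x => i ≤ x ∧ x < f i).card : ℝ) * k + 1 ≤ N n := by
    have : (0:ℝ) ≤ k := by positivity
    linarith
  have h11 : ((A n).filter fun x => i ≤ x ∧ x < f i).card * k + 1 ≤ N n := by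
    exact_mod_cast h10
  rw [hc1]
  omega

end SV
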