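import Pool.Agent.H79.SV.Defs

/-!
# FLATB: the weak form implies flatness

`isFlat_of_weak`. `h n j = 1 - |{x ∈ A n | x < j}| / |A n|`. For strictly increasing `f` we have `j ≤ f j` and
`|h n j - h n (f j)| = |A n ∩ [j, f j)| / |A n| ≤ 1 / k` for `U`-almost all `n`.
-/

set_option autoImplicit false

open Filter Topology

namespace SV

theorem flatb_card (A : Finset ℕ) {i j : ℕ} (hij : i ≤ j) :
    ((A.filter fun x => x < j).card : ℝ) - ((A.filter fun x => x < i).card : ℝ) =
      ((A.filter fun x => i ≤ x ∧ x < j).card : ℝ) := by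
  have h : (A.filter fun x => x < j).card =
      (A.filter fun x => x < i).card + (A.filter fun x => i ≤ x ∧ x < j).card := by
    rw [← Finset.card_union_of_disjoint]
    · congr 1
      ext x
      simp only [Finset.mem_filter, Finset.mem_union]
      constructor
      · rintro ⟨h1, h2⟩
        rcases lt_or_ge x i with h3 | h3
        · exact Or.inl ⟨h1, h3⟩
        · exact Or.inr ⟨h1, h3, h2⟩
      · rintro (⟨h1, h2⟩ | ⟨h1, h2, h3⟩)
        · exact ⟨h1, h2.trans_le hij⟩
        · exact ⟨h1, h3⟩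
    · rw [Finset.disjoint_left]
      intro x hx hx'
      simp only [Finset.mem_filter] at hx hx'
      omega
  rw [h]
  push_cast
  ring

theorem isFlat_of_weak {U : Ultrafilter ℕ} (h : Weak U) :
    ∃ h : ℕ → ℕ → ℝ, (∀ n j, 0 ≤ h n j ∧ h n j ≤ 1) ∧ (∀ n, h n 0 = 1) ∧
      (∀ n, Tendsto (h n) atTop (𝓝 0)) ∧ ∀ f : ℕ → ℕ, StrictMono f →
        Tendsto (fun n => ⨆ j, |h n j - h n (f j)|) (U : Filter ℕ) (𝓝 0) := by
  obtain ⟨A, hA, hA'⟩ := h
  have hpos : ∀ n, (0 : ℝ) < ((A n).card : ℝ) := fun n => by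
    exact_mod_cast Finset.card_pos.2 (hA n)
  refine ⟨fun n j => 1 - (((A n).filter fun x => x < j).card : ℝ) / ((A n).card : ℝ), ?_, ?_, ?_, ?_⟩
  · intro n j
    have h1 : (((A n).filter fun x => x < j).card : ℝ) ≤ ((A n).card : ℝ) := by
      exact_mod_cast Finset.card_filter_le _ _
    have h2 : (((A n).filter fun x => x < j).card : ℝ) / ((A n).card : ℝ) ≤ 1 :=
      (div_le_one (hpos n)).2 h1
    have h3 : 0 ≤ (((A n).filter fun x => x < j).card : ℝ) / ((A n).card : ℝ) := by positivity
    constructor <;> linarith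
  · intro n
    simp
  · intro n
    refine tendsto_const_nhds.congr' ?_
    obtain ⟨b, hb⟩ := (A n).bddAbove
    filter_upwards [eventually_gt_atTop b] with j hj
    have h1 : (A n).filter (fun x => x < j) = A n := by
      refine Finset.filter_true_of_mem fun x hx => ?_
      exact lt_of_le_of_lt (hb hx) hj
    rw [h1, div_self (hpos n).ne', sub_self]
  · intro f hf
    rw [Metric.tendsto_nhds]
    intro ε hε
    obtain ⟨k, hk⟩ := exists_nat_gt (1 / ε)
    have hk0 : (0 : ℝ) < (k : ℝ) := lt_trans (by positivity) hk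
    filter_upwards [hA' f k] with n hn
    have hle : ∀ j, |(1 - (((A n).filter fun x => x < j).card : ℝ) / ((A n).card : ℝ)) -
        (1 - (((A n).filter fun x => x < f j).card : ℝ) / ((A n).card : ℝ))| ≤ 1 / k := by
      intro j
      have h1 := flatb_card (A n) (hf.le_apply (x := j))
      have h2 : (1 - (((A n).filter fun x => x < j).card : ℝ) / ((A n).card : ℝ)) -
        (1 - (((A n).filter fun x => x < f j).card : ℝ) / ((A n).card : ℝ)) =
          (((A n).filter fun x => j ≤ x ∧ x < f j).card : ℝ) / ((A n).card : ℝ) := by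
        rw [← h1]
        ring
      rw [h2, abs_of_nonneg (by positivity), div_le_div_iff₀ (hpos n) hk0, one_mul]
      exact_mod_cast hn j
    have h3 : (⨆ j, |(1 - (((A n).filter fun x => x < j).card : ℝ) / ((A n).card : ℝ)) -
        (1 - (((A n).filter fun x => x < f j).card : ℝ) / ((A n).card : ℝ))|) ≤ 1 / k :=
      ciSup_le hle
    have h4 : 0 ≤ ⨆ j, |(1 - (((A n).filter fun x => x < j).card : ℝ) / ((A n).card : ℝ)) -
        (1 - (((A n).filter fun x => x < f j).card : ℝ) / ((A n).card : ℝ))| :=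
      Real.iSup_nonneg fun j => abs_nonneg _
    rw [Real.dist_eq, sub_zero, abs_of_nonneg h4]
    refine lt_of_le_of_lt h3 ?_
    rw [div_lt_iff₀ hk0]
    rw [div_lt_iff₀ hε] at hk
    linarith

end SV
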