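import Pool.Agent.H79.SV.BMain
import Pool.Agent.H79.SV.FaithC
import Pool.Agent.H79.SV.FlatA
import Pool.Agent.H79.SV.FlatB
import Pool.Agent.H86.CommG

/-!
# FINAL: both parts of the theorem
-/

set_option autoImplicit false

open Filter BV PK HM HF PM

namespace SV

theorem allFlat_iff : AllFlat (fun x y : ZFSet.{0} => x ∈ y) ↔
    ∀ U : Ultrafilter ℕ, (U : Filter ℕ) ≤ cofinite →
      ¬ Pool.Agent.H86.Comm.TrivialCommutant U := by
  have key : ∀ U : Ultrafilter ℕ, (U : Filter ℕ) ≤ cofinite →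
      (Flat VE omz (encF {X | X ∈ U}) ↔ ¬ Pool.Agent.H86.Comm.TrivialCommutant U) := by
    intro U hU
    rw [(Pool.Agent.H86.Comm.main U).1, not_not, flat_V]
    exact ⟨isFlat_of_weak, weak_of_isFlat hU⟩
  constructor
  · rintro ⟨w, hw, h⟩ U hU
    have hw' : w = omz := (isOmega_V w).1 hw
    subst hw'
    exact (key U hU).1 (h _ ((isFreeUlt_V _).2 ⟨U, hU, rfl⟩))
  · intro h
    refine ⟨omz, (isOmega_V omz).2 rfl, fun u hu => ?_⟩
    obtain ⟨U, hU, rfl⟩ := (isFreeUlt_V u).1 hu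
    exact (key U hU).2 (h U hU)

end SV
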