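import Pool.Agent.H79.SV.Basic

/-!
# Forcing relation for a name of an ultrafilter

`FU p φ` stands for `p` forces `{m | φ g m} ∈ U`, where `U` is a name of a free ultrafilter on `ℕ`; it is
considered only for conditions below `p₀` and for names `φ` below `p`.
-/

set_option autoImplicit false

namespace SV

open Cond

variable {K : Type}

/-- the properties of the forcing relation of a free ultrafilter -/
structure IsU (p₀ : Cond K) (FU : Cond K → (Gen K → ℕ → Prop) → Prop) : Prop where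
  le : ∀ p φ, FU p φ → p ≤ p₀
  nm : ∀ p φ, FU p φ → Nm p φ
  mono : ∀ p q φ, q ≤ p → FU p φ → FU q φ
  dense : ∀ p φ, p ≤ p₀ → Nm p φ → (∀ q, q ≤ p → ∃ r, r ≤ q ∧ FU r φ) → FU p φ
  dec : ∀ p φ, p ≤ p₀ → Nm p φ → ∃ q, q ≤ p ∧ (FU q φ ∨ FU q fun g m => ¬ φ g m)
  up : ∀ p φ ψ, FU p φ → Nm p ψ → (∀ g ∈ p.pts, ∀ m, φ g m → ψ g m) → FU p ψ
  inter : ∀ p φ ψ, FU p φ → FU p ψ → FU p fun g m => φ g m ∧ ψ g m
  free : ∀ p φ (k : ℕ), FU p φ → ∃ g ∈ p.pts, ∃ m, k ≤ m ∧ φ g m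

variable {p₀ : Cond K} {FU : Cond K → (Gen K → ℕ → Prop) → Prop}

namespace IsU

variable (h : IsU p₀ FU)
include h

/-- sets forced to be in `U` are nonempty -/
theorem ex {p : Cond K} {φ : Gen K → ℕ → Prop} (hp : FU p φ) : ∃ g ∈ p.pts, ∃ m, φ g m := by
  obtain ⟨g, hg, m, -, hm⟩ := h.free p φ 0 hp
  exact ⟨g, hg, m, hm⟩

/-- `p` and `q ≤ p` cannot force contradictory statements -/
theorem false_of {p : Cond K} {φ ψ : Gen K → ℕ → Prop} (h1 : FU p φ) (h2 : FU p ψ)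
    (hf : ∀ g ∈ p.pts, ∀ m, φ g m → ψ g m → False) : False := by
  obtain ⟨g, hg, m, hm⟩ := h.ex (h.inter p φ ψ h1 h2)
  exact hf g hg m hm.1 hm.2

theorem false_not {p : Cond K} {φ : Gen K → ℕ → Prop} (h1 : FU p φ)
    (h2 : FU p fun g m => ¬ φ g m) : False := h.false_of h1 h2 fun _ _ _ h3 h4 => h4 h3

/-- a statement which is not forced fails below some extension -/
theorem exists_not {p : Cond K} {φ : Gen K → ℕ → Prop} (hp : p ≤ p₀) (hn : Nm p φ)
    (hφ : ¬ FU p φ) : ∃ q, q ≤ p ∧ FU q fun g m => ¬ φ g m := by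
  by_contra hcon
  push Not at hcon
  refine hφ (h.dense p φ hp hn fun q hq => ?_)
  obtain ⟨r, hr, h1 | h1⟩ := h.dec q φ (hq.trans hp) (hn.mono hq)
  · exact ⟨r, hr, h1⟩
  · exact absurd h1 (hcon r (hr.trans hq))

/-- to force `φ` it is enough to exclude the negation -/
theorem of_not {p : Cond K} {φ : Gen K → ℕ → Prop} (hp : p ≤ p₀) (hn : Nm p φ)
    (hφ : ∀ q, q ≤ p → ¬ FU q fun g m => ¬ φ g m) : FU p φ := by
  by_contra hcon
  obtain ⟨q, hq, h1⟩ := h.exists_not hp hn hcon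
  exact hφ q hq h1

/-- all sufficiently large numbers -/
theorem ge {p : Cond K} (hp : p ≤ p₀) (c : ℕ) : FU p fun _ m => c ≤ m := by
  refine h.of_not hp (fun m => Ctn.const _) fun q _ hq => ?_
  obtain ⟨g, _, m, hm, h2⟩ := h.free q _ c hq
  exact h2 hm

/-- names which hold everywhere -/
theorem all {p : Cond K} {φ : Gen K → ℕ → Prop} (hp : p ≤ p₀) (hn : Nm p φ)
    (hφ : ∀ g ∈ p.pts, ∀ m, φ g m) : FU p φ :=
  h.up p _ φ (h.ge hp 0) hn fun g hg m _ => hφ g hg m

theorem up₂ {p : Cond K} {φ ψ χ : Gen K → ℕ → Prop} (h1 : FU p φ) (h2 : FU p ψ) (hn : Nm p χ)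
    (hi : ∀ g ∈ p.pts, ∀ m, φ g m → ψ g m → χ g m) : FU p χ :=
  h.up p _ χ (h.inter p φ ψ h1 h2) hn fun g hg m hm => hi g hg m hm.1 hm.2

/-- finite intersections -/
theorem all_lt {p : Cond K} {φ : ℕ → Gen K → ℕ → Prop} (hp : p ≤ p₀) (n : ℕ)
    (hφ : ∀ i < n, FU p (φ i)) : FU p fun g m => ∀ i < n, φ i g m := by
  induction n with
  | zero => exact h.all hp (fun m => (Ctn.const True).congr fun g _ => by simp) fun g _ m i hi => by omega
  | succ n ih =>
    have h1 := ih fun i hi => hφ i (by omega)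
    have h2 := hφ n (by omega)
    refine h.up p _ _ (h.inter p _ _ h1 h2) (fun m => ?_) fun g _ m hm i hi => ?_
    · refine ((h.nm _ _ (h.inter p _ _ h1 h2)) m).congr fun g _ => ?_
      apply propext
      constructor
      · exact fun h3 => ⟨fun i hi => h3 i (by omega), h3 n (by omega)⟩
      · rintro ⟨h3, h4⟩ i hi
        rcases Nat.lt_succ_iff_lt_or_eq.1 hi with h5 | h5
        · exact h3 i h5
        · rw [h5]; exact h4
    · rcases Nat.lt_succ_iff_lt_or_eq.1 hi with h5 | h5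
      · exact hm.1 i h5
      · rw [h5]; exact hm.2

/-- if a disjunction of two names is forced, one of the members is forced below -/
theorem or {p : Cond K} {φ ψ : Gen K → ℕ → Prop} (hφ : Nm p φ)
    (hψ : Nm p ψ) (h1 : FU p fun g m => φ g m ∨ ψ g m) :
    ∃ q, q ≤ p ∧ (FU q φ ∨ FU q ψ) := by
  have hp := h.le _ _ h1
  obtain ⟨q, hq, h2 | h2⟩ := h.dec p φ hp hφ
  · exact ⟨q, hq, Or.inl h2⟩
  · exact ⟨q, hq, Or.inr (h.up₂ (h.mono p q _ hq h1) h2 (hψ.mono hq) fun g _ m h3 h4 =>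
      h3.resolve_left h4)⟩

/-- if a finite disjunction of names is forced, one of the members is forced below -/
theorem ex_lt {p : Cond K} {φ : ℕ → Gen K → ℕ → Prop} (hφ : ∀ i, Nm p (φ i)) (n : ℕ)
    (h1 : FU p fun g m => ∃ i < n, φ i g m) : ∃ q, q ≤ p ∧ ∃ i < n, FU q (φ i) := by
  by_contra hcon
  push Not at hcon
  have hp := h.le _ _ h1
  have h2 : ∀ k ≤ n, ∃ q, q ≤ p ∧ FU q fun g m => ∀ i < k, ¬ φ i g m := by
    intro k
    induction k with
    | zero => exact fun _ => ⟨p, le_rfl, h.all hp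
        (fun m => (Ctn.const True).congr fun g _ => by simp) fun g _ m i hi => by omega⟩
    | succ k ih =>
      intro hk
      obtain ⟨q, hq, h3⟩ := ih (by omega)
      obtain ⟨r, hr, h4 | h4⟩ := h.dec q (φ k) (hq.trans hp) ((hφ k).mono hq)
      · exact absurd h4 (hcon r (hr.trans hq) k (by omega))
      · refine ⟨r, hr.trans hq, h.up₂ (h.mono q r _ hr h3) h4 (fun m => ?_) fun g _ m h5 h6 i hi => ?_⟩
        · exact Ctn.ball_lt (fun i => ((hφ i m).mono (hr.trans hq)).comp Not) (k + 1)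
        · rcases Nat.lt_succ_iff_lt_or_eq.1 hi with h7 | h7
          · exact h5 i h7
          · rw [h7]; exact h6
  obtain ⟨q, hq, h3⟩ := h2 n le_rfl
  exact h.false_of (h.mono p q _ hq h1) h3 fun g _ m ⟨i, hi, h4⟩ h5 => h5 i hi h4

/-- it is enough to force `φ` below the conditions `p.add F g` -/
theorem of_add {p : Cond K} {φ : Gen K → ℕ → Prop} (hp : p ≤ p₀) (hn : Nm p φ)
    (hφ : ∀ g ∈ p.pts, ∃ F : Finset (K × ℕ), FU (p.add F g) φ) : FU p φ := by
  refine h.dense p φ hp hn fun q hq => ?_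
  obtain ⟨g, hg⟩ := q.pts_nonempty
  obtain ⟨F, hF⟩ := hφ g (pts_mono hq hg)
  exact ⟨q.add F g, add_le _ _ _, h.mono _ _ _ (add_le_add_pts hq hg) hF⟩

end IsU

/-- `x` is a name of an infinite element of the ultrapower of `ℕ` -/
def Infn (FU : Cond K → (Gen K → ℕ → Prop) → Prop) (p : Cond K) (x : Gen K → ℕ → ℕ) : Prop :=
  Nm p x ∧ ∀ c : ℕ, FU p fun g m => c ≤ x g m

theorem Infn.mono {p q : Cond K} {x : Gen K → ℕ → ℕ} (h : IsU p₀ FU) (hx : Infn FU p x)
    (hq : q ≤ p) : Infn FU q x := ⟨hx.1.mono hq, fun c => h.mono p q _ hq (hx.2 c)⟩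

theorem Infn.id {p : Cond K} (h : IsU p₀ FU) (hp : p ≤ p₀) : Infn FU p fun _ m => m :=
  ⟨fun m => Ctn.const m, fun c => h.ge hp c⟩

/-- elements above an infinite one are infinite -/
theorem Infn.up {p : Cond K} {x y : Gen K → ℕ → ℕ} (h : IsU p₀ FU) (hx : Infn FU p x)
    (hy : Nm p y) (hxy : FU p fun g m => x g m ≤ y g m) : Infn FU p y :=
  ⟨hy, fun c => h.up₂ (hx.2 c) hxy (fun m => (hy m).comp (c ≤ ·)) fun _ _ _ h1 h2 => h1.trans h2⟩

theorem Infn.min {p : Cond K} {x y : Gen K → ℕ → ℕ} (h : IsU p₀ FU) (hx : Infn FU p x)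
    (hy : Infn FU p y) : Infn FU p fun g m => min (x g m) (y g m) := by
  have hn : Nm p fun g m => Min.min (x g m) (y g m) := fun m => (hx.1 m).comp₂ (hy.1 m) Min.min
  exact ⟨hn, fun c => h.up₂ (hx.2 c) (hy.2 c) (fun m => (hn m).comp (c ≤ ·))
    fun _ _ _ h1 h2 => le_min h1 h2⟩

open Classical in
/-- the largest `n ≤ m` with `φ n` is infinite if all `φ n` are forced (and `φ` is decreasing) -/
theorem Infn.findGreatest {p : Cond K} {φ : ℕ → Gen K → ℕ → Prop} {N : Gen K → ℕ → ℕ}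
    (h : IsU p₀ FU) (hN : Infn FU p N) (hn : ∀ i, Nm p (φ i)) (hφ : ∀ i, FU p (φ i)) :
    Infn FU p fun g m => Nat.findGreatest (fun i => φ i g m) (N g m) := by
  have h1 : Nm p fun g m => Nat.findGreatest (fun i => φ i g m) (N g m) :=
    fun m => Ctn.findGreatest (hN.1 m) fun i => hn i m
  refine ⟨h1, fun c => h.up₂ (hφ c) (hN.2 c) (fun m => (h1 m).comp (c ≤ ·)) ?_⟩
  intro g _ m h2 h3
  exact Nat.le_findGreatest h3 h2

/-- `Fast f s`: the elements of the finite set `s` grow faster than `f` -/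
def Fast (f : ℕ → ℕ) (s : Finset ℕ) : Prop := ∀ a ∈ s, ∀ b ∈ s, a < b → f a < b

/-- `q` forces that `U` is flat, in the strong form: there is a sequence of finite sets of natural numbers
(the values of the name `S`) whose sizes are infinite modulo `U` and which are `f`-fast modulo `U` for all `f` of the
ground model -/
def FlatWit (FU : Cond K → (Gen K → ℕ → Prop) → Prop) (q : Cond K) : Prop :=
  ∃ S : Gen K → ℕ → Finset ℕ, Nm q S ∧
    ∀ (f : ℕ → ℕ) (k : ℕ), FU q fun g m => k ≤ (S g m).card ∧ Fast f (S g m)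

end SV
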