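import Pool.Agent.H79.SV.Basic

/-!
# FUS: the fusion lemma

Proof. Choose for every condition `p` an enumeration `en p : ℕ → K` whose range contains
`{a | ∃ n, p.val a n ≠ none}` (countable; if `K` is empty there is nothing to keep free, treat this case first or use
`K → …` nonempty from the support). A state is `(p, F, t, L)` with a condition `p`, `F : Finset (K × ℕ)`, `p.fr F`,
`Q p t`, and a list `L : List (ℕ → K)` (all enumerations so far). Next state of stage `n`: `step n F p t`
gives `q`, `t'` with `Ext F q p`, `Q q t'`, `R n F q t t'`; `L' = en q :: L`; and `F' = F ∪` (for all `c ∈ L'` and all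
`j ≤ n` one place `(c j, l)` with `q.val (c j) l = none` and `(c j, l) ∉ F`, it exists because the column is
coinfinite; take e.g. `l` larger than all second coordinates of `F`). Start with `(p, F₀, t₀, [en p])`.
The limit condition `q` has `q.val a n = some v` iff some `p_k.val a n = some v` (for example
`if h : ∃ k, (p_k.val a n).isSome then p_(Nat.find h).val a n else none`); its support is the countable union of the supports;
a column `a` which is in the support of some `p_k` is `en p_k j` for some `j`, so all stages `n ≥ max k j` put a new place of the column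
`a` into `F (n + 1)`, and all these places are free in all `p_i`: so the column is coinfinite in `q`; the other columns
are empty. `q ≤ p_n` and `q.fr (F n)` for all `n`, now `hQ` and `hR` give the rest (`R n (F n) p_(n+1) (t n) (t (n+1))`,
`Ext (F n) q p_(n+1)`).
-/

set_option autoImplicit false

namespace SV

open Cond

variable {K : Type}

theorem fus_enum (p : Cond K) : ∃ f : ℕ → Option K, ∀ a, (∃ n, p.val a n ≠ none) →
    ∃ j, f j = some a := by
  have h := p.supp
  have hc : Countable {a | ∃ n, p.val a n ≠ none} := h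
  have e : Encodable {a | ∃ n, p.val a n ≠ none} := Encodable.ofCountable _
  refine ⟨fun j => (e.decode j).map Subtype.val, fun a ha => ⟨e.encode ⟨a, ha⟩, ?_⟩⟩
  show Option.map Subtype.val (e.decode (e.encode ⟨a, ha⟩)) = some a
  rw [e.encodek]
  rfl

theorem fus_new (q : Cond K) (F : Finset (K × ℕ)) (hF : q.fr F) (C : Finset K) :
    ∃ F' : Finset (K × ℕ), F ⊆ F' ∧ q.fr F' ∧ ∀ a ∈ C, ∃ l, (a, l) ∈ F' ∧ (a, l) ∉ F := by
  classical
  have h : ∀ a, ∃ l, q.val a l = none ∧ (a, l) ∉ F := by
    intro a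
    obtain ⟨l, hl, hl'⟩ := ((q.inf a).sdiff (F.image Prod.snd).finite_toSet).nonempty
    refine ⟨l, hl, fun h => hl' ?_⟩
    simp only [Finset.coe_image, Set.mem_image, Finset.mem_coe]
    exact ⟨(a, l), h, rfl⟩
  choose l hl hl' using h
  refine ⟨F ∪ C.image fun a => (a, l a), Finset.subset_union_left, ?_, ?_⟩
  · intro z hz
    rcases Finset.mem_union.1 hz with hz | hz
    · exact hF z hz
    · obtain ⟨a, _, rfl⟩ := Finset.mem_image.1 hz
      exact hl a
  · intro a ha
    exact ⟨l a, Finset.mem_union_right _ (Finset.mem_image_of_mem _ ha), hl' a⟩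

theorem fus_cols (en : Cond K → ℕ → Option K) (L : List (Cond K)) (n : ℕ) :
    ∃ C : Finset K, ∀ c ∈ L, ∀ j ≤ n, ∀ a, en c j = some a → a ∈ C := by
  classical
  induction L with
  | nil => exact ⟨∅, by simp⟩
  | cons c L ih =>
    obtain ⟨C, hC⟩ := ih
    refine ⟨C ∪ (Finset.range (n + 1)).biUnion fun j => (en c j).toFinset, ?_⟩
    intro c' hc' j hj a ha
    rcases List.mem_cons.1 hc' with h | h
    · subst h
      refine Finset.mem_union_right _ (Finset.mem_biUnion.2 ⟨j, by simpa using by omega, ?_⟩)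
      rw [Option.mem_toFinset, ha]
      rfl
    · exact Finset.mem_union_left _ (hC c' h j hj a ha)

/-- states of the construction -/
structure FusSt (K : Type) (T : Type*) where
  p : Cond K
  F : Finset (K × ℕ)
  t : T
  L : List (Cond K)

theorem fusion {T : Type*} (Q : Cond K → T → Prop)
    (R : ℕ → Finset (K × ℕ) → Cond K → T → T → Prop)
    (hQ : ∀ p q t, q ≤ p → Q p t → Q q t)
    (hR : ∀ n F p q t t', Ext F q p → R n F p t t' → R n F q t t')
    (step : ∀ n F p t, p.fr F → Q p t → ∃ q t', Ext F q p ∧ Q q t' ∧ R n F q t t')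
    (F₀ : Finset (K × ℕ)) (p : Cond K) (t₀ : T) (hF : p.fr F₀) (h : Q p t₀) :
    ∃ (q : Cond K) (t : ℕ → T) (F : ℕ → Finset (K × ℕ)), Ext F₀ q p ∧ t 0 = t₀ ∧ Monotone F ∧
      F₀ ⊆ F 0 ∧ (∀ n, q.fr (F n)) ∧ (∀ n, Q q (t n)) ∧ ∀ n, R n (F n) q (t n) (t (n + 1)) := by
  classical
  choose en hen using fus_enum (K := K)
  -- one step
  have hnext : ∀ (n : ℕ) (σ : {σ : FusSt K T // σ.p.fr σ.F ∧ Q σ.p σ.t ∧ σ.p ∈ σ.L}),
      ∃ σ' : {σ : FusSt K T // σ.p.fr σ.F ∧ Q σ.p σ.t ∧ σ.p ∈ σ.L},
        Ext σ.1.F σ'.1.p σ.1.p ∧ σ.1.F ⊆ σ'.1.F ∧ R n σ.1.F σ'.1.p σ.1.t σ'.1.t ∧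
        (∀ c ∈ σ.1.L, c ∈ σ'.1.L) ∧ ∀ c ∈ σ.1.L, ∀ j ≤ n, ∀ a, en c j = some a →
          ∃ l, (a, l) ∈ σ'.1.F ∧ (a, l) ∉ σ.1.F := by
    rintro n ⟨⟨p, F, t, L⟩, h1, h2, h3⟩
    obtain ⟨q, t', hq, hQq, hRq⟩ := step n F p t h1 h2
    obtain ⟨C, hC⟩ := fus_cols en L n
    obtain ⟨F', hFF', hF', hF''⟩ := fus_new q F hq.2 C
    exact ⟨⟨⟨q, F', t', q :: L⟩, hF', hQq, List.mem_cons_self⟩, hq, hFF', hRq,
      fun c hc => List.mem_cons_of_mem _ hc, fun c hc j hj a ha => hF'' a (hC c hc j hj a ha)⟩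
  choose next hnext using hnext
  set σ : ℕ → {σ : FusSt K T // σ.p.fr σ.F ∧ Q σ.p σ.t ∧ σ.p ∈ σ.L} :=
    fun n => Nat.rec ⟨⟨p, F₀, t₀, [p]⟩, hF, h, List.mem_singleton_self p⟩ next n with hσ
  have hs : ∀ n, σ (n + 1) = next n (σ n) := fun n => rfl
  have hExt : ∀ n, Ext (σ n).1.F (σ (n + 1)).1.p (σ n).1.p := fun n => (hnext n (σ n)).1
  have hle : ∀ n, (σ (n + 1)).1.p ≤ (σ n).1.p := fun n => (hExt n).1
  have hanti : ∀ m n, m ≤ n → (σ n).1.p ≤ (σ m).1.p := by
    intro m n hmn
    exact antitone_nat_of_succ_le (f := fun n => (σ n).1.p) hle hmn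
  have hFmono : Monotone fun n => (σ n).1.F :=
    monotone_nat_of_le_succ fun n => (hnext n (σ n)).2.1
  have hLmono : ∀ m n, m ≤ n → ∀ c ∈ (σ m).1.L, c ∈ (σ n).1.L := by
    intro m n hmn
    induction n, hmn using Nat.le_induction with
    | base => exact fun c hc => hc
    | succ n _ ih => exact fun c hc => (hnext n (σ n)).2.2.2.1 c (ih c hc)
  have hfr : ∀ m n, (σ m).1.p.fr (σ n).1.F := by
    intro m n
    rcases le_total m n with hmn | hmn
    · exact (σ n).2.1.of_le (hanti m n hmn)
    · exact (σ m).2.1.mono (hFmono hmn)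
  -- the limit condition
  have hcompat : ∀ a l m n v, (σ m).1.p.val a l = some v → (σ n).1.p.val a l ≠ none →
      (σ n).1.p.val a l = some v := by
    intro a l m n v hv hn
    rcases le_total m n with hmn | hmn
    · exact hanti m n hmn a l v hv
    · obtain ⟨w, hw⟩ := Option.ne_none_iff_exists'.1 hn
      have := hanti n m hmn a l w hw
      rw [hv] at this
      rw [hw, this]
  set val : K → ℕ → Option Bool := fun a l =>
    if h : ∃ k, (σ k).1.p.val a l ≠ none then (σ (Nat.find h)).1.p.val a l else none with hval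
  have hval1 : ∀ a l v, (∃ k, (σ k).1.p.val a l = some v) → val a l = some v := by
    rintro a l v ⟨k, hk⟩
    have h1 : ∃ k, (σ k).1.p.val a l ≠ none := ⟨k, by rw [hk]; simp⟩
    simp only [hval, dif_pos h1]
    exact hcompat a l k _ v hk (Nat.find_spec h1)
  have hval2 : ∀ a l, (∀ k, (σ k).1.p.val a l = none) → val a l = none := by
    intro a l hk
    have h1 : ¬ ∃ k, (σ k).1.p.val a l ≠ none := by
      push Not
      exact hk
    simp only [hval, dif_neg h1]
  have hval3 : ∀ a l, val a l ≠ none → ∃ k, (σ k).1.p.val a l ≠ none := by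
    intro a l hl
    by_contra hcon
    push Not at hcon
    exact hl (hval2 a l hcon)
  have hinf : ∀ a, {l | val a l = none}.Infinite := by
    intro a
    by_cases ha : ∃ k n, (σ k).1.p.val a n ≠ none
    · obtain ⟨k, hk⟩ := ha
      obtain ⟨j, hj⟩ := hen (σ k).1.p a hk
      have h1 : ∀ n, ∃ l, (a, l) ∈ (σ (max k j + n + 1)).1.F ∧ (a, l) ∉ (σ (max k j + n)).1.F := by
        intro n
        exact (hnext (max k j + n) (σ (max k j + n))).2.2.2.2 (σ k).1.p
          (hLmono k _ (by omega) _ (σ k).2.2.2) j (by omega) a hj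
      choose l hl hl' using h1
      refine Set.infinite_of_injective_forall_mem (f := l) ?_ ?_
      · intro m n hmn
        by_contra hne
        rcases lt_or_gt_of_ne hne with h2 | h2
        · apply hl' n
          rw [← hmn]
          exact hFmono (show max k j + m + 1 ≤ max k j + n by omega) (hl m)
        · apply hl' m
          rw [hmn]
          exact hFmono (show max k j + n + 1 ≤ max k j + m by omega) (hl n)
      · intro n
        exact hval2 a (l n) fun m => hfr m (max k j + n + 1) (a, l n) (hl n)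
    · push Not at ha
      have : {l | val a l = none} = Set.univ := by
        ext l
        simp only [Set.mem_ofPred_eq, Set.mem_univ, iff_true]
        exact hval2 a l fun k => ha k l
      rw [this]
      exact Set.infinite_univ
  have hsupp : {a | ∃ n, val a n ≠ none}.Countable := by
    refine (Set.countable_iUnion fun k => (σ k).1.p.supp).mono ?_
    rintro a ⟨n, hn⟩
    obtain ⟨k, hk⟩ := hval3 a n hn
    exact Set.mem_iUnion.2 ⟨k, n, hk⟩
  set q : Cond K := ⟨val, hsupp, hinf⟩ with hq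
  have hqle : ∀ n, q ≤ (σ n).1.p := fun n a l v hv => hval1 a l v ⟨n, hv⟩
  have hqfr : ∀ n, q.fr (σ n).1.F := fun n z hz => hval2 z.1 z.2 fun k => hfr k n z hz
  refine ⟨q, fun n => (σ n).1.t, fun n => (σ n).1.F, ⟨hqle 0, hqfr 0⟩, rfl, hFmono,
    Finset.Subset.refl _, hqfr, fun n => hQ _ _ _ (hqle n) (σ n).2.2.1, fun n => ?_⟩
  exact hR n _ _ _ _ _ ⟨hqle (n + 1), hqfr n⟩ (hnext n (σ n)).2.2.1

end SV
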