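import Pool.Agent.H79.SV.Fe
import Pool.Agent.H79.SV.Fu

/-!
# LIM: 2-adic limits of the number of ones of the generic below an infinite number

`IsLim FU b q x I`: below `q` the name `I` gives, modulo `2 ^ μ`, the limit along `U` of `cnt b g (x g m)`.

`exists_lim`: `reading` with `W μ p u` = `p ≤ p₀`, `u < 2 ^ μ` and `FU p (cnt b g (x g m) ≡ u [MOD 2 ^ μ])` (to have `p ≤ p₀` it may be
convenient to put it into `W`; `p ≤ p₀` is also a consequence of `FU`, `h.le`); density is `h.ex_lt` with `n = 2 ^ μ`. The name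
`fun g m => cnt b g (x g m) ≡ u [MOD 2 ^ μ]` is continuous by `Ctn.cnt`. `lim`: by `h.of_add` with the `F` of `reading` (for
`g' ∈ (q.add F g).pts` we have `I g' μ = I g μ` by `mem_pts_add`: places of `F` which are not free in `q` are the same for all
members of `q.pts`); `coh`: for `g ∈ q.pts`, `μ ≤ ν` take `r = q.add (F μ ∪ F ν) g`, both congruences with `I g μ`, `I g ν` are forced by `r`
(`add_mono`), so there are `g'`, `m` with `I g ν ≡ cnt b g' (x g' m) [MOD 2 ^ ν]` and `≡ I g μ [MOD 2 ^ μ]`.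

`exists_v`: `v g m = Nat.findGreatest (fun μ => cnt b g (x g m) ≡ I g μ [MOD 2 ^ μ]) m`; infinite by `Infn.findGreatest` (`Infn.id`); the
congruence at `v g m` is `Nat.findGreatest_spec` at `0` (modulo `2 ^ 0 = 1`).
-/

set_option autoImplicit false

namespace SV

open Cond

variable {K : Type} {p₀ : Cond K} {FU : Cond K → (Gen K → ℕ → Prop) → Prop}

/-- `I` is the 2-adic limit of `cnt b g (x g m)` along `U` -/
structure IsLim (FU : Cond K → (Gen K → ℕ → Prop) → Prop) (b : K) (q : Cond K)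
    (x : Gen K → ℕ → ℕ) (I : Gen K → ℕ → ℕ) : Prop where
  nm : Nm q I
  coh : ∀ g ∈ q.pts, ∀ μ ν, μ ≤ ν → I g ν ≡ I g μ [MOD 2 ^ μ]
  lim : ∀ μ, FU q fun g m => cnt b g (x g m) ≡ I g μ [MOD 2 ^ μ]

theorem IsLim.mono (h : IsU p₀ FU) {b : K} {p q : Cond K} {x : Gen K → ℕ → ℕ}
    {I : Gen K → ℕ → ℕ} (hI : IsLim FU b p x I) (hq : q ≤ p) : IsLim FU b q x I :=
  ⟨hI.nm.mono hq, fun g hg => hI.coh g (pts_mono hq hg), fun μ => h.mono p q _ hq (hI.lim μ)⟩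

theorem exists_lim (h : IsU p₀ FU) (b : K) {p : Cond K} (hp : p ≤ p₀) {F : Finset (K × ℕ)}
    (hF : p.fr F) {x : Gen K → ℕ → ℕ} (hx : Nm p x) :
    ∃ q, Ext F q p ∧ ∃ I : Gen K → ℕ → ℕ, IsLim FU b q x I := by
  classical
  have hname : ∀ (r : Cond K), r ≤ p → ∀ (μ u : ℕ),
      Nm r fun g m => cnt b g (x g m) ≡ u [MOD 2 ^ μ] := fun r hr μ u m =>
    (Ctn.cnt b ((hx.mono hr) m)).comp fun c => c ≡ u [MOD 2 ^ μ]
  obtain ⟨q, hq, I, hI, hF'⟩ := reading (α := ℕ)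
    (fun μ r u => FU r fun g m => cnt b g (x g m) ≡ u [MOD 2 ^ μ])
    (fun μ r s u hsr hr => h.mono r s _ hsr hr) hF (by
      intro μ r hr
      have h1 : FU r fun g m => ∃ i < 2 ^ μ, cnt b g (x g m) ≡ i [MOD 2 ^ μ] := by
        refine h.all (hr.trans hp) (fun m => ?_) fun g _ m => ?_
        · exact (Ctn.cnt b ((hx.mono hr) m)).comp fun c => ∃ i < 2 ^ μ, c ≡ i [MOD 2 ^ μ]
        · exact ⟨cnt b g (x g m) % 2 ^ μ, Nat.mod_lt _ (by positivity), (Nat.mod_modEq _ _).symm⟩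
      obtain ⟨s, hs, i, -, hi⟩ := h.ex_lt (φ := fun i g m => cnt b g (x g m) ≡ i [MOD 2 ^ μ])
        (fun i => hname r hr μ i) (2 ^ μ) h1
      exact ⟨s, hs, i, hi⟩)
  refine ⟨q, hq, I, hI, ?_, ?_⟩
  · intro g hg μ ν hμν
    obtain ⟨F1, hF1, hW1⟩ := hF' μ
    obtain ⟨F2, hF2, hW2⟩ := hF' ν
    have h1 := h.mono _ _ _ (add_mono g (Finset.subset_union_left : F1 ⊆ F1 ∪ F2)) (hW1 g)
    have h2 := h.mono _ _ _ (add_mono g (Finset.subset_union_right : F2 ⊆ F1 ∪ F2)) (hW2 g)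
    obtain ⟨g', -, m, h3, h4⟩ := h.ex (h.inter _ _ _ h1 h2)
    exact ((h4.of_dvd (pow_dvd_pow 2 hμν)).symm).trans h3
  · intro μ
    obtain ⟨F1, hF1, hW1⟩ := hF' μ
    have hn : Nm q fun g m => cnt b g (x g m) ≡ I g μ [MOD 2 ^ μ] := fun m =>
      (Ctn.cnt b ((hx.mono hq.1) m)).comp₂ (hI μ) fun c i => c ≡ i [MOD 2 ^ μ]
    refine h.of_add (hq.1.trans hp) hn fun g hg => ⟨F1, ?_⟩
    refine h.up _ _ _ (hW1 g) (hn.mono (add_le _ _ _)) fun g' hg' m hm => ?_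
    have h1 : I g' μ = I g μ := by
      refine hF1 g g' fun z hz => ?_
      obtain ⟨h2, h3⟩ := mem_pts_add.1 hg'
      cases hv : q.val z.1 z.2 with
      | none => exact h3 z hz hv
      | some v => rw [h2 _ _ _ hv, hg _ _ _ hv]
    show cnt b g' (x g' m) ≡ I g' μ [MOD 2 ^ μ]
    rw [h1]
    exact hm

theorem exists_v (h : IsU p₀ FU) {b : K} {p : Cond K} (hp : p ≤ p₀) {x : Gen K → ℕ → ℕ}
    (hx : Nm p x) {I : Gen K → ℕ → ℕ} (hI : IsLim FU b p x I) :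
    ∃ v, Infn FU p v ∧ ∀ g ∈ p.pts, ∀ m y, y ≤ v g m → cnt b g (x g m) ≡ I g y [MOD 2 ^ y] := by
  classical
  refine ⟨_, Infn.findGreatest (φ := fun μ g m => cnt b g (x g m) ≡ I g μ [MOD 2 ^ μ]) h
    (Infn.id h hp) (fun μ m => (Ctn.cnt b (hx m)).comp₂ (hI.nm μ) fun c i => c ≡ i [MOD 2 ^ μ])
    hI.lim, ?_⟩
  intro g hg m y hy
  have h1 := @Nat.findGreatest_spec 0 (fun μ => cnt b g (x g m) ≡ I g μ [MOD 2 ^ μ])
    (fun _ => Classical.propDecidable _) m (Nat.zero_le m) (by simp [Nat.modEq_one])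
  exact (h1.of_dvd (pow_dvd_pow 2 hy)).trans (hI.coh g hg y _ hy)

end SV
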