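import Pool.Agent.H79.SV.Lim
import Pool.Agent.H79.SV.Coin

/-!
# STEP: the decreasing sequence `x 0 > x 1 > …` of names depending on `A`

`step2`: `exists_lim` (at `r`), `exists_v`, `Coin.ext` for `v` (at the condition reached, which is `≤ q₀`), then
`y = min (y', x)` (`Infn.min`). The last statement: on the set where `y' ≤ v` we have `y ≤ v`, so `exists_v` gives the
congruence at `y`.

`exists_seq`: `fusion` with `T = Gen K → ℕ → ℕ`, `Q p x = (p ≤ q₀ ∧ Dep A x ∧ Infn FU p x)`,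
`R n F p x x' = ∃ I, IsLim FU b p x I ∧ (∀ g m, x' g m ≤ x g m) ∧ FU p (cnt b g (x g m) ≡ I g (x' g m) [MOD 2 ^ (x' g m)])`, start `x 0 = fun _ m => m`
(`Infn.id`); then choose the `I j`.
-/

set_option autoImplicit false

namespace SV

open Cond

variable {K : Type} {p₀ : Cond K} {FU : Cond K → (Gen K → ℕ → Prop) → Prop}

/-- the congruence at a continuous place is a name -/
theorem stp_cong {b : K} {p : Cond K} {x y : Gen K → ℕ} {I : Gen K → ℕ → ℕ}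
    (hx : Ctn p x) (hy : Ctn p y) (hI : ∀ n, Ctn p fun g => I g n) :
    Ctn p fun g => cnt b g (x g) ≡ I g (y g) [MOD 2 ^ (y g)] :=
  Ctn.comp₃ (X := fun g => cnt b g (x g)) (Y := fun g => I g (y g)) (Z := y) (Ctn.cnt b hx)
    (Ctn.bind (N := y) (X := fun n g => I g n) hy hI) hy fun u v n => u ≡ v [MOD 2 ^ n]

theorem step2 (h : IsU p₀ FU) {A : Set K} (hA : Good p₀ FU A) {q₀ : Cond K} (hq₀ : q₀ ≤ p₀)
    (hc : Coin FU A q₀) (b : K) {r : Cond K} (hr : r ≤ q₀) {F : Finset (K × ℕ)} (hF : r.fr F)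
    {x : Gen K → ℕ → ℕ} (hxA : Dep A x) (hx : Infn FU r x) :
    ∃ r', Ext F r' r ∧ ∃ (I : Gen K → ℕ → ℕ) (y : Gen K → ℕ → ℕ), IsLim FU b r' x I ∧ Dep A y ∧
      Infn FU r' y ∧ (∀ g m, y g m ≤ x g m) ∧
      FU r' fun g m => cnt b g (x g m) ≡ I g (y g m) [MOD 2 ^ (y g m)] := by
  obtain ⟨r₁, hr₁, I, hI⟩ := exists_lim h b (hr.trans hq₀) hF hx.1
  have hr₁p : r₁ ≤ p₀ := hr₁.1.trans (hr.trans hq₀)
  obtain ⟨v, hv, hvs⟩ := exists_v h hr₁p (hx.1.mono hr₁.1) hI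
  obtain ⟨r₂, hr₂, y', hy'A, hy', hy'v⟩ := Coin.ext h hA hq₀ hc (hr₁.1.trans hr) hr₁.2 hv
  have hx₂ : Infn FU r₂ x := hx.mono h (hr₂.1.trans hr₁.1)
  have hmin : Infn FU r₂ fun g m => min (y' g m) (x g m) := Infn.min h hy' hx₂
  refine ⟨r₂, hr₂.trans hr₁ (Finset.Subset.refl F), I, fun g m => min (y' g m) (x g m),
    hI.mono h hr₂.1, ?_, hmin, fun g m => min_le_right _ _, ?_⟩
  · intro g g' hg
    funext m
    simp only [congrFun (hy'A g g' hg) m, congrFun (hxA g g' hg) m]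
  · refine h.up _ _ _ hy'v (fun m => ?_) fun g hg m h1 =>
      hvs g (pts_mono hr₂.1 hg) m _ ((min_le_left _ _).trans h1)
    exact stp_cong (hx₂.1 m) (hmin.1 m) fun n => (hI.nm n).mono hr₂.1

theorem exists_seq (h : IsU p₀ FU) {A : Set K} (hA : Good p₀ FU A) {q₀ : Cond K} (hq₀ : q₀ ≤ p₀)
    (hc : Coin FU A q₀) (b : K) : ∃ q, q ≤ q₀ ∧ ∃ (x I : ℕ → Gen K → ℕ → ℕ), (∀ j, Dep A (x j)) ∧
      (∀ j, Infn FU q (x j)) ∧ (∀ j g m, x (j + 1) g m ≤ x j g m) ∧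
      (∀ j, IsLim FU b q (x j) (I j)) ∧
      (∀ j, FU q fun g m => cnt b g (x j g m) ≡ I j g (x (j + 1) g m) [MOD 2 ^ (x (j + 1) g m)]) := by
  obtain ⟨q, x, F, hq, -, -, -, -, hQ, hR⟩ := fusion
    (fun (p : Cond K) (x : Gen K → ℕ → ℕ) => p ≤ q₀ ∧ Dep A x ∧ Infn FU p x)
    (fun _ _ p x x' => ∃ I : Gen K → ℕ → ℕ, IsLim FU b p x I ∧ (∀ g m, x' g m ≤ x g m) ∧
      FU p fun g m => cnt b g (x g m) ≡ I g (x' g m) [MOD 2 ^ (x' g m)])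
    (fun p q x hqp hx => ⟨hqp.trans hx.1, hx.2.1, hx.2.2.mono h hqp⟩)
    (fun n F p q x x' hqp hR => by
      obtain ⟨I, h1, h2, h3⟩ := hR
      exact ⟨I, h1.mono h hqp.1, h2, h.mono _ _ _ hqp.1 h3⟩)
    (fun n F p x hF hx => by
      obtain ⟨r', hr', I, y, h1, h2, h3, h4, h5⟩ := step2 h hA hq₀ hc b hx.1 hF hx.2.1 hx.2.2
      exact ⟨r', y, hr', ⟨hr'.1.trans hx.1, h2, h3⟩, I, h1, h4, h5⟩)
    ∅ q₀ (fun _ m => m) (fr_empty q₀) ⟨le_rfl, fun _ _ _ => rfl, Infn.id h hq₀⟩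
  choose I hI1 hI2 hI3 using hR
  exact ⟨q, hq.1, x, I, fun j => (hQ j).2.1, fun j => (hQ j).2.2, hI2, hI1, hI3⟩

end SV
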