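import Pool.Agent.H79.SV.Defs
import Pool.Agent.H71.PM.Smu

/-!
# WIT: Boolean values of the notions of the statement

Unfold and use the rules `HV.*` (as `hv_isFin` in `PM/HV.lean`; `hv_isReal`, `hv_unbdd`, `hv_isSeq`, `hv_isFn` exist in `PM/Ad.lean`,
`PM/Smu.lean`, `PM/Nms.lean`). Structures: prove the value of the conjunction of the fields first.
-/

set_option autoImplicit false

namespace SV

open BV PK HM PM HD

variable {B : Type} [CompleteBooleanAlgebra B]

theorem hv_isFreeUlt (u : BSet B) :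
    HV fun W : UF B => IsFreeUlt (MU.E W) (om W) (MU.mk W u) := by
  have h : HV fun W : UF B => (∀ X, MU.E W X (MU.mk W u) → IsReal (MU.E W) (om W) X) ∧
      (∀ X, MU.E W X (MU.mk W u) → Unbdd (MU.E W) (om W) X) ∧
      (∀ X Y, MU.E W X (MU.mk W u) → IsReal (MU.E W) (om W) Y →
        (∀ n, MU.E W n X → MU.E W n Y) → MU.E W Y (MU.mk W u)) ∧
      (∀ X Y Z, MU.E W X (MU.mk W u) → MU.E W Y (MU.mk W u) →
        (∀ n, MU.E W n Z ↔ MU.E W n X ∧ MU.E W n Y) → MU.E W Z (MU.mk W u)) ∧
      (∀ X Y, IsReal (MU.E W) (om W) X → IsReal (MU.E W) (om W) Y →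
        (∀ n, MU.E W n (om W) → MU.E W n X ∨ MU.E W n Y) →
        MU.E W X (MU.mk W u) ∨ MU.E W Y (MU.mk W u)) := by
    refine HV.and ?_ (HV.and ?_ (HV.and ?_ (HV.and ?_ ?_)))
    · exact HV.all fun X => (HV.mem X u).imp (hv_isReal X)
    · exact HV.all fun X => (HV.mem X u).imp (hv_unbdd X)
    · exact HV.all fun X => HV.all fun Y => (HV.mem X u).imp ((hv_isReal Y).imp
        ((HV.all fun n => (HV.mem n X).imp (HV.mem n Y)).imp (HV.mem Y u)))
    · exact HV.all fun X => HV.all fun Y => HV.all fun Z => (HV.mem X u).imp ((HV.mem Y u).imp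
        ((HV.all fun n => (HV.mem n Z).iff ((HV.mem n X).and (HV.mem n Y))).imp (HV.mem Z u)))
    · exact HV.all fun X => HV.all fun Y => (hv_isReal X).imp ((hv_isReal Y).imp
        ((HV.all fun n => (hv_om n).imp ((HV.mem n X).or (HV.mem n Y))).imp
          ((HV.mem X u).or (HV.mem Y u))))
  obtain ⟨b, hb⟩ := h
  refine ⟨b, fun W => (hb W).trans ⟨?_, ?_⟩⟩
  · rintro ⟨h1, h2, h3, h4, h5⟩
    exact ⟨h1, h2, h3, h4, h5⟩
  · rintro ⟨h1, h2, h3, h4, h5⟩
    exact ⟨h1, h2, h3, h4, h5⟩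

theorem hv_few (A i j k : BSet B) : HV fun W : UF B =>
    Few (MU.E W) (MU.mk W A) (MU.mk W i) (MU.mk W j) (MU.mk W k) := by
  unfold Few
  refine HV.ex fun g => HV.and ?_ (HV.and ?_ ?_)
  · exact HV.all fun x => HV.all fun l => HV.all fun p => (HV.mem x A).imp
      (((HV.mem i x).or (HV.eq i x)).imp ((HV.mem x j).imp ((HV.mem l k).imp
        ((hv_isOPair p x l).imp (HV.ex fun y => (HV.mem y A).and (hv_app g p y))))))
  · exact HV.all fun p => HV.all fun y => HV.all fun y' => (hv_app g p y).imp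
      ((hv_app g p y').imp (HV.eq y y'))
  · exact HV.all fun p => HV.all fun p' => HV.all fun y => (hv_app g p y).imp
      ((hv_app g p' y).imp (HV.eq p p'))

theorem hv_flat (u : BSet B) : HV fun W : UF B => Flat (MU.E W) (om W) (MU.mk W u) := by
  unfold Flat
  refine HV.ex fun a => HV.and (hv_isSeq a) (HV.and ?_ ?_)
  · exact HV.all fun n => HV.all fun A => (hv_om n).imp ((hv_app a n A).imp
      ((hv_isReal A).and ((hv_isFin A).and (HV.ex fun x => HV.mem x A))))
  · exact HV.all fun f => (hv_isFn f).imp (HV.all fun k => (hv_om k).imp (HV.ex fun Z =>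
      (HV.mem Z u).and (HV.all fun n => (HV.mem n Z).imp (HV.all fun A => (hv_app a n A).imp
        (HV.all fun i => HV.all fun j => (hv_om i).imp ((hv_app f i j).imp (hv_few A i j k)))))))

end SV
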